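import Pool.Agent.Lib.MP_08bba9_an.Co.Defs

/-! Amplification of a form to a matrix algebra. -/

noncomputable section

namespace Pool.Agent.Lib.MP_08bba9_an.Co

open Finset Function

section idx

variable {K : Type*} [Zero K]

/-- a finite index path as a sequence -/
def pext {n : ℕ} (p : Fin n → K) : ℕ → K := fun t => if h : t < n then p ⟨t, h⟩ else 0

theorem pext_insertNth {n : ℕ} (i : Fin (n + 1)) (c : K) (q : Fin n → K) :
    pext (Fin.insertNth (α := fun _ => K) i c q) = ins i c (pext q) := by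
  funext t
  simp only [pext, ins]
  by_cases h : t < n + 1
  · rw [dif_pos h]
    rcases lt_trichotomy t i with e | e | e
    · have h' : t < n := by have := i.2; omega
      have : (⟨t, h⟩ : Fin (n + 1)) = i.succAbove ⟨t, h'⟩ := by
        rw [Fin.succAbove_of_castSucc_lt _ _ (by exact e)]; rfl
      rw [if_pos e, dif_pos h', this, Fin.insertNth_apply_succAbove]
    · have : (⟨t, h⟩ : Fin (n + 1)) = i := Fin.ext e
      rw [if_neg (by omega), if_pos e, this, Fin.insertNth_apply_same]
    · have h' : t - 1 < n := by omega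
      have : (⟨t, h⟩ : Fin (n + 1)) = i.succAbove ⟨t - 1, h'⟩ := by
        rw [Fin.succAbove_of_le_castSucc _ _ (by
          rw [Fin.le_def]; simp only [Fin.val_castSucc]; omega)]
        exact Fin.ext (by simp only [Fin.val_succ]; omega)
      rw [if_neg (by omega), if_neg (by omega), dif_pos h', this, Fin.insertNth_apply_succAbove]
  · have := i.2
    rw [dif_neg h, if_neg (by omega), if_neg (by omega), dif_neg (by omega)]

theorem sum_ins [Fintype K] {n i : ℕ} (hi : i ≤ n) (G : (ℕ → K) → ℂ) :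
    ∑ p : Fin (n + 1) → K, G (pext p) = ∑ q : Fin n → K, ∑ c, G (ins i c (pext q)) := by
  rw [← (Fin.insertNthEquiv (fun _ => K) ⟨i, by omega⟩).sum_comp, Fintype.sum_prod_type,
    sum_comm]
  refine sum_congr rfl fun q _ => sum_congr rfl fun c _ => ?_
  exact congrArg G (pext_insertNth ⟨i, by omega⟩ c q)

theorem pext_update {n : ℕ} (q : Fin (n + 1) → K) (c : K) :
    pext (update q 0 c) = update (pext q) 0 c := by
  funext t
  by_cases e : t = 0
  · subst e
    simp [pext]
  · rw [update_of_ne e]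
    unfold pext
    split_ifs with h
    · exact update_of_ne (fun e' => e (congrArg Fin.val e')) _ _
    · rfl

omit [Zero K] in
theorem sum_swap0 [Fintype K] {n : ℕ} (H : (Fin (n + 1) → K) → K → ℂ) :
    ∑ q, ∑ c, H q c = ∑ q, ∑ c, H (update q 0 c) (q 0) := by
  have inv : Involutive fun z : (Fin (n + 1) → K) × K => (update z.1 0 z.2, z.1 0) := fun z => by
    simp
  rw [← Fintype.sum_prod_type', ← Fintype.sum_prod_type', ← Equiv.sum_comp inv.toPerm]
  rfl

end idx

section amp

variable {A : Type*} [CStarAlgebra A] [PartialOrder A] [StarOrderedRing A] {K : Type} [Fintype K]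
  [DecidableEq K] [Zero K] {m : ℕ} {C : ℝ} {f : (ℕ → A) → ℂ}

/-- entries along an index path -/
def pent (m : ℕ) (p : ℕ → K) (x : ℕ → CStarMatrix K K A) : ℕ → A :=
  fun t => x t (p t) (p (nx m t))

/-- the amplified form -/
def ampF (m : ℕ) (f : (ℕ → A) → ℂ) (x : ℕ → CStarMatrix K K A) : ℂ :=
  ∑ p : Fin (m + 1) → K, f (pent m (pext p) x)

omit [DecidableEq K] in
theorem Fm.ampF (h : Fm m C f) :
    Fm m ((Fintype.card K : ℝ) ^ (m + 1) * C) (ampF (K := K) m f) := by
  have := Fm.sum (univ : Finset (Fin (m + 1) → K)) (D := fun _ => C)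
    (F := fun p x => f (pent m (pext p) x)) fun p _ =>
      h.comp (L := fun t (y : CStarMatrix K K A) => y (pext p t) (pext p (nx m t)))
        (fun _ => ⟨fun _ _ => rfl, fun _ _ => rfl⟩)
        fun _ _ _ => CStarMatrix.norm_entry_le_norm
  exact this.mono (by simp)

omit [PartialOrder A] [StarOrderedRing A] [DecidableEq K] in
theorem ampF_ct (h : Fm m C f) {l : ℕ} (hl : l ≤ m) (x : ℕ → CStarMatrix K K A) :
    ampF m f (ct l x) = ∑ p : Fin (m + 2) → K, f (ct l (pent (m + 1) (pext p) x)) := by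
  rw [sum_ins (i := l + 1) (by omega) fun p => f (ct l (pent (m + 1) p x))]
  refine sum_congr rfl fun q _ => ?_
  have e : pent m (pext q) (ct l x) = update (pent m (pext q) (ct l x)) l
      (∑ c, x l (pext q l) c * x (l + 1) c (pext q (nx m l))) := by
    rw [← CStarMatrix.mul_apply, eq_comm, update_eq_self_iff]
    simp [pent, ct]
  rw [e, h.map_sum hl]
  refine sum_congr rfl fun c _ => h.dep _ _ fun t ht => ?_
  simp only [update_apply, pent, ct, ins, nx]
  split_ifs <;> first | rfl | omega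

omit [PartialOrder A] [StarOrderedRing A] [DecidableEq K] in
theorem ampF_wr (h : Fm m C f) (x : ℕ → CStarMatrix K K A) :
    ampF m f (wr (m + 1) x) = ∑ p : Fin (m + 2) → K, f (wr (m + 1) (pent (m + 1) (pext p) x)) := by
  rw [sum_ins (i := m + 1) le_rfl fun p => f (wr (m + 1) (pent (m + 1) p x)), sum_swap0]
  refine sum_congr rfl fun q _ => ?_
  have e : pent m (pext q) (wr (m + 1) x) = update (pent m (pext q) (wr (m + 1) x)) 0
      (∑ c, x (m + 1) (pext q 0) c * x 0 c (pext q (nx m 0))) := by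
    rw [← CStarMatrix.mul_apply, eq_comm, update_eq_self_iff]
    simp [pent, wr]
  have e0 : q 0 = pext q 0 := by simp [pext]
  rw [e, h.map_sum m.zero_le]
  refine sum_congr rfl fun c _ => h.dep _ _ fun t ht => ?_
  rw [pext_update, e0]
  simp only [update_apply, pent, wr, ins, nx]
  split_ifs <;> first | rfl | omega | contradiction

omit [PartialOrder A] [StarOrderedRing A] [DecidableEq K] in
theorem cb_ampF (h : Fm m C f) (hc : ∀ a, cb m f a = 0) (x : ℕ → CStarMatrix K K A) :
    cb m (ampF m f) x = 0 := by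
  have : cb m (ampF m f) x = ∑ p : Fin (m + 2) → K, cb m f (pent (m + 1) (pext p) x) := by
    simp only [cb, sum_add_distrib, ← mul_sum]
    rw [ampF_wr h, sum_comm]
    congr 1
    refine sum_congr rfl fun l hl => ?_
    rw [ampF_ct h (Nat.lt_succ_iff.1 (mem_range.1 hl)), mul_sum]
  rw [this]
  exact sum_eq_zero fun p _ => hc _

/-- matrix units -/
def mu (i l : K) : CStarMatrix K K A := fun r s => if r = i ∧ s = l then 1 else 0

/-- the diagonal embedding -/
def dg : A →⋆ₐ[ℂ] CStarMatrix K K A where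
  toFun a := fun r s => if r = s then a else 0
  map_one' := rfl
  map_mul' a b := by
    ext r s
    simp [CStarMatrix.mul_apply]
  map_zero' := by
    ext r s
    simp
  map_add' a b := by
    ext r s
    rw [CStarMatrix.add_apply]
    split_ifs <;> simp
  commutes' c := by
    ext r s
    simp [CStarMatrix.algebraMap_apply]
  map_star' a := by
    ext r s
    rw [CStarMatrix.star_apply]
    by_cases e : r = s
    · simp [e]
    · simp [e, Ne.symm e]

omit [PartialOrder A] [StarOrderedRing A] [Zero K] in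
theorem dg_apply (a : A) (r s : K) : (dg a : CStarMatrix K K A) r s = if r = s then a else 0 := rfl

omit [PartialOrder A] [StarOrderedRing A] [Zero K] in
theorem dg_mu (a : A) (i l r s : K) :
    (dg a * mu i l : CStarMatrix K K A) r s = if r = i ∧ s = l then a else 0 := by
  rw [CStarMatrix.mul_apply, sum_eq_single r (fun x _ e => by simp [dg_apply, e.symm]) (by simp)]
  simp [dg_apply, mu]

omit [PartialOrder A] [StarOrderedRing A] in
theorem ampF_corner (h : Fm m C f) (a : ℕ → A) :
    ampF m f (fun t => (dg (a t) * mu 0 0 : CStarMatrix K K A)) = f a := by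
  have p0 : pext (0 : Fin (m + 1) → K) = fun _ => 0 := by
    funext t; simp [pext]
  rw [ampF, sum_eq_single 0 ?_ (by simp)]
  · congr 1
    funext t
    simp [pent, dg_mu, p0]
  · intro p _ hp
    obtain ⟨t, ht⟩ := Function.ne_iff.1 hp
    refine h.map_zero (Nat.lt_succ_iff.1 t.2) ?_
    have : pext p t ≠ 0 := by rw [pext, dif_pos t.2]; exact ht
    simp [pent, dg_mu, this]

end amp

universe u

/-- amplification of forms to matrices of size `k + 1` -/
theorem amp' (A : Type u) [CStarAlgebra A] (k : ℕ) :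
    ∃ (B : Type u) (_ : CStarAlgebra B) (E : Fin (k + 1) → Fin (k + 1) → B) (j : A →⋆ₐ[ℂ] B),
      (∀ i l l' r, E i l * E l' r = if l = l' then E i r else 0) ∧
      (∀ i l, star (E i l) = E l i) ∧ ∑ i, E i i = 1 ∧ (∀ a i l, j a * E i l = E i l * j a) ∧
      ∀ (m : ℕ) (C : ℝ) (f : (ℕ → A) → ℂ), Fm m C f → ∃ F : (ℕ → B) → ℂ,
        Fm m (((k : ℝ) + 1) ^ (m + 1) * C) F ∧ ((∀ a, cb m f a = 0) → ∀ x, cb m F x = 0) ∧
          ∀ a, F (fun t => j (a t) * E 0 0) = f a := by
  let _ := CStarAlgebra.spectralOrder A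
  have := CStarAlgebra.spectralOrderedRing A
  refine ⟨CStarMatrix (Fin (k + 1)) (Fin (k + 1)) A, inferInstance, mu, dg, fun i l l' r => ?_,
    fun i l => ?_, ?_, fun a i l => ?_, fun m C f h =>
      ⟨ampF m f, by simpa using h.ampF (K := Fin (k + 1)), cb_ampF h, ampF_corner h⟩⟩
  · ext a b
    by_cases e : l = l'
    · subst e
      by_cases e1 : a = i <;> simp [CStarMatrix.mul_apply, mu, ite_and, e1]
    · simp [CStarMatrix.mul_apply, mu, ite_and, e, Ne.symm e]
  · ext a b
    simp [CStarMatrix.star_apply, mu, and_comm, apply_ite star]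
  · ext a b
    rw [CStarMatrix.one_apply]
    refine (Matrix.sum_apply a b univ (fun i => (mu i i : CStarMatrix _ _ A))).trans ?_
    simp [mu, ite_and, eq_comm]
  · ext r s
    rw [dg_mu]
    simp [CStarMatrix.mul_apply, dg_apply, mu]

/-- amplification in the form of `MU` -/
theorem amp'' (A : Type u) [CStarAlgebra A] (k : ℕ) :
    ∃ (B : Type u) (_ : CStarAlgebra B) (E : ℕ → ℕ → B) (j : A →⋆ₙₐ[ℂ] B), MU k E j ∧
      ∀ (m : ℕ) (C : ℝ) (f : (ℕ → A) → ℂ), Fm m C f → Coc m f → ∃ F : (ℕ → B) → ℂ,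
        Fm m (((k : ℝ) + 1) ^ (m + 1) * C) F ∧ Coc m F ∧ ∀ a, F (fun t => j (a t)) = f a := by
  obtain ⟨B, _, E, j, h1, h2, h3, h4, h5⟩ := amp' A k
  have e0 : E 0 0 * E 0 0 = E 0 0 := by rw [h1, if_pos rfl]
  let j' : A →⋆ₙₐ[ℂ] B :=
    { toFun := fun a => j a * E 0 0
      map_smul' := fun c a => by simp
      map_zero' := by simp
      map_add' := fun a b => by simp [add_mul]
      map_mul' := fun a b => by
        rw [map_mul, mul_assoc (j a) (E 0 0), ← mul_assoc (E 0 0), ← h4, mul_assoc (j b), e0,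
          mul_assoc]
      map_star' := fun a => by rw [star_mul, h2, ← map_star, h4] }
  have inj : ∀ q ≤ k, ∀ r ≤ k, Fin.ofNat (k + 1) q = Fin.ofNat (k + 1) r ↔ q = r :=
    fun q hq r hr => by
      rw [Fin.ext_iff, Fin.val_ofNat, Fin.val_ofNat, Nat.mod_eq_of_lt (by omega),
        Nat.mod_eq_of_lt (by omega)]
  refine ⟨B, inferInstance, fun p q => E (Fin.ofNat _ p) (Fin.ofNat _ q), j',
    ⟨fun p _ q hq r hr s _ => ?_, fun p _ q _ => h2 _ _, ?_, ?_⟩, fun m C f hf hc => ?_⟩
  · simp only [h1, inj q hq r hr]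
  · rw [← h3, ← Fin.sum_univ_eq_sum_range fun p => E (Fin.ofNat _ p) (Fin.ofNat _ p)]
    simp
  · change j 1 * E 0 0 = E 0 0
    rw [map_one, one_mul]
  · obtain ⟨F, a1, a2, a3⟩ := h5 m C f hf
    exact ⟨F, a1, a2 hc, a3⟩

theorem amp (A : Type u) [CStarAlgebra A] (m : ℕ) :
    ∃ (B : Type u) (_ : CStarAlgebra B) (E : ℕ → ℕ → B) (j : A →⋆ₙₐ[ℂ] B), MU m E j ∧
      ∀ n C (φ : (ℕ → A) → ℂ), Fm n C φ → Coc n φ →
        ∃ D Φ, Fm n D Φ ∧ Coc n Φ ∧ ∀ a, Φ (fun t => j (a t)) = φ a := by
  obtain ⟨B, i, E, j, h1, h2⟩ := amp'' A m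
  exact ⟨B, i, E, j, h1, fun n C φ a b => ⟨_, h2 n C φ a b⟩⟩

end Pool.Agent.Lib.MP_08bba9_an.Co
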