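import Pool.Agent.Lib.MP_08bba9_an.Co.Defs

/-! A facial cocycle is a coboundary. -/

noncomputable section

namespace Pool.Agent.Lib.MP_08bba9_an.Co

open Finset Function

namespace Dk

theorem dk_tri (F : ℕ → ℕ → ℂ) (n : ℕ) (h : ∀ i j, i ≤ j → j < n → F i j = F (j + 1) i) :
    ∑ i ∈ range (n + 1), ∑ j ∈ range n, (-1) ^ i * ((-1) ^ j * F i j) = 0 := by
  induction n with
  | zero => simp
  | succ n ih =>
    rw [sum_range_succ _ (n + 1)]
    simp only [sum_range_succ _ n] at ih ⊢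
    have e : ∑ i ∈ range n, (-1 : ℂ) ^ i * ((-1) ^ n * F i n) =
        -∑ j ∈ range n, (-1 : ℂ) ^ (n + 1) * ((-1) ^ j * F (n + 1) j) := by
      rw [← sum_neg_distrib]
      refine sum_congr rfl fun i hi => ?_
      rw [h i n (mem_range.1 hi).le n.lt_succ_self]
      ring
    rw [sum_add_distrib, e, h n n le_rfl n.lt_succ_self]
    linear_combination ih fun i j a b => h i j a (by omega)

section alg

variable {A : Type*} {m : ℕ}

theorem cb_lin [Mul A] (f g : (ℕ → A) → ℂ) (c : ℂ) (a : ℕ → A) :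
    cb m (fun a => f a + c * g a) a = cb m f a + c * cb m g a := by
  simp only [cb, mul_add, sum_add_distrib, mul_sum, mul_left_comm c]
  ring

/-- the faces in one notation -/
def fc [Mul A] (m l : ℕ) (a : ℕ → A) : ℕ → A := if l ≤ m then ct l a else wr (m + 1) a

theorem cb_fc [Mul A] (f : (ℕ → A) → ℂ) (a : ℕ → A) :
    cb m f a = ∑ l ∈ range (m + 2), (-1) ^ l * f (fc m l a) := by
  rw [sum_range_succ, cb, fc, if_neg (by omega)]
  congr 1
  exact sum_congr rfl fun l hl => by rw [fc, if_pos (by simpa [Nat.lt_succ_iff] using hl)]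

theorem ct_ct [Semigroup A] {i j : ℕ} (h : i ≤ j) (a : ℕ → A) :
    ct j (ct i a) = ct i (ct (j + 1) a) := by
  funext t
  simp only [ct]
  split_ifs <;> first | rfl | omega | (subst_vars; exact mul_assoc _ _ _)

theorem fc_fc [Semigroup A] {i j t : ℕ} (h : i ≤ j) (hj : j < m + 2) (ht : t ≤ m) (a : ℕ → A) :
    fc m j (fc (m + 1) i a) t = fc m i (fc (m + 1) (j + 1) a) t := by
  unfold fc
  by_cases h1 : j ≤ m
  · rw [if_pos h1, if_pos (by omega), if_pos (by omega), if_pos (by omega), ct_ct h]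
  rw [if_neg h1, if_pos (by omega : i ≤ m + 1), if_neg (by omega : ¬ j + 1 ≤ m + 1)]
  by_cases h2 : i ≤ m
  · rw [if_pos h2]
    simp only [ct, wr]
    split_ifs <;> first | rfl | omega | contradiction | (subst_vars; exact (mul_assoc _ _ _).symm)
  · obtain rfl : i = m + 1 := by omega
    rw [if_neg h2]
    simp only [ct, wr]
    split_ifs <;> first | rfl | omega | contradiction | exact mul_assoc _ _ _

theorem cb_cb [Semigroup A] {g : (ℕ → A) → ℂ} (h : ∀ a b, (∀ i ≤ m, a i = b i) → g a = g b)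
    (a : ℕ → A) : cb (m + 1) (cb m g) a = 0 := by
  simp only [cb_fc, mul_sum]
  exact dk_tri (fun i j => g (fc m j (fc (m + 1) i a))) (m + 2) fun i j h1 h2 =>
    h _ _ fun t ht => fc_fc h1 h2 ht a

theorem ct_ins_lt [Mul A] {i k : ℕ} (h : i < k) (c : A) (a : ℕ → A) :
    ct i (ins (k + 1) c a) = ins k c (ct i a) := by
  funext t
  simp only [ct, ins]
  split_ifs <;> first | rfl | omega | (congr 1; omega)

theorem ct_ins_eq [MulOneClass A] (k : ℕ) (a : ℕ → A) : ct k (ins (k + 1) 1 a) = a := by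
  funext t
  simp only [ct, ins]
  split_ifs <;> first | rfl | omega | (subst_vars; simp)

theorem ct_ins_succ [MulOneClass A] (k : ℕ) (a : ℕ → A) : ct (k + 1) (ins (k + 1) 1 a) = a := by
  funext t
  simp only [ct, ins]
  split_ifs <;> first | rfl | omega | (subst_vars; simp)

theorem ct_ins_gt [Mul A] (k i : ℕ) (c : A) (a : ℕ → A) :
    ct (k + 2 + i) (ins (k + 1) c a) = ins (k + 1) c (ct (k + 1 + i) a) := by
  funext t
  simp only [ct, ins]
  split_ifs <;> first | rfl | omega | (congr 1; omega) | (congr 2 <;> omega)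

theorem wr_ins [Mul A] {k : ℕ} (h : k ≤ m) (c : A) (a : ℕ → A) :
    wr (m + 2) (ins (k + 1) c a) = ins (k + 1) c (wr (m + 1) a) := by
  funext t
  simp only [wr, ins]
  split_ifs <;> first | rfl | omega

theorem cb_ins [MulOneClass A] {k : ℕ} (h : k ≤ m) {f : (ℕ → A) → ℂ}
    (hc : ∀ a, cb (m + 1) f a = 0) (a : ℕ → A) :
    cb m (fun b => f (ins (k + 1) 1 b)) a = (-1) ^ k * f (ins (k + 1) 1 (ct k a)) +
      ∑ i ∈ range k, (-1) ^ i * (f (ins (k + 1) 1 (ct i a)) + f (ins k 1 (ct i a))) := by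
  have := hc (ins (k + 1) 1 a)
  obtain ⟨d, rfl⟩ := Nat.exists_eq_add_of_le h
  rw [cb, wr_ins h, show k + d + 1 + 1 = k + 2 + d by ring, sum_range_add, sum_range_succ,
    sum_range_succ, ct_ins_eq, ct_ins_succ,
    sum_congr rfl fun i hi => by rw [ct_ins_lt (mem_range.1 hi)]] at this
  simp only [ct_ins_gt] at this
  rw [cb, show k + d + 1 = k + 1 + d by ring, sum_range_add, sum_range_succ]
  have e : ∑ i ∈ range d, (-1 : ℂ) ^ (k + 2 + i) * f (ins (k + 1) 1 (ct (k + 1 + i) a)) =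
      -∑ i ∈ range d, (-1 : ℂ) ^ (k + 1 + i) * f (ins (k + 1) 1 (ct (k + 1 + i) a)) := by
    rw [← sum_neg_distrib]
    exact sum_congr rfl fun i _ => by ring
  rw [e, show k + d + 1 = k + 1 + d by ring] at this
  simp only [mul_add, sum_add_distrib]
  linear_combination -this

theorem bal_ins_ct [Semigroup A] {g : (ℕ → A) → ℂ} {l k : ℕ} (h : Bal (m + 1) l g) (hl : l < k)
    (hk : k ≤ m) (c : A) : Bal (m + 1) l fun a => g (ins (k + 1) c (ct k a)) := by
  intro a x
  have := h (ins (k + 1) c (ct k a)) x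
  rw [nx_lt (by omega)] at this ⊢
  refine (congrArg g ?_).trans (this.trans (congrArg g ?_)) <;> funext t <;>
    simp only [ins, ct, update_apply] <;> split_ifs <;>
    first | rfl | omega | (subst_vars; first | rfl | exact (mul_assoc _ _ _).symm)

theorem bal_eq_ins_ct [MulOneClass A] {g : (ℕ → A) → ℂ} {k : ℕ} (h : Bal (m + 1) k g)
    (hk : k ≤ m) (a : ℕ → A) : g (ins (k + 1) 1 (ct k a)) = g a := by
  have := h (update a (k + 1) 1) (a (k + 1))
  rw [nx_lt (by omega)] at this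
  refine (congrArg g ?_).trans (this.trans (congrArg g ?_)) <;> funext t <;>
    simp only [ins, ct, update_apply] <;> split_ifs <;>
    first | rfl | omega | (subst_vars; simp) | (congr 1; omega)

end alg

variable {A : Type*} [NormedRing A] [NormedAlgebra ℂ A] {m : ℕ} {C : ℝ} {f : (ℕ → A) → ℂ}

theorem fac_ct {k l : ℕ} (h : Fm m C f) (hl : l ∈ range k) (hk : k ≤ m + 1) :
    FacLt (m + 1) k C fun a => f (Co.ct l a) := by
  have := mem_range.1 hl
  exact FacLt.of_bal (h.ct (by omega)) (bal_ct (by omega) f) this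

theorem dk_lt (k : ℕ) (hk : k ≤ m + 1) (h : FacLt (m + 1) k C f) (hc : ∀ a, cb (m + 1) f a = 0) :
    ∃ D g, Fm m D g ∧ ∀ a, f a = cb m g a := by
  induction k generalizing C f with
  | zero =>
    obtain ⟨g, -, h2⟩ := h
    exact ⟨0, fun _ => 0, Fm.zero le_rfl, fun a => by simp [h2, cb]⟩
  | succ k ih =>
    have hf := h.fm
    have hs := hf.ins (i := k + 1) hk 1
    have hs' := hf.ins (i := k) (by omega) 1
    obtain ⟨g, h1, h2⟩ := h
    have f1 := FacLt.sum (m := m + 1) (k := k) (range k) fun l hl =>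
      (FacLt.of_bal (h1 l).1 (h1 l).2 (mem_range.1 hl)).sub
        (FacLt.of_bal (((h1 l).1.ins (i := k + 1) hk 1).ct (l := k) (by omega))
          (bal_ins_ct (h1 l).2 (mem_range.1 hl) (by omega) 1) (mem_range.1 hl))
    have f2 := (FacLt.sum (range k) fun l hl =>
      ((fac_ct hs hl (by omega)).add (fac_ct hs' hl (by omega))).sign l).sign k
    obtain ⟨D, g', k1, k2⟩ := ih (f := fun a => f a + -(-1) ^ k * cb m (fun b => f (ins (k + 1) 1 b)) a)
      (by omega) ((f1.sub f2).congr fun a => by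
        have e : ((-1 : ℂ) ^ k) * (-1) ^ k = 1 := by rw [← mul_pow]; simp
        have e2 := bal_eq_ins_ct (h1 k).2 (by omega) a
        rw [cb_ins (by omega) hc, sum_sub_distrib, h2 a, h2 (ins (k + 1) 1 (ct k a)), sum_range_succ,
          sum_range_succ, e2]
        linear_combination
          -(∑ l ∈ range k, g l (ins (k + 1) 1 (ct k a)) + g k a) * e)
      fun a => by rw [cb_lin, hc, cb_cb hs.dep]; simp
    refine ⟨_, _, k1.add (hs.sign k), fun a => ?_⟩
    rw [cb_lin, ← k2]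
    ring

theorem dk' (h : Fac (m + 1) C f) (hc : ∀ a, cb (m + 1) f a = 0) :
    ∃ D g, Fm m D g ∧ ∀ a, f a = cb m g a := by
  obtain ⟨g, h1, h2⟩ := h
  have hs := (h1 (m + 1)).1.ins (i := m + 1) le_rfl 1
  have e2 : ∀ a, g (m + 1) (ins (m + 1) 1 (wr (m + 1) a)) = g (m + 1) a := fun a => by
    have := (h1 (m + 1)).2 (update a (m + 1) 1) (a (m + 1))
    rw [nx_self] at this
    refine ((h1 (m + 1)).1.dep _ _ fun t ht => ?_).trans (this.symm.trans (congrArg _ ?_))
    · simp only [ins, wr, update_apply]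
      split_ifs <;> first | rfl | omega | contradiction
    · simp
  have f1 : FacLt (m + 1) (m + 1) C fun a => ∑ l ∈ range (m + 1), g l a := ⟨g, h1, fun _ => rfl⟩
  have f2 := (FacLt.sum (range (m + 1)) fun l hl => (fac_ct hs hl le_rfl).sign l).sign (m + 1)
  obtain ⟨D, g', k1, k2⟩ := dk_lt
    (f := fun a => f a + -(-1) ^ (m + 1) * cb m (fun b => g (m + 1) (ins (m + 1) 1 b)) a) (m + 1)
    le_rfl ((f1.sub f2).congr fun a => by
      have e : ((-1 : ℂ) ^ (m + 1)) * (-1) ^ (m + 1) = 1 := by rw [← mul_pow]; simp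
      rw [cb, e2, h2 a, sum_range_succ]
      linear_combination -(g (m + 1) a) * e)
    fun a => by rw [cb_lin, hc, cb_cb hs.dep]; simp
  refine ⟨_, _, k1.add (hs.sign (m + 1)), fun a => ?_⟩
  rw [cb_lin, ← k2]
  ring

end Dk

/-- a facial cocycle is a coboundary -/
theorem dk {A : Type*} [NormedRing A] [NormedAlgebra ℂ A] {m : ℕ} {C : ℝ} {f : (ℕ → A) → ℂ}
    (hc : Coc (m + 1) f) (hf : Fac (m + 1) C f) : ∃ D g, Fm m D g ∧ ∀ a, cb m g a = f a := by
  obtain ⟨D, g, h1, h2⟩ := Dk.dk' hf hc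
  exact ⟨D, g, h1, fun a => (h2 a).symm⟩

end Pool.Agent.Lib.MP_08bba9_an.Co
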