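import Pool.Agent.Lib.MP_08bba9_an.Face
import Pool.Agent.Lib.MP_08bba9_an.Co.Dk

/-! Forms on sequences and bounded multilinear maps. -/

noncomputable section

namespace Pool.Agent.Lib.MP_08bba9_an.Co

open Finset Function

variable {A : Type*} [NormedRing A] [NormedAlgebra ℂ A] {m : ℕ} {C : ℝ} {f : (ℕ → A) → ℂ}

theorem fm_of_multi (φ : Multi A ℂ m) : Fm m ‖φ‖ fun a => φ fun i => a i := by
  refine ⟨norm_nonneg _, fun a b e => congrArg φ (funext fun i => e i (Nat.lt_succ_iff.1 i.2)),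
    fun i hi a => ?_, fun a => ?_⟩
  · have e : ∀ x, (fun t : Fin (m + 1) => update a i x t) =
        update (fun t : Fin (m + 1) => a t) ⟨i, Nat.lt_succ_iff.2 hi⟩ x := fun x => funext fun t => by
      simp only [update_apply, Fin.ext_iff]
    simp only [e]
    exact ⟨fun x y => φ.map_update_add _ _ x y, fun c x => φ.map_update_smul _ _ c x⟩
  · rw [← Fin.prod_univ_eq_prod_range (fun i => ‖a i‖)]
    exact φ.le_opNorm _

omit [NormedAlgebra ℂ A] in
theorem Dk.face_fc (i : Fin (m + 2)) (a : ℕ → A) :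
    face i (fun t : Fin (m + 2) => a t) = fun t : Fin (m + 1) => Dk.fc m i a t := by
  funext t
  refine Fin.lastCases ?_ (fun i => ?_) i
  · rw [face_last, Dk.fc, if_neg (by simp)]
    refine Fin.cases ?_ (fun t => ?_) t <;> simp [wr]
  · rw [face_castSucc, Dk.fc, if_pos (by simpa [Nat.lt_succ_iff] using i.2)]
    simp only [Fin.contractNth, ct, Fin.val_castSucc, Fin.val_succ]
    split_ifs with h1 h2
    · rfl
    · rw [h2]
    · rfl

theorem cb_multi (φ : Multi A ℂ m) (a : ℕ → A) :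
    cb m (fun a => φ fun i => a i) a = cob φ fun i => a i := by
  rw [Dk.cb_fc, cob_apply,
    ← Fin.sum_univ_eq_sum_range fun l => (-1) ^ l * φ fun i => Dk.fc m l a i]
  exact sum_congr rfl fun i _ => by rw [Dk.face_fc]; rfl

theorem Fm.ex_multi (h : Fm m C f) : ∃ φ : Multi A ℂ m, ‖φ‖ ≤ C ∧ ∀ a, f a = φ fun i => a i := by
  have e : ∀ [DecidableEq (Fin (m + 1))] (τ : Fin (m + 1) → A) (i : Fin (m + 1)) (x : A),
      f (ex (update τ i x)) = f (update (ex τ) i x) := fun τ i x => h.dep _ _ fun t ht => by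
    simp only [ex, dif_pos (Nat.lt_succ_iff.2 ht), update_apply, Fin.ext_iff]
  refine ⟨MultilinearMap.mkContinuous
    { toFun := fun τ => f (ex τ)
      map_update_add' := fun τ i x y => by
        rw [e, e, e]; exact (h.lin i (Nat.lt_succ_iff.1 i.2) _).1 x y
      map_update_smul' := fun τ i c x => by
        rw [e, e]; exact (h.lin i (Nat.lt_succ_iff.1 i.2) _).2 c x } C fun τ => ?_,
    MultilinearMap.mkContinuous_norm_le _ h.nn _, fun a => ?_⟩
  · refine (h.bd _).trans (le_of_eq ?_)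
    rw [← Fin.prod_univ_eq_prod_range (fun i => ‖ex τ i‖)]
    exact congrArg _ (prod_congr rfl fun i _ => by rw [ex, dif_pos i.2])
  · exact h.dep _ _ fun t ht => by rw [ex, dif_pos (Nat.lt_succ_iff.2 ht)]

theorem Fm.cb_cb (h : Fm m C f) : Coc (m + 1) (Co.cb m f) := Dk.cb_cb h.dep

/-- multilinear expansion -/
theorem Fm.expand (h : Fm m C f) {ι : Type*} [Fintype ι] (c : ℕ → ι → ℂ) (y : ℕ → ι → A) :
    f (fun t => ∑ i, c t i • y t i) =
      ∑ τ : Fin (m + 1) → ι, (∏ t : Fin (m + 1), c t (τ t)) * f fun t => y t (ex τ t) := by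
  obtain ⟨φ, -, e⟩ := h.ex_multi
  simp only [e]
  rw [φ.map_sum fun (t : Fin (m + 1)) i => c t i • y t i]
  refine sum_congr rfl fun τ _ => ?_
  rw [φ.map_smul_univ, smul_eq_mul]
  congr 2
  funext t
  rw [ex, dif_pos t.2]

theorem hh_multi (H : ∀ C (f : (ℕ → A) → ℂ), Fm (m + 1) C f → Coc (m + 1) f →
      ∃ D g, Fm m D g ∧ ∀ a, cb m g a = f a)
    (φ : Multi A ℂ (m + 1)) (h : cob φ = 0) : ∃ χ : Multi A ℂ m, cob χ = φ := by
  obtain ⟨D, g, h1, h2⟩ := H _ _ (fm_of_multi φ) fun a => by rw [cb_multi, h]; rfl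
  obtain ⟨χ, -, h3⟩ := h1.ex_multi
  refine ⟨χ, ContinuousMultilinearMap.ext fun τ => ?_⟩
  have e : (fun i : Fin (m + 2) => ex τ i) = τ := funext fun i => by rw [ex, dif_pos i.2]
  have := h2 (ex τ)
  rwa [funext h3, cb_multi, e] at this

/-- if all cocycles are facial, they are coboundaries -/
theorem hh_of_fac (H : ∀ C (f : (ℕ → A) → ℂ), Fm (m + 1) C f → Coc (m + 1) f →
      ∃ D, Fac (m + 1) D f) (φ : Multi A ℂ (m + 1)) (h : cob φ = 0) :
    ∃ χ : Multi A ℂ m, cob χ = φ :=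
  hh_multi (fun C f h1 h2 => (H C f h1 h2).elim fun _ h3 => dk h2 h3) φ h

end Pool.Agent.Lib.MP_08bba9_an.Co
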