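import Pool.Agent.Lib.MP_08bba9_an.Co.Seq

/-! Cocycles, homomorphisms, matrix units, test tuples and index patterns. -/

noncomputable section

namespace Pool.Agent.Lib.MP_08bba9_an.Co

open Finset Function

/-- cocycles -/
def Coc {A : Type*} [Mul A] (m : ℕ) (f : (ℕ → A) → ℂ) : Prop := ∀ a, cb m f a = 0

/-- a tuple as a sequence -/
def ex {α : Type*} {m : ℕ} (τ : Fin (m + 1) → α) : ℕ → α := fun t =>
  if h : t < m + 1 then τ ⟨t, h⟩ else τ 0

/-- contractive multiplicative linear maps -/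
structure Hm {A B : Type*} [SeminormedAddCommGroup A] [Module ℂ A] [Mul A]
    [SeminormedAddCommGroup B] [Module ℂ B] [Mul B] (j : A → B) : Prop where
  lin : IsLinearMap ℂ j
  mul : ∀ x y, j (x * y) = j x * j y
  le : ∀ x, ‖j x‖ ≤ ‖x‖

section pull

variable {A B : Type*} [SeminormedAddCommGroup A] [Module ℂ A] [Mul A]
  [SeminormedAddCommGroup B] [Module ℂ B] [Mul B] {j : A → B} {m k : ℕ} {C : ℝ}
  {f : (ℕ → B) → ℂ}

theorem Hm.id : Hm fun x : A => x := ⟨⟨fun _ _ => rfl, fun _ _ => rfl⟩, fun _ _ => rfl, fun _ => le_rfl⟩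

theorem Fm.pull (h : Fm m C f) (hj : Hm j) : Fm m C fun a => f fun t => j (a t) :=
  h.comp (L := fun _ => j) (fun _ => hj.lin) fun _ _ => hj.le

theorem Bal.pull {l : ℕ} (h : Bal m l f) (hj : Hm j) : Bal m l fun a => f fun t => j (a t) := by
  intro a c
  have e : ∀ i x, (fun t => j (update a i x t)) = update (fun t => j (a t)) i (j x) :=
    fun i x => comp_update j a i x
  dsimp only
  rw [e, e, hj.mul, hj.mul]
  exact h (fun t => j (a t)) (j c)

theorem FacLt.pull (h : FacLt m k C f) (hj : Hm j) : FacLt m k C fun a => f fun t => j (a t) := by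
  obtain ⟨g, h1, h2⟩ := h
  exact ⟨fun l a => g l fun t => j (a t), fun l => ⟨(h1 l).1.pull hj, (h1 l).2.pull hj⟩,
    fun a => h2 _⟩

theorem Coc.pull (h : Coc m f) (hj : Hm j) : Coc m fun a => f fun t => j (a t) := by
  intro a
  have e1 : ∀ l, (fun t => j (ct l a t)) = ct l fun t => j (a t) := fun l => funext fun t => by
    unfold ct; split_ifs <;> first | rfl | exact hj.mul _ _
  have e2 : (fun t => j (wr (m + 1) a t)) = wr (m + 1) fun t => j (a t) := funext fun t => by
    unfold wr; split_ifs <;> first | rfl | exact hj.mul _ _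
  have := h fun t => j (a t)
  unfold cb at this ⊢
  simpa only [e1, e2] using this

end pull

/-- the test tuple `(c y, W, W⋆, W, …)`, with `c = 1` for even `m` and `c = W⋆` for odd `m` -/
def tst {B : Type*} [Mul B] [Star B] (m : ℕ) (W y : B) : ℕ → B := fun t =>
  if t = 0 then (if Even m then y else star W * y) else if Odd t then W else star W

/-- the product `x (p + 1) ⋯ x (p + d)` -/
def sg {A : Type*} [Monoid A] (x : ℕ → A) (p : ℕ) : ℕ → A
  | 0 => 1
  | d + 1 => sg x p d * x (p + d + 1)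

/-- the product `x (p + 1) ⋯ x q` -/
def seg {A : Type*} [Monoid A] (x : ℕ → A) (p q : ℕ) : A := sg x p (q - p)

/-- index patterns in which each variable `1, …, m` occurs exactly once -/
structure Adm (m : ℕ) (p q : ℕ → ℕ) : Prop where
  le : ∀ t ≤ m, p t ≤ q t ∧ q t ≤ m
  once : ∀ s, 1 ≤ s → s ≤ m → ∃! t, t ≤ m ∧ p t < s ∧ s ≤ q t

/-- the generic pattern -/
def Gen (m : ℕ) (p q : ℕ → ℕ) : Prop :=
  p 0 = m ∧ q 0 = m ∧ ∀ t, 1 ≤ t → t ≤ m → p t = t - 1 ∧ q t = t

/-- square complex matrices of size `m + 1` -/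
abbrev Mt (m : ℕ) := Matrix (Fin (m + 1)) (Fin (m + 1)) ℂ

/-- index patterns -/
abbrev Ix (m : ℕ) := Fin (m + 1) → Fin (m + 1) × Fin (m + 1)

/-- row indices -/
def ip {m : ℕ} (τ : Ix m) (t : ℕ) : ℕ := (ex τ t).1

/-- column indices -/
def iq {m : ℕ} (τ : Ix m) (t : ℕ) : ℕ := (ex τ t).2

/-- the matrices in the slots of a test tuple -/
def pat (m : ℕ) (V V' : Mt m) (t : ℕ) : Mt m :=
  if t = 0 then (if Even m then 1 else V') else if Odd t then V else V'

/-- the coefficient of an index pattern -/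
def co (m : ℕ) (V V' : Mt m) (τ : Ix m) : ℂ := ∏ t : Fin (m + 1), pat m V V' t (τ t).1 (τ t).2

section units

variable {A B : Type*} [CStarAlgebra A] [CStarAlgebra B]

/-- matrix units over a copy of `A` -/
structure MU (m : ℕ) (E : ℕ → ℕ → B) (j : A →⋆ₙₐ[ℂ] B) : Prop where
  mul : ∀ p ≤ m, ∀ q ≤ m, ∀ r ≤ m, ∀ s ≤ m, E p q * E r s = if q = r then E p s else 0
  st : ∀ p ≤ m, ∀ q ≤ m, star (E p q) = E q p
  sum : ∑ p ∈ range (m + 1), E p p = 1
  one : j 1 = E 0 0

variable (E : ℕ → ℕ → B) (j : A →⋆ₙₐ[ℂ] B)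

/-- the element `x` at the place `(p, q)` -/
def emb (p q : ℕ) (x : A) : B := E p 0 * j x * E 0 q

/-- the matrix `D V D⋆`, with `D` the diagonal matrix of the `d p` -/
def mat (m : ℕ) (d : ℕ → A) (V : Mt m) : B :=
  ∑ p, ∑ q, V p q • emb E j p q (d p * star (d q))

/-- the entries of a test tuple -/
def entD (d : ℕ → A) (y : B) (p q : ℕ → ℕ) : ℕ → B := fun t =>
  if t = 0 then emb E j (p 0) (q 0) (d (p 0) * star (d (q 0))) * y
  else emb E j (p t) (q t) (d (p t) * star (d (q t)))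

/-- the same entries as products of the variables -/
def ent (m : ℕ) (p q : ℕ → ℕ) (x : ℕ → A) : ℕ → B := fun t =>
  if t = 0 then emb E j (p 0) (q 0) (seg x (p 0) (q 0)) * emb E j m 0 (x 0)
  else emb E j (p t) (q t) (seg x (p t) (q t))

theorem hm_star : Hm j :=
  ⟨⟨map_add j, fun c x => map_smul j c x⟩, map_mul j, NonUnitalStarAlgHom.norm_apply_le j⟩

omit [CStarAlgebra A] in
theorem norm_one_le' : ‖(1 : B)‖ ≤ 1 := by
  nontriviality B
  exact norm_one.le

variable {E j} {m : ℕ}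

theorem MU.norm_le (h : MU m E j) {p q : ℕ} (hp : p ≤ m) (hq : q ≤ m) : ‖E p q‖ ≤ 1 := by
  have e1 : star (E q q) * E q q = E q q := by rw [h.st q hq q hq, h.mul q hq q hq q hq q hq, if_pos rfl]
  have e2 : star (E p q) * E p q = E q q := by rw [h.st p hp q hq, h.mul q hq p hp p hp q hq, if_pos rfl]
  have n1 := CStarRing.norm_star_mul_self (x := E q q)
  have n2 := CStarRing.norm_star_mul_self (x := E p q)
  rw [e1] at n1
  rw [e2] at n2
  nlinarith [norm_nonneg (E q q), norm_nonneg (E p q), sq_nonneg (‖E q q‖ - 1),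
    sq_nonneg (‖E p q‖ - 1)]

theorem MU.norm_emb (h : MU m E j) {p q : ℕ} (hp : p ≤ m) (hq : q ≤ m) (x : A) :
    ‖emb E j p q x‖ ≤ ‖x‖ := by
  refine (norm_mul₃_le).trans ?_
  calc _ ≤ 1 * ‖x‖ * 1 := by
        gcongr
        exacts [h.norm_le hp m.zero_le, (hm_star j).le x, h.norm_le m.zero_le hq]
    _ = _ := by ring

theorem MU.emb_mul (h : MU m E j) {p q r s : ℕ} (hq : q ≤ m) (hr : r ≤ m) (x y : A) :
    emb E j p q x * emb E j r s y = if q = r then emb E j p s (x * y) else 0 := by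
  have : emb E j p q x * emb E j r s y = E p 0 * j x * (E 0 q * E r 0) * j y * E 0 s := by
    simp only [emb, mul_assoc]
  rw [this, h.mul 0 m.zero_le q hq r hr 0 m.zero_le]
  split_ifs
  · rw [← h.one, mul_assoc (E p 0), ← map_mul, mul_one, mul_assoc (E p 0), ← map_mul, emb]
  · simp

theorem MU.star_emb (h : MU m E j) {p q : ℕ} (hp : p ≤ m) (hq : q ≤ m) (x : A) :
    star (emb E j p q x) = emb E j q p (star x) := by
  simp only [emb, star_mul, h.st p hp 0 m.zero_le, h.st 0 m.zero_le q hq, map_star, mul_assoc]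

theorem MU.emb_one (h : MU m E j) {p q : ℕ} (hp : p ≤ m) (hq : q ≤ m) : emb E j p q 1 = E p q := by
  rw [emb, h.one, h.mul p hp 0 m.zero_le 0 m.zero_le 0 m.zero_le, if_pos rfl,
    h.mul p hp 0 m.zero_le 0 m.zero_le q hq, if_pos rfl]

theorem MU.emb_zero (h : MU m E j) (x : A) : emb E j 0 0 x = j x := by
  rw [emb, ← h.one, ← map_mul, ← map_mul, one_mul, mul_one]

theorem emb_lin (p q : ℕ) : IsLinearMap ℂ (emb E j p q) :=
  ⟨fun x y => by simp only [emb, map_add, mul_add, add_mul],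
    fun c x => by simp only [emb, map_smul, mul_smul_comm, smul_mul_assoc]⟩

end units

end Pool.Agent.Lib.MP_08bba9_an.Co
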