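import Pool.Agent.Lib.MP_08bba9_an.Co.Link
import Pool.Agent.Lib.MP_08bba9_an.Co.Defs
import Pool.Agent.Lib.MP_08bba9_an.K.KP
import Pool.Agent.Lib.MP_08bba9_an.W.Part

/-! Orthogonal sums, central partitions of unity, and isometries with orthogonal ranges. -/

noncomputable section

namespace Pool.Agent.Lib.MP_08bba9_an.Co

open Finset Function

namespace Cen

universe u

section sharp

variable {B : Type*} [NormedRing B] [NormedAlgebra ℂ B] {m : ℕ} {C : ℝ} {f : (ℕ → B) → ℂ}

theorem link_one' (hf : Fm m C f) (hc : ∀ b, cb m f b = 0) (hm : 1 ≤ m) {l : ℕ} (hl : l ≤ m)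
    {p q : B} (hp : ‖p‖ ≤ 1) (hq : ‖q‖ ≤ 1) (h1 : ‖(1 : B)‖ ≤ 1) (e : p * q = 1) :
    Fac m C fun y => f y - f (lab id (update 1 (nx m l) q) (update 1 l p) y) := by
  let z : (ℕ → B) → ℕ → B := fun y => ins (l + 1) q (lab id 1 (update 1 l p) y)
  have hz : ∀ y k, z y k = if k < l then y k else if k = l then y l * p else
      if k = l + 1 then q else y (k - 1) := fun y k => by
    simp only [z, ins, lab, update_apply, id, Pi.one_apply, one_mul]
    split_ifs <;> first | omega | (subst_vars; simp)
  have hF : ∀ i ≤ m + 1, Fm m C fun y => f (fc m i (z y)) := fun i hi =>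
    (((hf.fc hi).1.ins (i := l + 1) (by omega) q).labId (s := 1) (r := update 1 l p)
      (fun _ _ => h1) fun t _ => by rw [update_apply]; split_ifs <;> assumption).mono
      (mul_le_of_le_one_right hf.nn hq)
  have hB : ∀ i ≤ m + 1, i ≠ l → i ≠ l + 1 →
      Bal m (if i < l then i else i - 1) fun y => f (fc m i (z y)) := by
    intro i hi i1 i2
    have hb := (hf.fc hi).2
    have hu : ∀ (y : ℕ → B) (j : ℕ) (x : B), j ≠ l →
        z (update y j x) = update (z y) (if j < l then j else j + 1) x := fun y j x hj => by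
      funext k
      simp only [hz, update_apply]
      split_ifs <;> first | rfl | omega
    rcases lt_or_gt_of_ne i1 with i3 | i3
    · rw [if_pos i3]
      intro y c
      have := hb (z y) c
      rw [nx_lt (by omega)] at this ⊢
      dsimp only at this ⊢
      rw [hu _ _ _ i1, if_pos i3, show y i = z y i by rw [hz, if_pos i3], this]
      refine congrArg (fun a => f (fc m i a)) (funext fun k => ?_)
      simp only [hz, update_apply]
      split_ifs <;> first | rfl | omega | (subst_vars; simp [mul_assoc])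
    · rw [if_neg (by omega)]
      intro y c
      have := hb (z y) c
      dsimp only at this ⊢
      rw [hu _ _ _ (by omega), if_neg (by omega), show i - 1 + 1 = i by omega,
        show y (i - 1) = z y i by rw [hz, if_neg (by omega), if_neg i1, if_neg i2], this]
      refine congrArg (fun a => f (fc m i a)) ?_
      by_cases i4 : i = m + 1
      · subst i4
        rw [nx_self, Nat.add_sub_cancel, nx_self]
        funext k
        simp only [hz, update_apply]
        split_ifs <;> first | rfl | omega | (subst_vars; simp [mul_assoc])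
      · rw [nx_lt (by omega), nx_lt (by omega), show i - 1 + 1 = i by omega, hu _ _ _ i1,
          if_neg (by omega), hz, if_neg (by omega), if_neg (by omega), if_neg (by omega)]
        rfl
  have e1 : ∀ y, f (fc m l (z y)) = f y := fun y => by
    rw [fc, if_pos hl]
    refine congrArg f (funext fun k => ?_)
    simp only [ct, hz]
    split_ifs <;> first | rfl | omega | (subst_vars; simp [mul_assoc, e])
  have e2 : ∀ y, f (fc m (l + 1) (z y)) =
      f (lab id (update 1 (nx m l) q) (update 1 l p) y) := fun y => by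
    refine hf.dep _ _ fun k hk => ?_
    simp only [fc, ct, wr, hz, lab, update_apply, nx, id, Pi.one_apply, ite_apply]
    split_ifs <;> first | rfl | omega | (subst_vars; simp [mul_assoc, e])
  have e4 : ∀ (T : ℕ → ℂ) d, ∑ i ∈ range (l + d + 2), T i = T l + T (l + 1) +
      ∑ i ∈ range (l + d + 1), if i < l then T i else if i = l then 0 else T (i + 1) := by
    intro T d
    induction d with
    | zero =>
      rw [sum_range_succ, sum_range_succ, sum_range_succ, if_neg (by omega), if_pos (by omega),
        sum_congr rfl fun i hi => if_pos (by simpa using hi)]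
      simp only [add_zero]
      ring
    | succ d ih =>
      rw [← add_assoc, sum_range_succ, ih, sum_range_succ _ (l + d + 1), if_neg (by omega),
        if_neg (by omega)]
      ring
  refine ⟨fun i y => if i ≤ m then (-1) ^ (l + 1) * (if i < l then (-1) ^ i * f (fc m i (z y)) else
    if i = l then 0 else (-1) ^ (i + 1) * f (fc m (i + 1) (z y))) else 0, fun i => ?_, fun y => ?_⟩
  · by_cases i0 : i ≤ m
    · simp only [if_pos i0]
      by_cases i1 : i < l
      · simp only [if_pos i1]
        refine ⟨((hF i (by omega)).sign _).sign _, (Bal.smul ?_ _).smul _⟩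
        simpa only [if_pos i1] using hB i (by omega) (by omega) (by omega)
      · by_cases i2 : i = l
        · simp only [if_neg i1, if_pos i2, mul_zero]
          exact ⟨Fm.zero hf.nn, fun _ _ => rfl⟩
        · simp only [if_neg i1, if_neg i2]
          refine ⟨((hF _ (by omega)).sign _).sign _, (Bal.smul ?_ _).smul _⟩
          simpa only [if_neg (show ¬i + 1 < l by omega), Nat.add_sub_cancel] using
            hB (i + 1) (by omega) (by omega) (by omega)
    · simp only [if_neg i0]
      exact ⟨Fm.zero hf.nn, fun _ _ => rfl⟩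
  · have := hc (z y)
    obtain ⟨d, hd⟩ := Nat.exists_eq_add_of_le hl
    have e5 := e4 (fun i => (-1) ^ i * f (fc m i (z y))) d
    rw [← hd, ← cb_fc, this, e1, e2] at e5
    rw [sum_congr rfl fun i hi => if_pos (Nat.lt_succ_iff.1 (mem_range.1 hi)), ← mul_sum]
    have e3 : ((-1 : ℂ) ^ l) * (-1) ^ l = 1 := by rw [← mul_pow]; simp
    rw [pow_succ (-1 : ℂ) l] at e5 ⊢
    dsimp only
    generalize f (lab id (update 1 (nx m l) q) (update 1 l p) y) = w at e5 ⊢
    linear_combination (-(-1) ^ l) * e5 - (f y - w) * e3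

theorem link' (hf : Fm m C f) (hc : ∀ b, cb m f b = 0) (hm : 1 ≤ m) (h1 : ‖(1 : B)‖ ≤ 1)
    {s r : ℕ → B} (hs : ∀ t ≤ m, ‖s t‖ ≤ 1) (hr : ∀ t ≤ m, ‖r t‖ ≤ 1)
    (e : ∀ t ≤ m, r t * s (nx m t) = 1) :
    Fac m ((m + 1) * C) fun b => f b - f (lab id s r b) := by
  let S : ℕ → ℕ → B := fun k t => if (if t = 0 then m else t - 1) < k then s t else 1
  let R : ℕ → ℕ → B := fun k t => if t < k then r t else 1
  have key : ∀ k ≤ m + 1, Fac m (k * C) fun b => f b - f (lab id (S k) (R k) b) := by
    intro k hk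
    induction k with
    | zero =>
      refine (FacLt.zero (by simp)).congr fun b => sub_eq_zero.2 (congrArg f (funext fun t => ?_))
      simp [lab, S, R]
    | succ k ih =>
      have h2 := (link_one' hf hc hm (l := k) (by omega) (hr k (by omega))
        (hs _ (nx_le (by omega))) h1 (e k (by omega))).labId hm (s := S k) (r := R k)
        (fun t ht => by simp only [S]; split_ifs <;> first | exact hs t ht | exact h1)
        (fun t ht => by simp only [R]; split_ifs <;> first | exact hr t ht | exact h1)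
        fun t ht => by
          have := e t ht
          simp only [S, R, nx] at this ⊢
          split_ifs at this ⊢ <;> first | exact this | omega | exact one_mul 1 | contradiction
      refine (((ih (by omega)).add h2).mono (le_of_eq (by push_cast; ring))).congr fun b => ?_
      rw [sub_add_sub_cancel]
      refine congrArg _ (hf.dep _ _ fun t ht => ?_)
      simp only [lab, S, R, update_apply, nx, id, Pi.one_apply]
      split_ifs <;> first | rfl | omega | (subst_vars; simp [mul_assoc, e])
  refine ((key _ le_rfl).mono (le_of_eq (by push_cast; ring))).congr fun b => ?_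
  refine congrArg _ (hf.dep _ _ fun t ht => ?_)
  simp only [lab, S, R]
  split_ifs <;> first | rfl | omega

end sharp


/-- a sign -/
def sg1 (b : Bool) : ℂ := if b then 1 else -1

theorem sg1_sq (b : Bool) : sg1 b * sg1 b = 1 := by cases b <;> simp [sg1]

theorem sum_sg1 {ι : Type*} [Fintype ι] [DecidableEq ι] (i j : ι) :
    ∑ s : ι → Bool, sg1 (s i) * sg1 (s j) = if i = j then (Fintype.card (ι → Bool) : ℂ) else 0 := by
  split_ifs with e
  · simp [e, sg1_sq]
  · refine sum_involution (fun s _ => update s i (!s i)) (fun s _ => ?_) (fun s _ _ h => ?_)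
      (fun _ _ => mem_univ _) fun s _ => ?_
    · rw [update_self, update_of_ne (Ne.symm e)]
      cases s i <;> cases s j <;> simp [sg1]
    · simpa using congrFun h i
    · funext k
      by_cases h : k = i
      · subst h; simp
      · simp [h]

theorem ex_signs {B : Type*} [SeminormedAddCommGroup B] [Module ℂ B] (ι : Type u) [Fintype ι]
    {m k : ℕ} (hk : k ≤ m) : ∃ (Ω : Type u) (_ : Fintype Ω) (_ : Nonempty Ω) (σ : Ω → ℕ → ι → ℂ),
      (∀ ω t i, σ ω t i * σ ω t i = 1) ∧ (∀ ω i, ∏ t ∈ range (k + 1), σ ω t i = 1) ∧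
      ∀ (C : ℝ) (f : (ℕ → B) → ℂ), Fm m C f → ∀ (x : ι → ℕ → B) (y : ℕ → B),
        ∑ i, f (fun t => if t ≤ k then x i t else y t) = (Fintype.card Ω : ℂ)⁻¹ *
          ∑ ω, f fun t => if t ≤ k then ∑ i, σ ω t i • x i t else y t := by
  classical
  induction k with
  | zero =>
    refine ⟨PUnit, inferInstance, inferInstance, fun _ _ _ => 1, by simp, by simp,
      fun C f hf x y => ?_⟩
    have e : ∀ v : ℕ → B, (fun t => if t ≤ 0 then v t else y t) = update y 0 (v 0) := fun v =>
      funext fun t => by by_cases h : t = 0 <;> simp [h]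
    simp only [e, one_smul, hf.map_sum m.zero_le]
    simp
  | succ k ih =>
    obtain ⟨Ω, _, _, σ, h1, h2, h3⟩ := ih (by omega)
    refine ⟨(ι → Bool) × Ω, inferInstance, inferInstance, fun w t i =>
      if t = 0 then σ w.2 0 i * sg1 (w.1 i) else if t = k + 1 then sg1 (w.1 i) else σ w.2 t i,
      fun w t i => ?_, fun w i => ?_, fun C f hf x y => ?_⟩
    · dsimp only
      split_ifs
      · linear_combination (sg1 (w.1 i) * sg1 (w.1 i)) * h1 w.2 0 i + sg1_sq (w.1 i)
      · exact sg1_sq _
      · exact h1 _ _ _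
    · have := h2 w.2 i
      rw [prod_range_succ'] at this
      rw [prod_range_succ, prod_range_succ', prod_congr rfl (g := fun t => σ w.2 (t + 1) i)
        fun t ht => by
          dsimp only
          rw [if_neg (by omega), if_neg (by simp at ht; omega)]]
      simp only [if_true, if_neg (Nat.succ_ne_zero k)]
      linear_combination (sg1 (w.1 i) * sg1 (w.1 i)) * this + sg1_sq (w.1 i)
    · let x' : (ι → Bool) → ι → ℕ → B := fun s i => update (x i) 0 (sg1 (s i) • x i 0)
      let y' : (ι → Bool) → ℕ → B := fun s => update y (k + 1) (∑ j, sg1 (s j) • x j (k + 1))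
      have e1 : ∀ s i, f (fun t => if t ≤ k then x' s i t else y' s t) =
          ∑ j, sg1 (s i) * sg1 (s j) *
            f (update (fun t => if t ≤ k + 1 then x i t else y t) (k + 1) (x j (k + 1))) := by
        intro s i
        have e : (fun t => if t ≤ k then x' s i t else y' s t) =
            update (update (fun t => if t ≤ k + 1 then x i t else y t) (k + 1)
              (∑ j, sg1 (s j) • x j (k + 1))) 0 (sg1 (s i) • x i 0) := funext fun t => by
          simp only [x', y', update_apply]
          split_ifs <;> first | rfl | omega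
        have e' : ∀ v, update (update (fun t => if t ≤ k + 1 then x i t else y t) (k + 1) v) 0
            (x i 0) = update (fun t => if t ≤ k + 1 then x i t else y t) (k + 1) v := fun v =>
          funext fun t => by
            simp only [update_apply]
            split_ifs <;> first | rfl | omega | (subst_vars; rfl)
        rw [e, hf.map_smul m.zero_le, e', hf.map_sum hk, mul_sum]
        exact sum_congr rfl fun j _ => by rw [hf.map_smul hk, mul_assoc]
      have e2 : ∑ s, ∑ i, f (fun t => if t ≤ k then x' s i t else y' s t) =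
          (Fintype.card (ι → Bool) : ℂ) * ∑ i, f fun t => if t ≤ k + 1 then x i t else y t := by
        rw [sum_comm, mul_sum]
        refine sum_congr rfl fun i _ => ?_
        simp only [e1]
        rw [sum_comm]
        simp only [← sum_mul, sum_sg1, ite_mul, zero_mul, sum_ite_eq, mem_univ, if_true]
        refine congrArg _ (congrArg f (funext fun t => ?_))
        simp only [update_apply]
        split_ifs <;> first | rfl | omega | (subst_vars; rfl)
      have c1 : (Fintype.card (ι → Bool) : ℂ) ≠ 0 := by simp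
      rw [← inv_mul_eq_iff_eq_mul₀ c1] at e2
      rw [← e2, Fintype.sum_prod_type, Fintype.card_prod, Nat.cast_mul, mul_inv, mul_assoc,
        mul_sum (a := (Fintype.card Ω : ℂ)⁻¹)]
      refine congrArg _ (sum_congr rfl fun s _ => (h3 C f hf _ _).trans
        (congrArg _ (sum_congr rfl fun ω _ => congrArg f (funext fun t => ?_))))
      simp only [x', y', update_apply]
      split_ifs <;> first | rfl | omega | (subst_vars; simp [mul_smul])

variable {B : Type*} [CStarAlgebra B] {m : ℕ} {C : ℝ} {f : (ℕ → B) → ℂ}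

theorem norm_orth {ι : Type*} [Fintype ι] {y : ι → B} {M : ℝ} (hM : 0 ≤ M) (hy : ∀ i, ‖y i‖ ≤ M)
    (h1 : ∀ i j, i ≠ j → star (y i) * y j = 0) (h2 : ∀ i j, i ≠ j → y i * star (y j) = 0) :
    ‖∑ i, y i‖ ≤ M := by
  have e : star (∑ i, y i) * ∑ i, y i = ∑ i, star (y i) * y i := by
    rw [star_sum, sum_mul_sum]
    exact sum_congr rfl fun i _ => sum_eq_single i (fun j _ e => h1 i j e.symm) (by simp)
  have h := IsSelfAdjoint.nnnorm_sum_eq_sup (f := fun i => star (y i) * y i) univ
    (fun i _ => IsSelfAdjoint.star_mul_self _) fun i j e => by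
      change star (y i) * y i * (star (y j) * y j) = 0
      rw [mul_assoc, ← mul_assoc (y i), h2 i j e, zero_mul, mul_zero]
  have h3 : ‖∑ i, star (y i) * y i‖₊ ≤ ⟨M * M, by positivity⟩ := h ▸ Finset.sup_le fun i _ => by
    change ‖star (y i) * y i‖ ≤ M * M
    rw [CStarRing.norm_star_mul_self]
    exact mul_self_le_mul_self (norm_nonneg _) (hy i)
  rw [← e] at h3
  refine (mul_self_le_mul_self_iff (norm_nonneg _) hM).2 ?_
  rw [← CStarRing.norm_star_mul_self]
  exact h3

theorem norm_of_sq {c : ℂ} (h : c * c = 1) : ‖c‖ = 1 := by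
  have := congrArg norm h
  rw [norm_mul, norm_one] at this
  nlinarith [norm_nonneg c]

/-- (O): a form on orthogonal tuples -/
theorem orth_le (hf : Fm m C f) {ι : Type*} [Fintype ι] (x : ι → ℕ → B) {M : ℕ → ℝ}
    (hM : ∀ t, 0 ≤ M t) (hx : ∀ i t, t ≤ m → ‖x i t‖ ≤ M t)
    (h1 : ∀ t i j, i ≠ j → star (x i t) * x j t = 0)
    (h2 : ∀ t i j, i ≠ j → x i t * star (x j t) = 0) :
    ‖∑ i, f (x i)‖ ≤ C * ∏ t ∈ range (m + 1), M t := by
  obtain ⟨Ω, _, _, σ, k1, -, k3⟩ := ex_signs (B := B) ι (le_refl m)
  rw [sum_congr rfl fun i _ => hf.dep _ (fun t => if t ≤ m then x i t else 0) fun t ht => by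
    rw [if_pos ht], k3 C f hf x fun _ => 0, norm_mul, norm_inv, Complex.norm_natCast,
    inv_mul_le_iff₀ (by simp [Fintype.card_pos])]
  refine (norm_sum_le _ _).trans ((sum_le_sum fun ω _ => hf.bd' (M := M) fun t ht => ?_).trans
    (by simp))
  rw [if_pos ht]
  refine norm_orth (hM t) (fun i => ?_) (fun i j e => ?_) fun i j e => ?_
  · rw [norm_smul, norm_of_sq (k1 ω t i), one_mul]
    exact hx i t ht
  · simp [h1 t i j e]
  · simp [h2 t i j e]

/-- the cut of a form by an element -/
def cut (f : (ℕ → B) → ℂ) (z : B) : (ℕ → B) → ℂ := fun b => f fun t => z * b t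

theorem hm_cut {z : B} (hz : IsStarProjection z) (hc : ∀ x, z * x = x * z) : Hm fun x => z * x :=
  ⟨⟨mul_add z, fun c x => mul_smul_comm c z x⟩, fun x y => by
      rw [mul_assoc, ← mul_assoc x, ← hc x, mul_assoc z x, ← mul_assoc z z,
        hz.isIdempotentElem.eq],
    fun x => (norm_mul_le _ _).trans (mul_le_of_le_one_left (norm_nonneg _) hz.norm_le)⟩

theorem cut_cut {z : B} (hz : IsStarProjection z) (b : ℕ → B) :
    cut f z (fun t => z * b t) = cut f z b := by
  simp only [cut, ← mul_assoc, hz.isIdempotentElem.eq]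

theorem fm_cut (hf : Fm m C f) {z : B} (hz : IsStarProjection z) (hc : ∀ x, z * x = x * z) :
    Fm m C (cut f z) := hf.pull (hm_cut hz hc)

theorem coc_cut (hf : Coc m f) {z : B} (hz : IsStarProjection z) (hc : ∀ x, z * x = x * z) :
    Coc m (cut f z) := hf.pull (hm_cut hz hc)

theorem central_fac (hf : Fm m C f) (hc : Coc m f) (hm : 1 ≤ m) {ι : Type*} [Fintype ι]
    {c : ι → B} (h : W.IsPart c) :
    Fac m ((m + 1) * C) fun b => f b - ∑ j, cut f (c j) b := by
  obtain ⟨Ω, _, _, σ, k1, k2, k3⟩ := ex_signs (B := B) ι (le_refl m)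
  let V : (ι → ℂ) → B := fun a => ∑ i, a i • c i
  have V1 : ∀ a a', V a * V a' = V fun i => a i * a' i := fun a a' => by
    rw [sum_mul_sum]
    refine sum_congr rfl fun i _ => (sum_eq_single i (fun j _ e => ?_) (by simp)).trans ?_
    · simp [h.orth i j e.symm]
    · simp [(h.proj i).isIdempotentElem.eq, smul_smul, mul_comm]
  have V2 : ∀ a x, V a * x = x * V a := fun a x => by simp [V, sum_mul, mul_sum, h.cen _ x]
  have V3 : V (fun _ => 1) = 1 := by simp [V, h.sum]
  have V4 : ∀ a, (∀ i, a i * a i = 1) → ‖V a‖ ≤ 1 := fun a ha =>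
    norm_orth zero_le_one (fun i => by
      rw [norm_smul, norm_of_sq (ha i), one_mul]; exact (h.proj i).norm_le)
      (fun i j e => by simp [(h.proj i).isSelfAdjoint.star_eq, h.orth i j e])
      fun i j e => by simp [(h.proj j).isSelfAdjoint.star_eq, h.orth i j e]
  let P : Ω → ℕ → ι → ℂ := fun ω t i => ∏ l ∈ range t, σ ω l i
  have P1 : ∀ ω t i, P ω t i * P ω t i = 1 := fun ω t i => by
    simp only [P, ← prod_mul_distrib, k1, prod_const_one]
  refine (FacLt.avg fun ω => link' hf hc hm norm_one_le' (s := fun t => V (P ω t))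
    (r := fun t => V (P ω (t + 1))) (fun t _ => V4 _ (P1 ω t)) (fun t _ => V4 _ (P1 ω _))
    fun t _ => ?_).congr fun b => ?_
  · rw [V1, ← V3, nx]
    split_ifs with e
    · exact congrArg V (funext fun i => by simp [P, e, k2])
    · exact congrArg V (funext fun i => P1 ω _ i)
  · have c1 : (Fintype.card Ω : ℂ) ≠ 0 := by simp
    have := k3 C f hf (fun i t => c i * b t) 0
    rw [sum_congr rfl fun i _ => hf.dep _ (fun t => c i * b t) fun t ht => by rw [if_pos ht]] at this
    rw [sum_sub_distrib, mul_sub, sum_const, card_univ, nsmul_eq_mul, ← mul_assoc,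
      inv_mul_cancel₀ c1, one_mul]
    refine congrArg _ (this.trans (congrArg _ (sum_congr rfl fun ω _ => hf.dep _ _ fun t ht => ?_)))
    rw [if_pos ht, lab, id, mul_assoc, ← V2, ← mul_assoc, V1, sum_mul]
    refine sum_congr rfl fun i _ => ?_
    dsimp only
    rw [smul_mul_assoc, show P ω (t + 1) i = P ω t i * σ ω t i from prod_range_succ _ _,
      ← mul_assoc, P1, one_mul]

theorem of_ball (hf : Fm m C f) {D : ℝ} (hD : 0 ≤ D)
    (h : ∀ b, (∀ t ≤ m, ‖b t‖ ≤ 1) → ‖f b‖ ≤ D) : Fm m D f := by
  refine ⟨hD, hf.dep, hf.lin, fun b => ?_⟩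
  have key : ∀ k ≤ m + 1, ∀ b : ℕ → B, (∀ t ≤ m, k ≤ t → ‖b t‖ ≤ 1) →
      ‖f b‖ ≤ D * ∏ t ∈ range k, ‖b t‖ := by
    intro k hk
    induction k with
    | zero => exact fun b hb => by simpa using h b fun t ht => hb t ht t.zero_le
    | succ k ih =>
      intro b hb
      by_cases e : b k = 0
      · rw [hf.map_zero (by omega) e, norm_zero]
        positivity
      have n0 : 0 < ‖b k‖ := norm_pos_iff.2 e
      have := ih (by omega) (update b k (((‖b k‖ : ℂ))⁻¹ • b k)) fun t ht h' => by
        rw [update_apply]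
        split_ifs with e'
        · simp [norm_smul, n0.ne']
        · exact hb t ht (by omega)
      rw [hf.map_smul (by omega), update_eq_self, norm_mul, norm_inv, Complex.norm_real, norm_norm,
        inv_mul_le_iff₀ n0, prod_congr rfl (g := fun t => ‖b t‖) fun t ht => by
          rw [update_of_ne (mem_range.1 ht).ne]] at this
      rw [prod_range_succ]
      linarith
  exact key _ le_rfl b fun t ht h' => by omega

theorem central_norm (hf : Fm m C f) {ι : Type*} [Fintype ι] {c : ι → B} (h : W.IsPart c) :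
    ∃ D : ι → ℝ, (∀ j, Fm m (D j) (cut f (c j))) ∧ ∑ j, D j ≤ C := by
  let T : ι → Set ℝ := fun j => {r | ∃ b, (∀ t ≤ m, ‖b t‖ ≤ 1) ∧ ‖cut f (c j) b‖ = r}
  have hF := fun j => fm_cut hf (h.proj j) (h.cen j)
  have T1 : ∀ j, (T j).Nonempty := fun j => ⟨_, 0, by simp, rfl⟩
  have T2 : ∀ j, BddAbove (T j) := fun j => ⟨C, by
    rintro _ ⟨b, hb, rfl⟩
    simpa using (hF j).bd' (M := fun _ => 1) hb⟩
  refine ⟨fun j => sSup (T j), fun j => of_ball (hF j)
    ((norm_nonneg _).trans (le_csSup (T2 j) ⟨0, by simp, rfl⟩))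
    fun b hb => le_csSup (T2 j) ⟨b, hb, rfl⟩, le_of_forall_pos_le_add fun ε hε => ?_⟩
  have c0 : (0 : ℝ) < Fintype.card ι + 1 := by positivity
  have : ∀ j, ∃ b, (∀ t ≤ m, ‖b t‖ ≤ 1) ∧
      ((sSup (T j) - ε / (Fintype.card ι + 1) : ℝ) ≤ (cut f (c j) b).re) := fun j => by
    obtain ⟨_, ⟨b, hb, rfl⟩, hr⟩ := exists_lt_of_lt_csSup (T1 j)
      (sub_lt_self (sSup (T j)) (div_pos hε c0))
    obtain ⟨u, hu, e⟩ := Complex.exists_norm_eq_mul_self (cut f (c j) b)
    refine ⟨update b 0 (u • b 0), fun t ht => ?_, ?_⟩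
    · rw [update_apply]
      split_ifs
      · rw [norm_smul, hu, one_mul]
        exact hb 0 m.zero_le
      · exact hb t ht
    · rw [(hF j).map_smul m.zero_le, update_eq_self, ← e, Complex.ofReal_re]
      exact hr.le
  choose b hb hb' using this
  have h1 := orth_le hf (fun j t => c j * b j t) (M := fun _ => 1) (fun _ => zero_le_one)
    (fun j t ht => ((hm_cut (h.proj j) (h.cen j)).le _).trans (hb j t ht))
    (fun t i j e => by
      rw [star_mul, (h.proj i).isSelfAdjoint.star_eq, mul_assoc, ← mul_assoc (c i), h.orth i j e,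
        zero_mul, mul_zero])
    fun t i j e => by
      rw [star_mul, (h.proj j).isSelfAdjoint.star_eq, h.cen i, mul_assoc, ← h.cen j,
        ← mul_assoc (c i), h.orth i j e, zero_mul, mul_zero]
  have h2 := (Complex.re_le_norm _).trans h1
  have h3 := sum_le_sum (s := univ) fun j _ => hb' j
  rw [Complex.re_sum] at h2
  rw [sum_sub_distrib, sum_const, card_univ, nsmul_eq_mul] at h3
  have h4 : (Fintype.card ι : ℝ) * (ε / (Fintype.card ι + 1)) ≤ ε := by
    rw [← mul_div_assoc, div_le_iff₀ c0]
    linarith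
  simp only [prod_const_one, mul_one] at h2
  exact (sub_le_iff_le_add.1 (h3.trans h2)).trans (by linarith)

theorem isom (hf : Fm m C f) (hc : Coc m f) (hm : 1 ≤ m) {z : B} (hz : IsStarProjection z)
    (hz' : ∀ x, z * x = x * z) (hfz : ∀ b, f (fun t => z * b t) = f b) (h : K.PInf z) {ε : ℝ}
    (hε : 0 < ε) :
    ∃ g, Fac m ((m + 1) * C) g ∧ Fm m (ε * C) fun b => f b - g b := by
  obtain ⟨v, v1, v2⟩ := h
  obtain ⟨N, hN⟩ := exists_nat_one_div_lt hε
  have zz := hz.isIdempotentElem.eq
  have v3 : ∀ i, z * v i = v i := fun i => by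
    have : star ((1 - z) * v i) * ((1 - z) * v i) = 0 := by
      rw [star_mul, hz.one_sub.isSelfAdjoint.star_eq, mul_assoc, ← mul_assoc (1 - z),
        hz.one_sub.isIdempotentElem.eq, sub_mul, one_mul, mul_sub, hz', ← mul_assoc, v1, zz, sub_self]
    rw [CStarRing.star_mul_self_eq_zero_iff, sub_mul, one_mul, sub_eq_zero] at this
    exact this.symm
  have v4 : ∀ i, star (v i) * z = star (v i) := fun i => by
    simpa [hz.isSelfAdjoint.star_eq] using congrArg star (v3 i)
  have v5 : ∀ i, star (v i + (1 - z)) * (v i + (1 - z)) = 1 := fun i => by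
    rw [star_add, hz.one_sub.isSelfAdjoint.star_eq, add_mul, mul_add, mul_add, v1,
      hz.one_sub.isIdempotentElem.eq, mul_sub, sub_mul, v3, v4]
    simp
  have v6 : ∀ i, ‖v i + (1 - z)‖ ≤ 1 := fun i => by
    have := CStarRing.norm_star_mul_self (x := v i + (1 - z))
    rw [v5] at this
    nlinarith [norm_one_le' (B := B), norm_nonneg (v i + (1 - z))]
  have v7 : ∀ i, ‖v i‖ ≤ 1 := fun i => by
    have := CStarRing.norm_star_mul_self (x := v i)
    rw [v1] at this
    nlinarith [hz.norm_le, norm_nonneg (v i)]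
  have c1 : (Fintype.card (Fin (N + 1)) : ℂ) ≠ 0 := Nat.cast_ne_zero.2 Fintype.card_ne_zero
  refine ⟨_, FacLt.avg fun i : Fin (N + 1) => link' hf hc hm norm_one_le'
    (s := fun _ => v i + (1 - z)) (r := fun _ => star (v i + (1 - z))) (fun _ _ => v6 i)
    (fun _ _ => by rw [norm_star]; exact v6 i) fun _ _ => v5 i, ?_⟩
  have e : ∀ b, f b - (Fintype.card (Fin (N + 1)) : ℂ)⁻¹ * ∑ i : Fin (N + 1),
      (f b - f (lab id (fun _ => v i + (1 - z)) (fun _ => star (v i + (1 - z))) b)) =
      (Fintype.card (Fin (N + 1)) : ℂ)⁻¹ *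
        ∑ i : Fin (N + 1), f (lab id (fun _ => v i) (fun _ => star (v i)) b) := fun b => by
    rw [sum_sub_distrib, mul_sub, sum_const, card_univ, nsmul_eq_mul, ← mul_assoc,
      inv_mul_cancel₀ c1, one_mul, sub_sub_cancel]
    refine congrArg _ (sum_congr rfl fun i _ => (hfz _).symm.trans (congrArg f (funext fun t => ?_)))
    have a1 : z * (v i + (1 - z)) = v i := by rw [mul_add, v3, mul_sub, zz]; simp
    have a2 : star (v i + (1 - z)) * z = star (v i) := by
      simpa [hz.isSelfAdjoint.star_eq] using congrArg star a1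
    simp only [lab, id]
    rw [← a2, ← mul_assoc _ _ z, ← hz' (_ * _), ← mul_assoc, ← mul_assoc, a1, ← mul_assoc,
      ← mul_assoc, v3]
  simp only [e]
  have hF := (Fm.sum univ fun (i : Fin (N + 1)) _ => hf.labId (s := fun _ => v i)
    (r := fun _ => star (v i)) (fun _ _ => v7 i) fun _ _ => by rw [norm_star]; exact v7 i).smul
    (Fintype.card (Fin (N + 1)) : ℂ)⁻¹
  refine of_ball hF (mul_nonneg hε.le hf.nn) fun b hb => ?_
  have h1 := orth_le hf (fun i : Fin (N + 1) => lab id (fun _ => v i) (fun _ => star (v i)) b)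
    (M := fun _ => 1) (fun _ => zero_le_one)
    (fun i t ht => norm_mul₃_le.trans (by
      rw [norm_star]
      exact mul_le_one₀ (mul_le_one₀ (v7 i) (norm_nonneg _) (hb t ht)) (norm_nonneg _) (v7 i)))
    (fun t i j e => by
      simp only [lab, star_mul, mul_assoc]
      rw [← mul_assoc (star (v i)), v2 i j fun e' => e (Fin.ext e')]
      simp)
    fun t i j e => by
      simp only [lab, star_mul, mul_assoc, star_star]
      rw [← mul_assoc (star (v i)), v2 i j fun e' => e (Fin.ext e')]
      simp
  rw [norm_mul, norm_inv, Complex.norm_natCast, Fintype.card_fin, Nat.cast_succ, ← one_div]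
  simp only [prod_const_one, mul_one] at h1
  exact mul_le_mul hN.le h1 (norm_nonneg _) hε.le

end Cen

variable {B : Type*} [CStarAlgebra B] {m : ℕ} {C : ℝ} {Φ : (ℕ → B) → ℂ}

theorem hm_cen {z : B} (hz : IsStarProjection z) (hc : ∀ x, z * x = x * z) :
    Hm fun x : B => z * x := Cen.hm_cut hz hc

theorem central_fac (hm : 1 ≤ m) (h : Fm m C Φ) (hc : Coc m Φ) {ι : Type*} [Fintype ι]
    {z : ι → B} (hz : W.IsPart z) :
    Fac m ((m + 1) * C) fun a => Φ a - ∑ i, Φ fun t => z i * a t := Cen.central_fac h hc hm hz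

theorem central_norm (h : Fm m C Φ) {ι : Type*} [Fintype ι] {z : ι → B} (hz : W.IsPart z) :
    ∃ D : ι → ℝ, (∀ i, Fm m (D i) fun a => Φ fun t => z i * a t) ∧ ∑ i, D i ≤ C :=
  Cen.central_norm h hz

theorem isom (hm : 1 ≤ m) (h : Fm m C Φ) (hc : Coc m Φ) {z : B} (hz : IsStarProjection z)
    (hcen : ∀ x, z * x = x * z) (hp : K.PInf z) {ε : ℝ} (hε : 0 < ε) :
    ∃ g, Fac m ((m + 1) * C) g ∧ Fm m (C * ε) fun a => Φ (fun t => z * a t) - g a :=
  mul_comm ε C ▸ Cen.isom (Cen.fm_cut h hz hcen) (Cen.coc_cut hc hz hcen) hm hz hcen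
    (Cen.cut_cut hz) hp hε

end Pool.Agent.Lib.MP_08bba9_an.Co
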