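import Pool.Agent.Lib.MP_08bba9_an.Co.Defs

/-! Continuation from unitary to invertible matrices and extraction of the multilinear part. -/

noncomputable section

namespace Pool.Agent.Lib.MP_08bba9_an.Co

open Finset Function NormedSpace Filter Topology

variable {m : ℕ}

/-- the span of the coefficient vectors of unitary matrices -/
def coSp (m : ℕ) : Submodule ℂ (Ix m → ℂ) :=
  Submodule.span ℂ {c | ∃ V ∈ unitary (Mt m), c = co m V (star V)}

namespace Ct

theorem entire_zero {F : ℂ → ℂ} (hF : Differentiable ℂ F) (h : ∀ t : ℝ, F t = 0) (z : ℂ) :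
    F z = 0 := by
  have ha : AnalyticOnNhd ℂ F Set.univ := fun z _ => hF.analyticAt z
  have hs : Tendsto (fun n : ℕ => (((1 / ((n : ℝ) + 1) : ℝ)) : ℂ)) atTop (𝓝[≠] 0) := by
    refine tendsto_nhdsWithin_iff.2 ⟨?_, Eventually.of_forall fun n => ?_⟩
    · have := (Complex.continuous_ofReal.tendsto 0).comp
        (tendsto_one_div_add_atTop_nhds_zero_nat (𝕜 := ℝ))
      simpa [Function.comp_def] using this
    · have : (0 : ℝ) < 1 / ((n : ℝ) + 1) := by positivity
      exact Complex.ofReal_ne_zero.2 this.ne'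
  exact congrFun (ha.eq_of_frequently_eq (g := fun _ => 0) analyticOnNhd_const
    (hs.frequently (Frequently.of_forall fun n => h _))) z

set_option backward.isDefEq.respectTransparency false in
theorem diff_exp (P Q A B : Mt m) (p q : Fin (m + 1)) :
    Differentiable ℂ fun t : ℂ => (P * exp (A + t • B) * Q) p q := by
  open scoped Matrix.Norms.Operator in
  have hE : Differentiable ℂ fun t : ℂ => exp (A + t • B) := fun t =>
    (exp_analytic (𝕂 := ℂ) _).differentiableAt.comp t
      ((differentiableAt_const A).add (differentiableAt_id.smul_const B))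
  let L : Mt m →ₗ[ℂ] ℂ :=
    { toFun := fun X => (P * X * Q) p q
      map_add' := fun X Y => by simp [mul_add, add_mul]
      map_smul' := fun c X => by simp }
  open scoped Matrix.Norms.Operator in
  exact (LinearMap.toContinuousLinearMap L).differentiable.comp hE

theorem diff_co {G G' : ℂ → Mt m} (h : ∀ p q, Differentiable ℂ fun t => G t p q)
    (h' : ∀ p q, Differentiable ℂ fun t => G' t p q) :
    Differentiable ℂ fun t => co m (G t) (G' t) := by
  refine differentiable_pi.2 fun τ => ?_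
  unfold co
  refine Differentiable.fun_finset_prod fun s _ => ?_
  unfold pat
  split_ifs
  exacts [differentiable_const _, h' _ _, h _ _, h' _ _]

/-- the class that is stable under right multiplication -/
def Kl (m : ℕ) (V V' : Mt m) : Prop :=
  ∀ U ∈ unitary (Mt m), co m (V * U) (star U * V') ∈ coSp m

theorem exp_unitary {X : Mt m} (h : star X = -X) :
    exp X ∈ unitary (Mt m) ∧ star (exp X) = exp (-X) := by
  have e : star (exp X) = exp (-X) := by rw [star_exp, h]
  refine ⟨Unitary.mem_iff.2 ⟨?_, ?_⟩, e⟩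
  · rw [e, ← Matrix.exp_add_of_commute _ _ (Commute.refl X).neg_left, neg_add_cancel, exp_zero]
  · rw [e, ← Matrix.exp_add_of_commute _ _ (Commute.refl X).neg_right, add_neg_cancel, exp_zero]

theorem Kl.mul_exp {V V' : Mt m} (h : Kl m V V') (X : Mt m) :
    Kl m (V * exp X) (exp (-X) * V') := by
  intro U hU
  rw [← Subspace.forall_mem_dualAnnihilator_apply_eq_zero_iff]
  intro l hl
  obtain ⟨A, hA⟩ : ∃ A, A = (2⁻¹ : ℂ) • (X - star X) := ⟨_, rfl⟩
  obtain ⟨B, hB⟩ : ∃ B, B = (-(2⁻¹ * Complex.I) : ℂ) • (X + star X) := ⟨_, rfl⟩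
  have e : A + Complex.I • B = X := by
    rw [hA, hB, smul_smul, show Complex.I * -(2⁻¹ * Complex.I) = 2⁻¹ by
      linear_combination (-2⁻¹ : ℂ) * Complex.I_mul_I, ← smul_add, sub_add_add_cancel, ← two_smul ℂ,
      smul_smul]
    simp
  have hd := (LinearMap.toContinuousLinearMap l).differentiable.comp
    (diff_co (diff_exp V U A B) (diff_exp (star U) V' (-A) (-B)))
  have := entire_zero hd (fun t => by
    have hs : star (A + (t : ℂ) • B) = -(A + (t : ℂ) • B) := by
      rw [hA, hB]
      simp only [star_add, star_smul, star_sub, star_star, star_neg, star_mul', star_inv₀,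
        star_ofNat, Complex.star_def, Complex.conj_I, Complex.conj_ofReal]
      module
    obtain ⟨h1, h2⟩ := exp_unitary hs
    have := (Submodule.mem_dualAnnihilator l).1 hl _ (h _ (mul_mem h1 hU))
    rw [star_mul, h2, ← mul_assoc, neg_add, ← smul_neg] at this
    exact this) Complex.I
  simp only [Function.comp_apply, LinearMap.coe_toContinuousLinearMap'] at this
  rwa [smul_neg, ← neg_add, e, mul_assoc (star U)] at this

theorem exp_sq_zero {X : Mt m} (h : X * X = 0) : exp X = 1 + X := by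
  rw [exp_eq_tsum_rat]
  dsimp only
  rw [tsum_eq_sum (s := range 2) fun n hn => ?_]
  · simp [sum_range_succ]
  · obtain ⟨k, rfl⟩ := Nat.exists_eq_add_of_le (show 2 ≤ n from not_lt.1 (mt mem_range.2 hn))
    rw [pow_add, pow_two, h, zero_mul, smul_zero]

theorem Kl.mul_inv {g : Mt m} (hg : g.det ≠ 0) :
    ∀ V V', Kl m V V' → Kl m (V * g) (g⁻¹ * V') := by
  refine Matrix.diagonal_transvection_induction_of_det_ne_zero
    (fun g => ∀ V V', Kl m V V' → Kl m (V * g) (g⁻¹ * V')) g hg (fun D hD V V' h => ?_)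
    (fun t V V' h => ?_) fun A B _ _ hA hB V V' h => ?_
  · have e : exp (Matrix.diagonal fun i => Complex.log (D i)) = Matrix.diagonal D := by
      rw [Matrix.exp_diagonal]
      congr 1
      funext i
      rw [Pi.coe_exp, ← Complex.exp_eq_exp_ℂ, Complex.exp_log]
      rw [Matrix.det_diagonal, prod_ne_zero_iff] at hD
      exact hD i (mem_univ _)
    have := h.mul_exp (Matrix.diagonal fun i => Complex.log (D i))
    rwa [Matrix.exp_neg, e] at this
  · have e : exp (Matrix.single t.i t.j t.c) = t.toMatrix :=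
      exp_sq_zero (Matrix.single_mul_single_of_ne _ _ _ _ t.hij.symm _)
    have := h.mul_exp (Matrix.single t.i t.j t.c)
    rwa [Matrix.exp_neg, e] at this
  · have := hB _ _ (hA _ _ h)
    rwa [mul_assoc, ← mul_assoc B⁻¹, ← Matrix.mul_inv_rev] at this

/-- continuation from the unitary to the invertible matrices -/
theorem cont1 {V V' : Mt m} (h : V * V' = 1) : co m V V' ∈ coSp m := by
  have h1 : Kl m 1 1 := fun U hU => Submodule.subset_span ⟨U, hU, by rw [one_mul, mul_one]⟩
  have := Kl.mul_inv (Matrix.det_ne_zero_of_right_inverse h) _ _ h1 1 (one_mem _)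
  rwa [one_mul, mul_one, star_one, one_mul, mul_one, Matrix.inv_eq_right_inv h] at this

theorem mul_ind_mem {ι : Type*} [Fintype ι] {W : Submodule ℂ (ι → ℂ)} {w : ι → ℂ}
    (hw : ∀ c ∈ W, (fun i => w i * c i) ∈ W) (a : ℂ) {c : ι → ℂ} (hc : c ∈ W) :
    (fun i => if w i = a then c i else 0) ∈ W := by
  classical
  have h1 : ∀ F : Finset ℂ, (fun i => (∏ b ∈ F, (w i - b)) * c i) ∈ W := fun F => by
    induction F using Finset.induction_on with
    | empty => simpa using hc
    | insert b F hb ih =>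
      have := W.sub_mem (hw _ ih) (W.smul_mem b ih)
      convert this using 1
      funext i
      simp only [prod_insert hb, Pi.sub_apply, Pi.smul_apply, smul_eq_mul]
      ring
  have h2 : ∏ b ∈ (univ.image w).erase a, (a - b) ≠ 0 :=
    prod_ne_zero_iff.2 fun b hb => sub_ne_zero.2 (ne_of_mem_erase hb).symm
  convert W.smul_mem (∏ b ∈ (univ.image w).erase a, (a - b))⁻¹ (h1 ((univ.image w).erase a))
    using 1
  funext i
  simp only [Pi.smul_apply, smul_eq_mul]
  split_ifs with e
  · rw [e, ← mul_assoc, inv_mul_cancel₀ h2, one_mul]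
  · rw [prod_eq_zero (mem_erase.2 ⟨e, mem_image_of_mem w (mem_univ i)⟩) (sub_self _), zero_mul,
      mul_zero]

/-- the weight of the variable `s` -/
def mu (s p : ℕ) : ℂ := if s ≤ p then 2 else 1

theorem mu_ne (s p : ℕ) : mu s p ≠ 0 := by unfold mu; split_ifs <;> norm_num

/-- the weight of a pattern -/
def wt (s : ℕ) (τ : Ix m) : ℂ := ∏ t, mu s (τ t).2 * (mu s (τ t).1)⁻¹

/-- the span over the invertible matrices -/
def GSp (m : ℕ) : Submodule ℂ (Ix m → ℂ) :=
  Submodule.span ℂ {c | ∃ V V' : Mt m, V * V' = 1 ∧ c = co m V V'}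

theorem GSp_le : GSp m ≤ coSp m := Submodule.span_le.2 (by
  rintro _ ⟨V, V', h, rfl⟩
  exact cont1 h)

theorem wt_mem (s : ℕ) : ∀ c ∈ GSp m, (fun τ => wt s τ * c τ) ∈ GSp m := by
  intro c hc
  induction hc using Submodule.span_induction with
  | zero =>
    convert (GSp m).zero_mem using 1
    funext τ
    simp
  | add x y _ _ hx hy =>
    convert (GSp m).add_mem hx hy using 1
    funext τ
    simp [mul_add]
  | smul a x _ hx =>
    convert (GSp m).smul_mem a hx using 1
    funext τ
    simp [mul_left_comm]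
  | mem c hc =>
    obtain ⟨V, V', h, rfl⟩ := hc
    let T : Mt m → Mt m := fun X => Matrix.of fun p q => mu s q * (mu s p)⁻¹ * X p q
    have T1 : T 1 = 1 := by
      ext p q
      by_cases e : p = q
      · subst e; simp [T, mu_ne]
      · simp [T, Matrix.one_apply_ne e]
    refine Submodule.subset_span ⟨T V, T V', ?_, funext fun τ => ?_⟩
    · rw [← T1, ← h]
      ext p q
      simp only [T, Matrix.mul_apply, Matrix.of_apply, mul_sum]
      refine sum_congr rfl fun r _ => ?_
      have := mu_ne s r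
      field_simp
    · have e : ∀ t, pat m (T V) (T V') t = T (pat m V V' t) := fun t => by
        unfold pat; split_ifs <;> first | rfl | exact T1.symm
      simp only [co, wt, e, ← prod_mul_distrib, T, Matrix.of_apply]

theorem wt_eq (s : ℕ) {τ : Ix m} (h : ∀ t, (τ t).1 ≤ (τ t).2) :
    wt s τ = 2 ^ #{t | ((τ t).1 : ℕ) < s ∧ s ≤ (τ t).2} := by
  rw [wt, ← prod_const, prod_filter]
  refine prod_congr rfl fun t _ => ?_
  have : ((τ t).1 : ℕ) ≤ (τ t).2 := h t
  unfold mu
  split_ifs <;> first | omega | norm_num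

theorem ip_val (τ : Ix m) (t : Fin (m + 1)) : ip τ t = (τ t).1 := by simp [ip, ex, t.2]

theorem iq_val (τ : Ix m) (t : Fin (m + 1)) : iq τ t = (τ t).2 := by simp [iq, ex, t.2]

/-- one minus the shift -/
def V0 (m : ℕ) : Mt m := Matrix.of fun p q =>
  (if p = q then 1 else 0) - if (q : ℕ) = p + 1 then 1 else 0

/-- its inverse -/
def V1 (m : ℕ) : Mt m := Matrix.of fun p q => if p ≤ q then 1 else 0

theorem V0_mul : V0 m * V1 m = 1 := by
  ext p q
  simp only [V0, V1, Matrix.mul_apply, Matrix.of_apply, sub_mul, sum_sub_distrib, ite_mul, one_mul,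
    zero_mul, sum_ite_eq, mem_univ, if_true, Matrix.one_apply]
  by_cases hp : (p : ℕ) < m
  · rw [sum_eq_single (⟨p + 1, by omega⟩ : Fin (m + 1)) (fun r _ hr => if_neg fun e =>
      hr (Fin.ext e)) (by simp), if_pos rfl]
    simp only [Fin.le_def, Fin.ext_iff]
    split_ifs <;> first | omega | norm_num
  · rw [sum_eq_zero fun r _ => if_neg (by omega)]
    simp only [Fin.le_def, Fin.ext_iff]
    split_ifs <;> first | omega | norm_num

theorem pat_tri (t : ℕ) {p q : Fin (m + 1)} (h : pat m (V0 m) (V1 m) t p q ≠ 0) : p ≤ q := by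
  by_contra hlt
  have h1 : p ≠ q := fun e => hlt e.le
  have h2 : (q : ℕ) ≠ p + 1 := by rw [Fin.le_def] at hlt; omega
  refine h ?_
  unfold pat
  split_ifs <;> simp [V0, V1, h1, h2, hlt]

theorem co_gen {τ : Ix m} (h : Gen m (ip τ) (iq τ)) :
    co m (V0 m) (V1 m) τ = ∏ t : Fin (m + 1), if Odd (t : ℕ) then -1 else 1 := by
  refine prod_congr rfl fun t _ => ?_
  obtain ⟨h1, h2, h3⟩ := h
  by_cases ht : (t : ℕ) = 0
  · have e : (τ t).1 = (τ t).2 := Fin.ext (by rw [← ip_val, ← iq_val, ht, h1, h2])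
    rw [e, ht]
    unfold pat
    split_ifs <;> simp_all [V1]
  · obtain ⟨a, b⟩ := h3 t (by omega) (by omega)
    rw [ip_val] at a
    rw [iq_val] at b
    have e1 : (τ t).1 ≠ (τ t).2 := fun e => by rw [e] at a; omega
    have e2 : ((τ t).2 : ℕ) = (τ t).1 + 1 := by omega
    have e3 : (τ t).1 ≤ (τ t).2 := by rw [Fin.le_def]; omega
    unfold pat
    rw [if_neg ht]
    split_ifs <;> simp [V0, V1, e1, e2, e3]

theorem gen_unique {τ τ' : Ix m} (h : Gen m (ip τ) (iq τ)) (h' : Gen m (ip τ') (iq τ')) :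
    τ = τ' := by
  funext t
  obtain ⟨a1, a2, a3⟩ := h
  obtain ⟨b1, b2, b3⟩ := h'
  have e : ip τ t = ip τ' t ∧ iq τ t = iq τ' t := by
    by_cases ht : (t : ℕ) = 0
    · rw [ht]; omega
    · have := a3 t (by omega) (by omega)
      have := b3 t (by omega) (by omega)
      omega
  simp only [ip_val, iq_val] at e
  exact Prod.ext (Fin.ext e.1) (Fin.ext e.2)

theorem exists_gen (m : ℕ) : ∃ τ : Ix m, Gen m (ip τ) (iq τ) := by
  refine ⟨fun t => if (t : ℕ) = 0 then (Fin.last m, Fin.last m) else (⟨t - 1, by omega⟩, t),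
    by simp [ip, ex], by simp [iq, ex], fun t h1 h2 => ?_⟩
  have h3 : t < m + 1 := by omega
  have h4 : t ≠ 0 := by omega
  simp [ip, iq, ex, h3, h4]

end Ct

open Ct

/-- continuation from unitary to invertible matrices -/
theorem co_inv_mem {m : ℕ} (g g' : Mt m) (h : g * g' = 1) : co m g g' ∈ coSp m := cont1 h

theorem scal (m : ℕ) : ∃ c ∈ coSp m, (∀ τ, c τ ≠ 0 → Adm m (ip τ) (iq τ)) ∧
    ∃ τ₀, c τ₀ ≠ 0 ∧ Gen m (ip τ₀) (iq τ₀) ∧ ∀ τ, Gen m (ip τ) (iq τ) → τ = τ₀ := by
  have h1 : ∀ F : Finset ℕ,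
      (fun τ => if ∀ s ∈ F, wt s τ = 2 then co m (V0 m) (V1 m) τ else 0) ∈ GSp m := fun F => by
    induction F using Finset.induction_on with
    | empty =>
      have h0 : co m (V0 m) (V1 m) ∈ GSp m := Submodule.subset_span ⟨V0 m, V1 m, V0_mul, rfl⟩
      convert h0 using 1
      funext τ
      simp
    | insert s F _ ih =>
      convert mul_ind_mem (wt_mem s) 2 ih using 1
      funext τ
      simp only [forall_mem_insert, ite_and]
  obtain ⟨τ, h⟩ := exists_gen m
  refine ⟨_, GSp_le (h1 (Icc 1 m)), fun τ h2 => ?_, τ, ?_, h, fun τ' h' => gen_unique h' h⟩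
  · obtain ⟨h3, h4⟩ := ite_ne_right_iff.1 h2
    have h5 : ∀ t, (τ t).1 ≤ (τ t).2 := fun t =>
      pat_tri t (prod_ne_zero_iff.1 h4 t (mem_univ _))
    refine ⟨fun t ht => ?_, fun s hs1 hs2 => ?_⟩
    · have a := ip_val τ ⟨t, by omega⟩
      have b := iq_val τ ⟨t, by omega⟩
      have c : ((τ ⟨t, by omega⟩).1 : ℕ) ≤ (τ ⟨t, by omega⟩).2 := h5 _
      have d := (τ ⟨t, by omega⟩).2.2
      dsimp only at a b
      omega
    · have h6 := h3 s (mem_Icc.2 ⟨hs1, hs2⟩)
      rw [wt_eq s h5] at h6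
      have h7 : #{t | ((τ t).1 : ℕ) < s ∧ s ≤ (τ t).2} = 1 := by
        refine Nat.pow_right_injective (le_refl 2) ?_
        dsimp only
        rw [pow_one]
        exact_mod_cast h6
      obtain ⟨t, ht⟩ := card_eq_one.1 h7
      have h8 : ∀ u : Fin (m + 1), ip τ u < s ∧ s ≤ iq τ u ↔ u = t := fun u => by
        rw [ip_val, iq_val, ← mem_singleton, ← ht]
        simp
      refine ⟨t, ⟨by omega, (h8 t).2 rfl⟩, fun u hu => ?_⟩
      exact congrArg Fin.val ((h8 ⟨u, by omega⟩).1 hu.2)
  · have hc : co m (V0 m) (V1 m) τ ≠ 0 := by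
      rw [co_gen h]
      exact prod_ne_zero_iff.2 fun t _ => by split_ifs <;> norm_num
    have h5 : ∀ t, (τ t).1 ≤ (τ t).2 := fun t => pat_tri t (prod_ne_zero_iff.1 hc t (mem_univ _))
    refine ite_ne_right_iff.2 ⟨fun s hs => ?_, hc⟩
    obtain ⟨hs1, hs2⟩ := mem_Icc.1 hs
    rw [wt_eq s h5, show ({t | ((τ t).1 : ℕ) < s ∧ s ≤ (τ t).2} : Finset (Fin (m + 1))) =
      {⟨s, by omega⟩} from ?_, card_singleton, pow_one]
    ext t
    simp only [mem_filter, mem_univ, true_and, mem_singleton, Fin.ext_iff, ← ip_val, ← iq_val]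
    obtain ⟨g1, g2, g3⟩ := h
    by_cases ht : (t : ℕ) = 0
    · rw [ht, g1]; omega
    · obtain ⟨a, b⟩ := g3 t (by omega) (by omega)
      omega

end Pool.Agent.Lib.MP_08bba9_an.Co
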