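import Pool.Agent.Lib.MP_08bba9_an.Co.Defs

/-! The entries of a test tuple as multilinear functions of the variables. -/

noncomputable section

namespace Pool.Agent.Lib.MP_08bba9_an.Co

open Finset Function

namespace EntA

section mon

variable {A : Type*} [Monoid A]

theorem sg_congr {x y : ℕ → A} (p d : ℕ) (h : ∀ i, p < i → i ≤ p + d → x i = y i) :
    sg x p d = sg y p d := by
  induction d with
  | zero => rfl
  | succ d ih =>
    rw [sg, sg, ih fun i a b => h i a (by omega), h _ (by omega) (by omega)]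

theorem seg_congr {x y : ℕ → A} {p q : ℕ} (h : ∀ i, p < i → i ≤ q → x i = y i) :
    seg x p q = seg y p q := sg_congr _ _ fun i a b => h i a (by omega)

theorem sg_add (x : ℕ → A) (p d e : ℕ) : sg x p (d + e) = sg x p d * sg x (p + d) e := by
  induction e with
  | zero => rw [add_zero, sg, mul_one]
  | succ e ih => rw [← add_assoc, sg, sg, ih, mul_assoc, add_assoc p d e]

theorem seg_split (x : ℕ → A) {p r q : ℕ} (h1 : p ≤ r) (h2 : r ≤ q) :
    seg x p q = seg x p r * seg x r q := by
  obtain ⟨d, rfl⟩ := Nat.exists_eq_add_of_le h1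
  obtain ⟨e, rfl⟩ := Nat.exists_eq_add_of_le h2
  rw [seg, seg, seg, add_assoc, Nat.add_sub_cancel_left, Nat.add_sub_cancel_left, ← add_assoc,
    Nat.add_sub_cancel_left, sg_add]

theorem seg_succ (x : ℕ → A) (i : ℕ) : seg x i (i + 1) = x (i + 1) := by
  rw [seg, Nat.add_sub_cancel_left, sg, sg, one_mul]

theorem seg_self (x : ℕ → A) (i : ℕ) : seg x i i = 1 := by rw [seg, Nat.sub_self, sg]

theorem seg_mid (x : ℕ → A) {p i q : ℕ} (h1 : p ≤ i) (h2 : i + 1 ≤ q) :
    seg x p q = seg x p i * x (i + 1) * seg x (i + 1) q := by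
  rw [seg_split x (h1.trans i.le_succ) h2, seg_split x h1 i.le_succ, seg_succ]

theorem seg_update (x : ℕ → A) {p i q : ℕ} (h1 : p ≤ i) (h2 : i + 1 ≤ q) (y : A) :
    seg (update x (i + 1) y) p q = seg x p i * y * seg x (i + 1) q := by
  rw [seg_mid _ h1 h2, update_self,
    seg_congr (y := x) fun k _ _ => update_of_ne (by omega) _ _,
    seg_congr (y := x) (p := i + 1) fun k _ _ => update_of_ne (by omega) _ _]

theorem seg_update_out (x : ℕ → A) {p i q : ℕ} (h : ¬(p < i ∧ i ≤ q)) (y : A) :
    seg (update x i y) p q = seg x p q :=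
  seg_congr fun k a b => update_of_ne (by rintro rfl; exact h ⟨a, b⟩) _ _

end mon

theorem norm_sg {A : Type*} [CStarAlgebra A] (x : ℕ → A) (p d : ℕ) :
    ‖sg x p d‖ ≤ ∏ s ∈ Ioc p (p + d), ‖x s‖ := by
  induction d with
  | zero => simpa [sg] using norm_one_le'
  | succ d ih =>
    rw [sg, ← add_assoc, prod_Ioc_succ_top (by omega)]
    exact (norm_mul_le _ _).trans (mul_le_mul_of_nonneg_right ih (norm_nonneg _))

theorem norm_seg {A : Type*} [CStarAlgebra A] (x : ℕ → A) {p q : ℕ} (h : p ≤ q) :
    ‖seg x p q‖ ≤ ∏ s ∈ Ioc p q, ‖x s‖ := by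
  have := norm_sg x p (q - p)
  rwa [Nat.add_sub_cancel' h] at this

variable {m : ℕ} {p q : ℕ → ℕ}

theorem uniq (ha : Adm m p q) {s t t' : ℕ} (ht : t ≤ m) (ht' : t' ≤ m) (h : p t < s ∧ s ≤ q t)
    (h' : p t' < s ∧ s ≤ q t') : t = t' :=
  (ha.once s (by omega) (h.2.trans (ha.le t ht).2)).unique ⟨ht, h⟩ ⟨ht', h'⟩

theorem prod_part (ha : Adm m p q) {M : Type*} [CommMonoid M] (g : ℕ → M) :
    ∏ t ∈ range (m + 1), ∏ s ∈ Ioc (p t) (q t), g s = ∏ s ∈ Ioc 0 m, g s := by
  rw [← prod_biUnion]
  · congr 1
    ext s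
    simp only [mem_biUnion, mem_range, mem_Ioc, Nat.lt_succ_iff]
    constructor
    · rintro ⟨t, ht, a, b⟩
      exact ⟨by omega, b.trans (ha.le t ht).2⟩
    · rintro ⟨a, b⟩
      exact (ha.once s a b).exists
  · intro t ht t' ht' hne
    rw [mem_coe, mem_range, Nat.lt_succ_iff] at ht ht'
    exact disjoint_left.2 fun s a b => hne (uniq ha ht ht' (mem_Ioc.1 a) (mem_Ioc.1 b))

theorem sum_len (ha : Adm m p q) : ∑ t ∈ range (m + 1), (q t - p t) = m := by
  have := prod_part ha (M := Multiplicative ℕ) fun _ => Multiplicative.ofAdd 1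
  have e := congrArg Multiplicative.toAdd this
  simpa [toAdd_prod] using e

end EntA

open EntA

variable {A B : Type*} [CStarAlgebra A] [CStarAlgebra B] {m : ℕ} {C : ℝ} {Φ : (ℕ → B) → ℂ}
  {E : ℕ → ℕ → B} {j : A →⋆ₙₐ[ℂ] B}

theorem MU.ent_fm (hE : MU m E j) {p q : ℕ → ℕ} (ha : Adm m p q) (h : Fm m C Φ) :
    Fm m C fun x => Φ (ent E j m p q x) := by
  refine ⟨h.nn, fun a b e => h.dep _ _ fun t ht => ?_, fun i hi a => ?_, fun a => ?_⟩
  · have : seg a (p t) (q t) = seg b (p t) (q t) :=
      seg_congr fun i _ hi => e i (hi.trans (ha.le t ht).2)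
    unfold ent
    split_ifs with c
    · subst c
      rw [this, e 0 ht]
    · rw [this]
  · have key : ∃ t ≤ m, ∃ L : A → B, IsLinearMap ℂ L ∧ ∀ y, ∀ k ≤ m,
        ent E j m p q (update a i y) k = update (ent E j m p q a) t (L y) k := by
      rcases i with _ | i
      · refine ⟨0, hi, fun y => emb E j (p 0) (q 0) (seg a (p 0) (q 0)) * emb E j m 0 y,
          ⟨fun x y => by rw [(emb_lin m 0).1, mul_add],
            fun c x => by rw [(emb_lin m 0).2, mul_smul_comm]⟩, fun y k _ => ?_⟩
        rw [update_apply]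
        unfold ent
        split_ifs
        · rw [seg_update_out _ (by omega), update_self]
        · rw [seg_update_out _ (by omega)]
      · obtain ⟨t, ht, h1, h2⟩ := (ha.once (i + 1) (by omega) hi).exists
        have l1 : IsLinearMap ℂ fun y =>
            emb E j (p t) (q t) (seg a (p t) i * y * seg a (i + 1) (q t)) :=
          ⟨fun x y => by rw [mul_add, add_mul, (emb_lin _ _).1],
            fun c x => by rw [mul_smul_comm, smul_mul_assoc, (emb_lin _ _).2]⟩
        refine ⟨t, ht, fun y => emb E j (p t) (q t) (seg a (p t) i * y * seg a (i + 1) (q t)) *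
          if t = 0 then emb E j m 0 (a 0) else 1,
          ⟨fun x y => by rw [l1.1, add_mul], fun c x => by rw [l1.2, smul_mul_assoc]⟩,
          fun y k hk => ?_⟩
        by_cases c : k = t
        · subst c
          rw [update_self]
          unfold ent
          split_ifs with c
          · subst c
            rw [seg_update _ (by omega) h2, update_of_ne (by omega)]
          · rw [seg_update _ (by omega) h2]
            exact (mul_one _).symm
        · rw [update_of_ne c]
          have := seg_update_out a (fun e => c (uniq ha hk ht e ⟨h1, h2⟩)) y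
          unfold ent
          split_ifs with c
          · subst c
            rw [this, update_of_ne (by omega)]
          · rw [this]
    obtain ⟨t, ht, L, hL, e⟩ := key
    have e' : ∀ y, Φ (ent E j m p q (update a i y)) = Φ (update (ent E j m p q a) t (L y)) :=
      fun y => h.dep _ _ (e y)
    simp only [e']
    exact ⟨fun x y => by rw [hL.1, (h.lin t ht _).1], fun c x => by rw [hL.2, (h.lin t ht _).2]⟩
  · refine (h.bd' (M := fun t => (∏ s ∈ Ioc (p t) (q t), ‖a s‖) * if t = 0 then ‖a 0‖ else 1)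
      fun t ht => ?_).trans (le_of_eq ?_)
    · have l := ha.le t ht
      have := (hE.norm_emb (l.1.trans l.2) l.2 (seg a (p t) (q t))).trans (norm_seg a l.1)
      unfold ent
      split_ifs with c
      · subst c
        exact (norm_mul_le _ _).trans (mul_le_mul this (hE.norm_emb le_rfl ht _) (norm_nonneg _)
          ((norm_nonneg _).trans this))
      · rwa [mul_one]
    · rw [prod_mul_distrib, prod_part ha, prod_ite_eq', if_pos (by simp), range_eq_Ico,
        prod_eq_prod_Ico_succ_bot (by omega), mul_comm ‖a 0‖]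
      rfl

/-- zero, or two adjacent variables in one slot, or one variable in each slot -/
theorem MU.ent_cases (hE : MU m E j) {p q : ℕ → ℕ} (ha : Adm m p q) (h : Fm m C Φ) :
    Fac m C (fun x => Φ (ent E j m p q x)) ∨
      (p 0 = m ∧ q 0 = m ∧ ∀ t, 1 ≤ t → t ≤ m → q t = p t + 1) := by
  have l0 := ha.le 0 m.zero_le
  by_cases c1 : q 0 = m
  swap
  · refine Or.inl ((FacLt.zero h.nn).congr fun a => h.map_zero m.zero_le ?_)
    rw [ent, if_pos rfl, hE.emb_mul l0.2 le_rfl, if_neg c1]
  by_cases c2 : p 0 = m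
  swap
  · refine Or.inl (FacLt.of_bal (hE.ent_fm ha h) (l := m) (fun a c => ?_) m.lt_succ_self)
    rw [nx_self]
    refine h.dep _ _ fun t ht => ?_
    obtain ⟨i, rfl⟩ : ∃ i, m = i + 1 := ⟨m - 1, by omega⟩
    unfold ent
    split_ifs with c3
    · rw [hE.emb_mul l0.2 le_rfl, hE.emb_mul l0.2 le_rfl, if_pos c1, if_pos c1, c1,
        seg_update (p := p 0) (i := i) _ (by omega) le_rfl, seg_update_out _ (by omega),
        update_self, update_of_ne (by omega), seg_mid a (p := p 0) (i := i) (by omega) le_rfl,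
        seg_self]
      simp only [mul_assoc, mul_one]
    · rw [seg_update_out _ (fun e => c3 (uniq ha ht (Nat.zero_le _) e (by omega))),
        seg_update_out _ (by omega)]
  by_cases c3 : ∃ t ≤ m, p t + 2 ≤ q t
  · obtain ⟨t, ht, c3⟩ := c3
    have l := ha.le t ht
    refine Or.inl (FacLt.of_bal (hE.ent_fm ha h) (l := p t + 1) (fun a c => ?_) (by omega))
    rw [nx_lt (by omega)]
    refine h.dep _ _ fun k hk => ?_
    have e : seg (update a (p t + 1) (a (p t + 1) * c)) (p k) (q k) =
        seg (update a (p t + 1 + 1) (c * a (p t + 1 + 1))) (p k) (q k) := by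
      by_cases c4 : k = t
      · subst c4
        rw [seg_update _ le_rfl (by omega), seg_update _ (by omega) c3, seg_succ, seg_self,
          seg_mid a (p := p k + 1) le_rfl c3, seg_self]
        simp only [mul_assoc, one_mul]
      · rw [seg_update_out _ (fun e => c4 (uniq ha hk ht e (by omega))),
          seg_update_out _ (fun e => c4 (uniq ha hk ht e (by omega)))]
    unfold ent
    split_ifs with c4
    · subst c4
      rw [e, update_of_ne (by omega), update_of_ne (by omega)]
    · rw [e]
  refine Or.inr ⟨c2, c1, fun t h1 h2 => ?_⟩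
  have s := sum_len ha
  rw [sum_range_succ', c1, c2, Nat.sub_self, add_zero] at s
  have b : ∀ k ∈ range m, q (k + 1) - p (k + 1) ≤ 1 := fun k hk => by
    have : ¬p (k + 1) + 2 ≤ q (k + 1) := fun e => c3 ⟨k + 1, mem_range.1 hk, e⟩
    omega
  have := (sum_eq_sum_iff_of_le b).1 (by simpa using s) (t - 1) (mem_range.2 (by omega))
  rw [Nat.sub_add_cancel h1] at this
  omega

end Pool.Agent.Lib.MP_08bba9_an.Co
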