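import Pool.Agent.Lib.MP_08bba9_an.Co.Lnk
import Pool.Agent.Lib.MP_08bba9_an.Co.EntA

/-! Facial forms and cocycles on the entries of a test tuple. -/

noncomputable section

namespace Pool.Agent.Lib.MP_08bba9_an.Co

open Finset Function

variable {A B : Type*} [CStarAlgebra A] [CStarAlgebra B] {m : ℕ} {C C' : ℝ} {Φ F : (ℕ → B) → ℂ}
  {E : ℕ → ℕ → B} {j : A →⋆ₙₐ[ℂ] B}

/-- row index of the slot `t` when each slot carries one variable -/
def ebL (m : ℕ) (p : ℕ → ℕ) (t : ℕ) : ℕ := if t = 0 then m else p t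

/-- column index of the slot `t` when each slot carries one variable -/
def ebR (q : ℕ → ℕ) (t : ℕ) : ℕ := if t = 0 then 0 else q t

theorem MU.eb_eq (hE : MU m E j) {p q : ℕ → ℕ} (h0 : p 0 = m) (h1 : q 0 = m)
    (h2 : ∀ t, 1 ≤ t → t ≤ m → q t = p t + 1) (x : ℕ → A) {t : ℕ} (ht : t ≤ m) :
    ent E j m p q x t = emb E j (ebL m p t) (ebR q t) (x (ebR q t)) := by
  unfold ent ebL ebR
  split_ifs with e
  · rw [h0, h1, hE.emb_mul le_rfl le_rfl, if_pos rfl, seg, Nat.sub_self, sg, one_mul]
  · rw [h2 t (by omega) ht, seg, Nat.add_sub_cancel_left, sg, sg, one_mul]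

theorem eb_le {p q : ℕ → ℕ} (ha : Adm m p q) {t : ℕ} (ht : t ≤ m) :
    ebL m p t ≤ m ∧ ebR q t ≤ m := by
  have := ha.le t ht
  unfold ebL ebR
  split_ifs <;> omega

theorem eb_nx {p q : ℕ → ℕ} (ha : Adm m p q) (h2 : ∀ t, 1 ≤ t → t ≤ m → q t = p t + 1) {t : ℕ}
    (ht : t ≤ m) : nx m (ebL m p t) = ebR q t := by
  unfold ebL ebR
  split_ifs with e
  · exact nx_self m
  · have h3 := ha.le t ht
    have h4 := h2 t (by omega) ht
    rw [nx_lt (by omega), h4]

theorem eb_inj {p q : ℕ → ℕ} (ha : Adm m p q) (h2 : ∀ t, 1 ≤ t → t ≤ m → q t = p t + 1)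
    {t t' : ℕ} (ht : t ≤ m) (ht' : t' ≤ m) (e : ebR q t = ebR q t') : t = t' := by
  unfold ebR at e
  split_ifs at e with e1 e2 e2
  · omega
  · have := h2 t' (by omega) ht'
    omega
  · have := h2 t (by omega) ht
    omega
  · have a1 := h2 t (by omega) ht
    have a2 := h2 t' (by omega) ht'
    have a3 := ha.le t ht
    exact (ha.once (q t) (by omega) a3.2).unique ⟨ht, by omega, le_rfl⟩ ⟨ht', by omega, by omega⟩

theorem MU.eb_right (hE : MU m E j) {p q : ℕ} (hq : q ≤ m) (x : A) :
    emb E j p q x * E q q = emb E j p q x := by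
  rw [← hE.emb_one hq hq, hE.emb_mul hq hq, if_pos rfl, mul_one]

theorem MU.eb_left (hE : MU m E j) {p q r : ℕ} (hp : p ≤ m) (hr : r ≤ m) (e : r ≠ p) (x : A) :
    E r r * emb E j p q x = 0 := by
  rw [← hE.emb_one hr hr, hE.emb_mul hr hp, if_neg e]

theorem MU.ent_fac (hE : MU m E j) (hm : 1 ≤ m) {p q : ℕ → ℕ} (ha : Adm m p q) (h : Fac m C F) :
    Fac m ((m + 1) * C) fun x => F (ent E j m p q x) := by
  have _ := hm
  rcases hE.ent_cases ha h.fm with h1 | ⟨h0, h1, h2⟩
  · simpa using h1
  obtain ⟨g, hg, hF⟩ := h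
  have key : ∀ l ∈ range (m + 1), FacLt m (m + 1) C fun x => g l (ent E j m p q x) := by
    intro l hl
    have hl' : l ≤ m := Nat.lt_succ_iff.1 (mem_range.1 hl)
    have hn : nx m l ≤ m := nx_le hl'
    obtain ⟨g1, g2⟩ := hg l
    by_cases e : ebR q l = ebL m p (nx m l)
    · refine FacLt.of_bal (l := ebR q l) (hE.ent_fm ha g1) (fun x c => ?_)
        (Nat.lt_succ_of_le (eb_le ha hl').2)
      have e' : nx m (ebR q l) = ebR q (nx m l) := by rw [e, eb_nx ha h2 hn]
      have := g2 (ent E j m p q x) (emb E j (ebR q l) (ebR q l) c)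
      refine (g1.dep _ _ fun t ht => ?_).trans (this.trans (g1.dep _ _ fun t ht => ?_))
      · rw [hE.eb_eq h0 h1 h2 _ ht]
        by_cases e1 : t = l
        · subst e1
          rw [update_self, update_self, hE.eb_eq h0 h1 h2 _ ht,
            hE.emb_mul (eb_le ha ht).2 (eb_le ha ht).2, if_pos rfl]
        · rw [update_of_ne e1, update_of_ne fun e2 => e1 (eb_inj ha h2 ht hl' e2),
            hE.eb_eq h0 h1 h2 _ ht]
      · rw [hE.eb_eq h0 h1 h2 _ ht, e']
        by_cases e1 : t = nx m l
        · subst e1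
          rw [update_self, update_self, hE.eb_eq h0 h1 h2 _ ht,
            hE.emb_mul (eb_le ha hl').2 (eb_le ha ht).1, if_pos e, e]
        · rw [update_of_ne e1, update_of_ne fun e2 => e1 (eb_inj ha h2 ht hn e2),
            hE.eb_eq h0 h1 h2 _ ht]
    · refine (FacLt.zero g1.nn).congr fun x => ?_
      have := g2 (ent E j m p q x) (E (ebR q l) (ebR q l))
      rw [hE.eb_eq h0 h1 h2 _ hl', hE.eb_right (eb_le ha hl').2, ← hE.eb_eq h0 h1 h2 _ hl',
        update_eq_self, hE.eb_eq h0 h1 h2 _ hn,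
        hE.eb_left (eb_le ha hn).1 (eb_le ha hl').2 e] at this
      rw [this]
      exact g1.map_zero hn (update_self _ _ _)
  have := FacLt.sum (range (m + 1)) key
  refine FacLt.congr (by simpa using this) fun x => hF _

theorem MU.ent_coc (hE : MU m E j) (hm : 1 ≤ m) {p q : ℕ → ℕ} (ha : Adm m p q) (h : Fm m C Φ)
    (hc : Coc m Φ) (hg : ¬Gen m p q) :
    Fac m ((m + 1) ^ 2 * C) fun x => Φ (ent E j m p q x) := by
  have hC := h.nn
  have hm0 : (0 : ℝ) ≤ m := m.cast_nonneg
  rcases hE.ent_cases ha h with h1 | ⟨h0, h1, h2⟩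
  · exact FacLt.mono h1 (le_mul_of_one_le_left hC (by nlinarith))
  obtain ⟨l, hl, e⟩ : ∃ l ≤ m, ebR q l ≠ ebL m p (nx m l) := by
    by_contra hn
    push Not at hn
    have a1 : ∀ t, t ≤ m → ebR q t = t := by
      intro t
      induction t with
      | zero => exact fun _ => if_pos rfl
      | succ t ih =>
        intro ht
        have b1 := hn t (by omega)
        rw [ih (by omega), nx_lt (by omega), ebL, if_neg (by omega)] at b1
        rw [ebR, if_neg (by omega), h2 _ (by omega) ht, ← b1]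
    refine hg ⟨h0, h1, fun t ht ht' => ?_⟩
    have b1 := a1 t ht'
    rw [ebR, if_neg (by omega)] at b1
    have b2 := h2 t ht ht'
    omega
  have hn : nx m l ≤ m := nx_le hl
  have hR := (eb_le ha hl).2
  set e0 := E (ebR q l) (ebR q l) with he0
  have ee : e0 * e0 = e0 := by rw [he0, hE.mul _ hR _ hR _ hR _ hR, if_pos rfl]
  have es : star e0 = e0 := hE.st _ hR _ hR
  set u : B := 1 - (e0 + e0) with hu
  have uu : u * u = 1 := by
    rw [hu]
    simp only [sub_mul, mul_sub, add_mul, mul_add, ee, one_mul, mul_one]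
    abel
  have un : ‖u‖ ≤ 1 := by
    have a1 : star u = u := by rw [hu, star_sub, star_add, es, star_one]
    have a2 := CStarRing.norm_star_mul_self (x := u)
    rw [a1, uu] at a2
    have a3 := norm_one_le' (B := B)
    nlinarith [norm_nonneg u]
  have hF := lnk (s := fun t => if t = nx m l then u else 1) (r := fun t => if t = l then u else 1)
    norm_one_le' hm h hc Hm.id
    (fun t _ => by split_ifs; exacts [un, norm_one_le'])
    (fun t _ => by split_ifs; exacts [un, norm_one_le'])
    (fun t ht x => by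
      by_cases e1 : t = l
      · rw [if_pos e1, e1, if_pos rfl, uu, one_mul]
      · rw [if_neg e1, if_neg, one_mul, one_mul]
        intro e2
        rcases ht.eq_or_lt with a | a <;> rcases hl.eq_or_lt with b | b
        · exact e1 (a.trans b.symm)
        · rw [a, nx_self, nx_lt b] at e2
          omega
        · rw [b, nx_self, nx_lt a] at e2
          omega
        · rw [nx_lt a, nx_lt b] at e2
          omega)
  have h3 := FacLt.smul (hE.ent_fac hm ha hF) (-2⁻¹)
  refine FacLt.congr (FacLt.mono h3 ?_) fun x => ?_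
  · have : ‖(-2⁻¹ : ℂ)‖ = 2⁻¹ := by simp
    rw [this]
    have : 0 ≤ ((m : ℝ) + 1) ^ 2 * C := by positivity
    nlinarith
  · have a1 : Φ (lab (fun x => x) (fun t => if t = nx m l then u else 1)
        (fun t => if t = l then u else 1) (ent E j m p q x)) =
        Φ (update (ent E j m p q x) l ((-1 : ℂ) • ent E j m p q x l)) := by
      refine h.dep _ _ fun t ht => ?_
      unfold lab
      dsimp only
      by_cases e1 : t = l
      · subst e1
        rw [update_self, if_neg (nx_ne hm).symm, if_pos rfl, one_mul, hE.eb_eq h0 h1 h2 _ ht, hu,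
          mul_sub, mul_add, hE.eb_right hR, mul_one, neg_one_smul]
        abel
      · rw [update_of_ne e1, if_neg e1, mul_one]
        split_ifs with e2
        · subst e2
          rw [hE.eb_eq h0 h1 h2 _ ht, hu, sub_mul, add_mul, hE.eb_left (eb_le ha ht).1 hR e,
            add_zero, sub_zero, one_mul]
        · rw [one_mul]
    rw [a1, h.map_smul hl, update_eq_self]
    ring

theorem MU.ent_gen (hE : MU m E j) (hm : 1 ≤ m) {p q : ℕ → ℕ} (hg : Gen m p q) (h : Fm m C Φ)
    (hc : Coc m Φ) :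
    Fac m ((m + 1) * C) fun x => Φ (ent E j m p q x) - Φ fun t => j (x t) := by
  obtain ⟨h0, h1, h2⟩ := hg
  have h3 : ∀ t, 1 ≤ t → t ≤ m → q t = p t + 1 := fun t a b => by
    have := h2 t a b
    omega
  have hR : ∀ t ≤ m, ebR q t = t := fun t ht => by
    unfold ebR
    split_ifs with e
    · exact e.symm
    · exact (h2 t (by omega) ht).2
  have hL : ∀ t ≤ m, ebL m p t ≤ m := fun t ht => by
    unfold ebL
    split_ifs with e
    · exact le_rfl
    · have := h2 t (by omega) ht
      omega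
  have hN : ∀ t ≤ m, ebL m p (nx m t) = t := fun t ht => by
    rcases ht.eq_or_lt with e | e
    · rw [e, nx_self, ebL, if_pos rfl]
    · rw [nx_lt e, ebL, if_neg (by omega), (h2 (t + 1) (by omega) e).1, Nat.add_sub_cancel]
  have hF := lnk (s := fun t => E (ebL m p t) 0) (r := fun t => E 0 t) norm_one_le' hm h hc
    (hm_star j) (fun t ht => hE.norm_le (hL t ht) m.zero_le)
    (fun t ht => hE.norm_le m.zero_le ht) fun t ht x => by
      rw [hN t ht, hE.mul 0 m.zero_le t ht t ht 0 m.zero_le, if_pos rfl, ← hE.one, ← map_mul,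
        one_mul]
  refine FacLt.congr hF fun x => ?_
  congr 1
  refine h.dep _ _ fun t ht => ?_
  rw [hE.eb_eq h0 h1 h3 _ ht, hR t ht]
  rfl

end Pool.Agent.Lib.MP_08bba9_an.Co
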