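import Pool.Agent.Lib.MP_08bba9_an.Co.Defs

/-! A cocycle changes by a facial form when the links are labelled (with a homomorphism). -/

noncomputable section

namespace Pool.Agent.Lib.MP_08bba9_an.Co

open Finset Function

variable {A B : Type*} [NormedRing A] [NormedAlgebra ℂ A] [NormedRing B] [NormedAlgebra ℂ B]
  {m : ℕ} {C : ℝ} {Φ : (ℕ → B) → ℂ} {j : A → B}

namespace Lnk

theorem sum_split (u : ℕ → ℂ) (i d : ℕ) :
    ∑ l ∈ range (i + d + 2), u l = u i + u (i + 1) +
      ∑ l ∈ range (i + d + 1), if l < i then u l else if l = i then 0 else u (l + 1) := by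
  induction d with
  | zero =>
    rw [add_zero, sum_range_succ, sum_range_succ, sum_range_succ, if_neg (lt_irrefl i), if_pos rfl,
      sum_congr rfl (fun l hl => if_pos (mem_range.1 hl))]
    ring
  | succ d ih =>
    rw [← add_assoc, sum_range_succ _ (i + d + 2), ih, sum_range_succ _ (i + d + 1),
      if_neg (by omega), if_neg (by omega)]
    ring

/-- all the faces -/
def fa (m l : ℕ) (z : ℕ → B) : ℕ → B := if l ≤ m then ct l z else wr (m + 1) z

omit [NormedAlgebra ℂ B] in
theorem cb_fa (z : ℕ → B) : cb m Φ z = ∑ l ∈ range (m + 2), (-1) ^ l * Φ (fa m l z) := by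
  rw [sum_range_succ _ (m + 1), cb, fa, if_neg (by omega)]
  congr 1
  exact sum_congr rfl fun i hi => by rw [fa, if_pos (Nat.lt_succ_iff.1 (mem_range.1 hi))]

theorem fm_fa (h : Fm m C Φ) (l : ℕ) : Fm (m + 1) C fun z => Φ (fa m l z) := by
  unfold fa
  split_ifs with e
  · exact h.ct e
  · exact h.wr

theorem fm_lab (h : Fm m C Φ) (hj : Hm j) {s r : ℕ → B} (hs : ∀ t ≤ m, ‖s t‖ ≤ 1)
    (hr : ∀ t ≤ m, ‖r t‖ ≤ 1) : Fm m C fun a => Φ (lab j s r a) :=
  h.comp (L := fun t x => s t * j x * r t)
    (fun t => ⟨fun x y => by rw [hj.lin.1, mul_add, add_mul], fun c x => by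
      rw [hj.lin.2, mul_smul_comm, smul_mul_assoc]⟩)
    fun t ht x => by
      refine (norm_mul_le _ _).trans ((mul_le_of_le_one_right (norm_nonneg _) (hr t ht)).trans ?_)
      exact ((norm_mul_le _ _).trans (mul_le_of_le_one_left (norm_nonneg _) (hs t ht))).trans
        (hj.le x)

theorem key (hj : Hm j) {p q : B} (e : ∀ w, p * q * j w = j w) (σ ρ : B) (x c y : A) :
    σ * j (x * c) * p * (q * j y * ρ) = σ * j x * p * (q * j (c * y) * ρ) := by
  have e' : ∀ (u : B) w, u * p * (q * j w * ρ) = u * j w * ρ := fun u w => by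
    conv_rhs => rw [← e w]
    simp only [mul_assoc]
  rw [e', e', hj.mul, hj.mul]
  simp only [mul_assoc]

theorem one (h1 : ‖(1 : B)‖ ≤ 1) (hm : 1 ≤ m) (h : Fm m C Φ) (hc : Coc m Φ) (hj : Hm j)
    {s r : ℕ → B} (hs : ∀ t ≤ m, ‖s t‖ ≤ 1) (hr : ∀ t ≤ m, ‖r t‖ ≤ 1)
    (hl : ∀ l ≤ m, ∀ x, r l * s (nx m l) * j x = j x) {i : ℕ} (hi : i ≤ m) :
    Fac m C fun a => Φ (lab j s r a) - Φ (lab j (update s (nx m i) 1) (update r i 1) a) := by
  let Z : (ℕ → A) → ℕ → B := fun a => ins (i + 1) (r i) (lab j s (update r i 1) a)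
  have hZ : ∀ a k, Z a k = if k < i then s k * j (a k) * r k else if k = i then s k * j (a k) * 1
      else if k = i + 1 then r i else s (k - 1) * j (a (k - 1)) * r (k - 1) := fun a k => by
    simp only [Z, ins, lab, update_apply]
    split_ifs <;> first | rfl | omega
  have hF : ∀ l, Fm m C fun a => Φ (fa m l (Z a)) := fun l =>
    (fm_lab ((fm_fa h l).ins (i := i + 1) (by omega) (r i)) hj hs (r := update r i 1)
      fun t ht => by
        rw [update_apply]
        split_ifs
        exacts [h1, hr t ht]).mono (mul_le_of_le_one_right h.nn (hr i hi))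
  have hB1 : ∀ l < i, Bal m l fun a => Φ (fa m l (Z a)) := fun l hli a c => by
    have k1 := key hj (hl l (by omega))
    rw [nx_lt (by omega)] at k1 ⊢
    refine h.dep _ _ fun k hk => ?_
    simp only [fa, if_pos (show l ≤ m by omega), ct, hZ, update_apply]
    split_ifs <;> first | rfl | omega | exact k1 _ _ _ _ _
  have hB2 : ∀ l, i < l → l ≤ m → Bal m l fun a => Φ (fa m (l + 1) (Z a)) := fun l hli hlm a c => by
    have k1 := key hj (hl l hlm)
    refine h.dep _ _ fun k hk => ?_
    rcases hlm.eq_or_lt with e | e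
    · subst e
      rw [nx_self] at k1 ⊢
      simp only [fa, if_neg (Nat.not_succ_le_self l), wr, hZ, update_apply, Nat.add_sub_cancel]
      split_ifs <;> first | rfl | omega | exact k1 _ _ _ _ _
    · rw [nx_lt e] at k1 ⊢
      simp only [fa, if_pos (show l + 1 ≤ m by omega), ct, hZ, update_apply, Nat.add_sub_cancel]
      split_ifs <;> first | rfl | omega | exact k1 _ _ _ _ _
  have e1 : ∀ a, Φ (fa m i (Z a)) = Φ (lab j s r a) := fun a => by
    refine h.dep _ _ fun k hk => ?_
    simp only [fa, if_pos hi, ct, hZ, lab, Nat.add_sub_cancel]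
    split_ifs <;> first | rfl | omega | (subst_vars; rw [mul_one])
  have e2 : ∀ a, Φ (fa m (i + 1) (Z a)) =
      Φ (lab j (update s (nx m i) 1) (update r i 1) a) := fun a => by
    have k1 : ∀ (w : A) (ρ : B), r i * (s (nx m i) * j w * ρ) = 1 * j w * ρ := fun w ρ => by
      rw [one_mul]
      conv_rhs => rw [← hl i hi w]
      simp only [mul_assoc]
    refine h.dep _ _ fun k hk => ?_
    rcases hi.eq_or_lt with e | e
    · subst e
      rw [nx_self] at k1 ⊢
      simp only [fa, if_neg (Nat.not_succ_le_self i), wr, hZ, lab, update_apply]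
      split_ifs <;> first | rfl | omega | (subst_vars; exact k1 _ _)
    · rw [nx_lt e] at k1 ⊢
      simp only [fa, if_pos (show i + 1 ≤ m by omega), ct, hZ, lab, update_apply,
        Nat.add_sub_cancel]
      split_ifs <;> first | rfl | omega | (subst_vars; exact k1 _ _)
  refine ⟨fun l => if l < i then fun a => (-1) ^ (i + 1) * ((-1) ^ l * Φ (fa m l (Z a)))
    else if l = i ∨ m < l then fun _ => 0
    else fun a => (-1) ^ (i + 1) * ((-1) ^ (l + 1) * Φ (fa m (l + 1) (Z a))), fun l => ?_,
    fun a => ?_⟩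
  · dsimp only
    split_ifs with c1 c2
    · exact ⟨((hF l).sign _).sign _, ((hB1 l c1).smul _).smul _⟩
    · exact ⟨Fm.zero h.nn, fun _ _ => rfl⟩
    · exact ⟨((hF _).sign _).sign _, ((hB2 l (by omega) (by omega)).smul _).smul _⟩
  · have h0 := hc (Z a)
    obtain ⟨d, hd⟩ := Nat.exists_eq_add_of_le hi
    have h2 := sum_split (fun l => (-1) ^ l * Φ (fa m l (Z a))) i d
    rw [← hd, ← cb_fa, h0, e1, e2] at h2
    have h3 : ∀ l ∈ range (m + 1), (if l < i then fun a => (-1) ^ (i + 1) * ((-1) ^ l * Φ (fa m l (Z a)))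
        else if l = i ∨ m < l then fun _ => 0
        else fun a => (-1) ^ (i + 1) * ((-1) ^ (l + 1) * Φ (fa m (l + 1) (Z a)))) a =
        (-1) ^ (i + 1) * if l < i then (-1) ^ l * Φ (fa m l (Z a)) else if l = i then 0
          else (-1) ^ (l + 1) * Φ (fa m (l + 1) (Z a)) := fun l hl => by
      have := mem_range.1 hl
      split_ifs <;> first | rfl | omega | simp
    dsimp only
    rw [sum_congr rfl h3, ← mul_sum]
    have e3 : ((-1 : ℂ) ^ i) * (-1) ^ i = 1 := by rw [← mul_pow]; simp
    rw [pow_succ (-1 : ℂ) i] at h2 ⊢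
    linear_combination (-(-1) ^ i) * h2 - (Φ (lab j s r a) -
      Φ (lab j (update s (nx m i) 1) (update r i 1) a)) * e3

end Lnk

theorem lnk {Φ : (ℕ → B) → ℂ} (h1 : ‖(1 : B)‖ ≤ 1) (hm : 1 ≤ m) (h : Fm m C Φ) (hc : Coc m Φ)
    {j : A → B} (hj : Hm j) {s r : ℕ → B} (hs : ∀ t ≤ m, ‖s t‖ ≤ 1) (hr : ∀ t ≤ m, ‖r t‖ ≤ 1)
    (hl : ∀ l ≤ m, ∀ x, r l * s (nx m l) * j x = j x) :
    Fac m ((m + 1) * C) fun a => Φ (lab j s r a) - Φ fun t => j (a t) := by
  let S : ℕ → ℕ → B := fun k t => if (if t = 0 then m else t - 1) < k then 1 else s t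
  let R : ℕ → ℕ → B := fun k t => if t < k then 1 else r t
  have key : ∀ k ≤ m + 1,
      Fac m (k * C) fun a => Φ (lab j s r a) - Φ (lab j (S k) (R k) a) := by
    intro k hk
    induction k with
    | zero =>
      refine (FacLt.zero (by simp)).congr fun b => sub_eq_zero.2 (congrArg Φ (funext fun t => ?_))
      simp [lab, S, R]
    | succ k ih =>
      have h2 := Lnk.one h1 hm h hc hj (s := S k) (r := R k)
        (fun t ht => by simp only [S]; split_ifs <;> first | exact hs t ht | exact h1)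
        (fun t ht => by simp only [R]; split_ifs <;> first | exact hr t ht | exact h1)
        (fun t ht x => by
          have := hl t ht x
          simp only [S, R, nx] at this ⊢
          split_ifs at this ⊢ <;> first | exact this | omega | contradiction | simp)
        (i := k) (by omega)
      refine (((ih (by omega)).add h2).mono (le_of_eq (by push_cast; ring))).congr fun b => ?_
      rw [sub_add_sub_cancel]
      refine congrArg _ (h.dep _ _ fun t ht => ?_)
      simp only [lab, S, R, update_apply, nx]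
      split_ifs <;> first | rfl | omega
  refine ((key _ le_rfl).mono (le_of_eq (by push_cast; ring))).congr fun b => ?_
  refine congrArg _ (h.dep _ _ fun t ht => ?_)
  simp only [lab, S, R]
  split_ifs <;> first | omega | simp

end Pool.Agent.Lib.MP_08bba9_an.Co
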