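import Pool.Agent.Lib.MP_08bba9_an.Co.LWa
import Pool.Agent.Lib.MP_08bba9_an.Co.Lnk

/-! The long word lemma. -/

noncomputable section

namespace Pool.Agent.Lib.MP_08bba9_an.Co

open Finset Function

variable {B : Type*} [CStarAlgebra B] {m : ℕ} {C : ℝ}

theorem lw {Φ : (ℕ → B) → ℂ} (hm : 1 ≤ m) (h : Fm m C Φ) (hc : Coc m Φ) {R I : Type*} [Fintype R]
    [Nonempty R] {a : R → B} (ha : ∀ r, a r ∈ unitary B) {Y : I → R → B} {z : B}
    (hcen : ∀ x, z * x = x * z) (hz : ∀ x, Φ (update x 0 (z * x 0)) = Φ x) {ε : ℝ}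
    (hK : K.KP a Y z ε) :
    ∃ F, Fac m ((m + 1) * C) F ∧ ∀ i,
      ‖∑ r, (Φ (tst m (a r) (Y i r)) - F (tst m (a r) (Y i r)))‖ ≤ Fintype.card R * C * ε :=
  lw_of_link h hm (fun s r hs hr hl => FacLt.congr (FacLt.neg (lnk norm_one_le' hm h hc Hm.id
    (fun t _ => hs t) (fun t _ => hr t) fun l h x => by rw [hl l h, one_mul]))
    fun b => (neg_sub _ _).symm) hcen hz ha hK

end Pool.Agent.Lib.MP_08bba9_an.Co
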