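import Pool.Agent.Lib.MP_08bba9_an.Co.Lim

/-! Limits of facial forms, in the form used by the core argument. -/

noncomputable section

namespace Pool.Agent.Lib.MP_08bba9_an.Co

theorem Fac.lim {A : Type*} [NormedRing A] [NormedAlgebra ℂ A] {m : ℕ} {C C' : ℝ}
    {f : (ℕ → A) → ℂ} {D : Set A} (hD : Dense (Submodule.span ℂ D : Set A)) (hf : Fm m C' f)
    (h : ∀ (S : Finset (ℕ → A)) (ε : ℝ), 0 < ε → (∀ x ∈ S, ∀ t, x t ∈ D) →
      ∃ g, Fac m C g ∧ ∀ x ∈ S, ‖f x - g x‖ ≤ ε) : Fac m C f := by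
  rcases D.eq_empty_or_nonempty with rfl | hne
  · obtain ⟨g, hg, -⟩ := h ∅ 1 one_pos (by simp)
    refine (FacLt.zero (FacLt.nn hg)).congr fun a => hf.map_zero m.zero_le ?_
    have := hD (a 0)
    simpa using this
  · exact fac_lim hf hne hD fun S hS ε hε => h S ε hε hS

theorem dense_unitary {A : Type*} [CStarAlgebra A] :
    Dense (Submodule.span ℂ (unitary A : Set A) : Set A) := by
  rw [CStarAlgebra.span_unitary]
  exact dense_univ

end Pool.Agent.Lib.MP_08bba9_an.Co
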