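import Pool.Agent.Lib.MP_08bba9_an.Co.Bridge

/-! Scalar matrices conjugated by unitary diagonal matrices, and the entries of test tuples. -/

noncomputable section

namespace Pool.Agent.Lib.MP_08bba9_an.Co

open Finset Function

section cstar

variable {A B : Type*} [CStarAlgebra A] [CStarAlgebra B] {m : ℕ} {C : ℝ} {Φ : (ℕ → B) → ℂ}
  {E : ℕ → ℕ → B} {j : A →⋆ₙₐ[ℂ] B}

theorem MU.mat_mul (hE : MU m E j) {d : ℕ → A} (hd : ∀ p, d p ∈ unitary A) (V W : Mt m) :
    mat E j m d V * mat E j m d W = mat E j m d (V * W) := by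
  have le : ∀ p : Fin (m + 1), (p : ℕ) ≤ m := fun p => Nat.lt_succ_iff.1 p.2
  have e : ∀ p q r s : Fin (m + 1),
      emb E j p q (d p * star (d q)) * emb E j r s (d r * star (d s)) =
        if q = r then emb E j p s (d p * star (d s)) else 0 := by
    intro p q r s
    rw [hE.emb_mul (le q) (le r)]
    by_cases k : q = r
    · subst k
      rw [if_pos rfl, if_pos rfl, mul_assoc, ← mul_assoc (star (d q)),
        Unitary.star_mul_self_of_mem (hd q), one_mul]
    · rw [if_neg k, if_neg fun k' => k (Fin.ext k')]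
  have e2 : ∀ p q : Fin (m + 1), V p q • emb E j p q (d p * star (d q)) * mat E j m d W =
      ∑ s, (V p q * W q s) • emb E j p s (d p * star (d s)) := by
    intro p q
    rw [mat, mul_sum, sum_eq_single q (fun r _ k => ?_) fun k => absurd (mem_univ _) k, mul_sum]
    · refine sum_congr rfl fun s _ => ?_
      rw [smul_mul_smul_comm, e, if_pos rfl]
    · rw [mul_sum]
      refine sum_eq_zero fun s _ => ?_
      rw [smul_mul_smul_comm, e, if_neg k.symm, smul_zero]
  rw [mat, mat, sum_mul]
  refine sum_congr rfl fun p _ => ?_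
  rw [sum_mul, ← mat, sum_congr rfl fun q _ => e2 p q, sum_comm]
  simp only [Matrix.mul_apply, sum_smul]

theorem MU.star_mat (hE : MU m E j) (d : ℕ → A) (V : Mt m) :
    star (mat E j m d V) = mat E j m d (star V) := by
  have le : ∀ p : Fin (m + 1), (p : ℕ) ≤ m := fun p => Nat.lt_succ_iff.1 p.2
  simp only [mat, star_sum, star_smul]
  rw [sum_comm]
  refine sum_congr rfl fun p _ => sum_congr rfl fun q _ => ?_
  rw [hE.star_emb (le q) (le p), star_mul, star_star, Matrix.star_apply]

theorem MU.mat_one (hE : MU m E j) {d : ℕ → A} (hd : ∀ p, d p ∈ unitary A) :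
    mat E j m d 1 = 1 := by
  have le : ∀ p : Fin (m + 1), (p : ℕ) ≤ m := fun p => Nat.lt_succ_iff.1 p.2
  rw [← hE.sum, ← Fin.sum_univ_eq_sum_range (fun p => E p p)]
  refine sum_congr rfl fun p _ => ?_
  simp only [Matrix.one_apply, ite_smul, one_smul, zero_smul]
  rw [sum_ite_eq, if_pos (mem_univ _), Unitary.mul_star_self_of_mem (hd p),
    hE.emb_one (le p) (le p)]

theorem MU.mat_unitary (hE : MU m E j) {d : ℕ → A} (hd : ∀ p, d p ∈ unitary A) {V : Mt m}
    (hV : V ∈ unitary (Mt m)) : mat E j m d V ∈ unitary B := by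
  rw [Unitary.mem_iff, hE.star_mat, hE.mat_mul hd, hE.mat_mul hd,
    Unitary.star_mul_self_of_mem hV, Unitary.mul_star_self_of_mem hV, hE.mat_one hd]
  exact ⟨rfl, rfl⟩

theorem MU.tst_mat (hE : MU m E j) (h : Fm m C Φ) {d : ℕ → A} (hd : ∀ p, d p ∈ unitary A)
    (V : Mt m) (y : B) : Φ (tst m (mat E j m d V) y) =
      ∑ τ : Ix m, co m V (star V) τ * Φ (entD E j d y (ip τ) (iq τ)) := by
  have e1 : ∀ W : Mt m, mat E j m d W = ∑ i : Fin (m + 1) × Fin (m + 1),
      W i.1 i.2 • emb E j i.1 i.2 (d i.1 * star (d i.2)) := fun W => by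
    rw [mat, Fintype.sum_prod_type]
  have e2 : tst m (mat E j m d V) y = fun t => ∑ i : Fin (m + 1) × Fin (m + 1),
      pat m V (star V) t i.1 i.2 • (if t = 0 then emb E j i.1 i.2 (d i.1 * star (d i.2)) * y
        else emb E j i.1 i.2 (d i.1 * star (d i.2))) := by
    funext t
    unfold tst pat
    by_cases h0 : t = 0
    · simp only [if_pos h0, ← smul_mul_assoc, ← sum_mul, ← e1]
      split_ifs
      · rw [hE.mat_one hd, one_mul]
      · rw [hE.star_mat]
    · simp only [if_neg h0, ← e1]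
      split_ifs
      · rfl
      · rw [hE.star_mat]
  rw [e2, h.expand (fun t (i : Fin (m + 1) × Fin (m + 1)) => pat m V (star V) t i.1 i.2)]
  refine sum_congr rfl fun τ _ => ?_
  congr 2
  funext t
  unfold entD ip iq
  split_ifs with h0
  · rw [h0]
  · rfl

theorem sg_unitary {x : ℕ → A} (hx : ∀ t, x t ∈ unitary A) (p d : ℕ) : sg x p d ∈ unitary A := by
  induction d with
  | zero => exact one_mem _
  | succ d ih => exact mul_mem ih (hx _)

theorem seg_unitary {x : ℕ → A} (hx : ∀ t, x t ∈ unitary A) (p q : ℕ) : seg x p q ∈ unitary A :=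
  sg_unitary hx p _

theorem sg_split {M : Type*} [Monoid M] (x : ℕ → M) (p a b : ℕ) :
    sg x p (a + b) = sg x p a * sg x (p + a) b := by
  induction b with
  | zero => simp [sg]
  | succ b ih => rw [← add_assoc, sg, sg, ih, mul_assoc, add_assoc p a b]

theorem seg_split {M : Type*} [Monoid M] (x : ℕ → M) {p q r : ℕ} (h : p ≤ q) (h' : q ≤ r) :
    seg x p r = seg x p q * seg x q r := by
  unfold seg
  have e : r - p = q - p + (r - q) := by omega
  have e' : p + (q - p) = q := by omega
  rw [e, sg_split, e']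

theorem entD_eq {x : ℕ → A} (hx : ∀ t, x t ∈ unitary A) {p q : ℕ → ℕ}
    (h : ∀ t ≤ m, p t ≤ q t ∧ q t ≤ m) {t : ℕ} (ht : t ≤ m) :
    entD E j (fun s => seg x s m) (emb E j m 0 (x 0)) p q t = ent E j m p q x t := by
  have e : ∀ s ≤ m, seg x (p s) m * star (seg x (q s) m) = seg x (p s) (q s) := fun s hs => by
    rw [seg_split x (h s hs).1 (h s hs).2, mul_assoc,
      Unitary.mul_star_self_of_mem (seg_unitary hx _ _), mul_one]
  unfold entD ent
  simp only [e 0 m.zero_le, e t ht]

end cstar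

end Pool.Agent.Lib.MP_08bba9_an.Co
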