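import Pool.Agent.Lib.MP_08bba9_an.Co.Central
import Pool.Agent.Lib.MP_08bba9_an.Co.Cont
import Pool.Agent.Lib.MP_08bba9_an.Co.EntB
import Pool.Agent.Lib.MP_08bba9_an.Co.LW
import Pool.Agent.Lib.MP_08bba9_an.Co.Lim2
import Pool.Agent.Lib.MP_08bba9_an.Co.Mat

/-! The value of a cocycle on a unitary tuple from its values on test tuples. -/

noncomputable section

namespace Pool.Agent.Lib.MP_08bba9_an.Co

open Finset Function

universe u v

theorem core (m : ℕ) (hm : 1 ≤ m) : ∃ (K : ℝ) (n : ℕ) (V : Fin n → Mt m) (lam : Fin n → ℂ),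
    0 ≤ K ∧ 0 < n ∧ (∀ i, V i ∈ unitary (Mt m)) ∧
    ∀ (A : Type u) (B : Type v) [CStarAlgebra A] [CStarAlgebra B] (E : ℕ → ℕ → B)
      (j : A →⋆ₙₐ[ℂ] B), MU m E j → ∀ (C C' : ℝ) (Φ F : (ℕ → B) → ℂ), Fm m C Φ → Coc m Φ →
      Fac m C' F → ∃ G, Fac m (K * (C + C')) G ∧ ∀ x : ℕ → A, (∀ t, x t ∈ unitary A) →
        Φ (fun t => j (x t)) - G x = ∑ i, lam i *
          (Φ (tst m (mat E j m (fun s => seg x s m) (V i)) (emb E j m 0 (x 0))) -
            F (tst m (mat E j m (fun s => seg x s m) (V i)) (emb E j m 0 (x 0)))) := by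
  classical
  obtain ⟨c, hc, hA, τ₀, h0, hg, hu⟩ := scal m
  obtain ⟨n, f, g, e⟩ := Submodule.mem_span_set'.1 hc
  choose V hV hgV using fun i => (g i).2
  have ec : ∀ τ, c τ = ∑ i, f i * co m (V i) (star (V i)) τ := fun τ => by
    rw [← e, Finset.sum_apply]
    simp only [Pi.smul_apply, smul_eq_mul, hgV]
  refine ⟨‖(c τ₀)⁻¹‖ * ∑ τ, ‖c τ‖ * (m + 1) ^ 2, n, V, fun i => (c τ₀)⁻¹ * f i, by positivity,
    Nat.pos_of_ne_zero ?_, hV, fun A B _ _ E j hE C C' Φ F h hco hF => ?_⟩
  · rintro rfl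
    exact h0 (by simp [ec])
  have hC := h.nn
  have hC' := hF.nn
  have h1 : (1 : ℝ) ≤ m + 1 := by linarith [Nat.cast_nonneg (α := ℝ) m]
  have h2 : (m + 1 : ℝ) ≤ (m + 1) ^ 2 := by nlinarith
  have H : ∀ τ : Ix m, Fac m (‖c τ‖ * ((m + 1) ^ 2 * (C + C'))) fun x : ℕ → A => c τ *
      ((Φ (ent E j m (ip τ) (iq τ) x) - if τ = τ₀ then Φ fun t => j (x t) else 0) -
        F (ent E j m (ip τ) (iq τ) x)) := fun τ => by
    by_cases e0 : c τ = 0
    · simpa [e0, Fac] using FacLt.zero le_rfl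
    refine FacLt.smul (FacLt.mono (C := (m + 1) ^ 2 * C + (m + 1) * C') (FacLt.sub ?_
      (hE.ent_fac hm (hA τ e0) hF)) (by nlinarith)) _
    split_ifs with e1
    · subst e1
      exact FacLt.mono (hE.ent_gen hm hg h hco) (by nlinarith)
    · simpa [Fac] using hE.ent_coc hm (hA τ e0) h hco fun e2 => e1 (hu τ e2)
  refine ⟨_, FacLt.mono ((FacLt.sum univ fun τ _ => H τ).smul (c τ₀)⁻¹).neg (le_of_eq ?_),
    fun x hx => ?_⟩
  · rw [mul_assoc, sum_mul]
    simp only [mul_assoc]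
  have key : ∀ (D : ℝ) (Ψ : (ℕ → B) → ℂ), Fm m D Ψ → ∑ i, f i *
      Ψ (tst m (mat E j m (fun s => seg x s m) (V i)) (emb E j m 0 (x 0))) =
      ∑ τ, c τ * Ψ (ent E j m (ip τ) (iq τ) x) := fun D Ψ hΨ => by
    simp only [hE.tst_mat hΨ fun p => seg_unitary hx p m, mul_sum, ← mul_assoc]
    rw [sum_comm]
    refine sum_congr rfl fun τ _ => ?_
    rw [← sum_mul, ← ec]
    by_cases e0 : c τ = 0
    · simp [e0]
    · rw [hΨ.dep _ _ fun t ht => entD_eq hx (hA τ e0).le ht]
  simp only [mul_assoc, ← mul_sum, mul_sub, sum_sub_distrib, key _ _ h, key _ _ hF.fm, mul_ite,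
    mul_zero, sum_ite_eq', mem_univ, if_true]
  field_simp
  ring

/-- finite partitions of unity into central projections with one of the two norm properties -/
def GoodPart (M : Type*) [CStarAlgebra M] : Prop :=
  ∀ (R I : Type) [Fintype R] [Nonempty R] [Fintype I] (a : R → M) (Y : I → R → M) (d : M),
    (∀ r, a r ∈ unitary M) → (∀ i r, ‖Y i r‖ ≤ 1) → star d = d → d * d = 1 →
    (∀ i r, d * Y i r * d = -Y i r) → ∀ ε : ℝ, 0 < ε →
      ∃ (ι : Type) (_ : Fintype ι) (c : ι → M), W.IsPart c ∧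
        ∀ k, K.PInf (c k) ∨ K.KP a Y (c k) ε

variable {A : Type u} {B : Type v} [CStarAlgebra A] [CStarAlgebra B] {m : ℕ} {C : ℝ}
  {Φ : (ℕ → B) → ℂ} {E : ℕ → ℕ → B} {j : A →⋆ₙₐ[ℂ] B}

theorem Fm.tst_zero (h : Fm m C Φ) (W : B) : Φ (tst m W 0) = 0 :=
  h.map_zero m.zero_le (by simp [tst])

theorem facial (hB : GoodPart B) (hE : MU m E j) (hm : 1 ≤ m) (h : Fm m C Φ) (hc : Coc m Φ) :
    ∃ D, Fac m D fun x => Φ fun t => j (x t) := by
  classical
  obtain ⟨K, n, V, lam, hK, hn, hV, H⟩ := core.{u, v} m hm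
  have hC := h.nn
  refine ⟨(m + 1) * C + ((m + 1) + K * (m + 2)) * C,
    Fac.lim dense_unitary (h.pull (hm_star j)) fun S ε hε hS => ?_⟩
  haveI : Nonempty (Fin n) := ⟨⟨0, hn⟩⟩
  let X : Option (Fin S.card) → ℕ → A := fun o => o.elim (fun _ => 1) fun i => S.equivFin.symm i
  have hX : ∀ o t, X o t ∈ unitary A := fun o t => by
    cases o with
    | none => exact one_mem _
    | some i => exact hS _ (S.equivFin.symm i).2 t
  have nX : ∀ o t, ‖X o t‖ ≤ 1 := fun o t => by
    rw [← mul_one (X o t), CStarRing.norm_mem_unitary_mul _ (hX o t)]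
    exact norm_one_le'
  set q : ℝ := (Fintype.card (Option (Fin S.card) × Fin n) : ℝ) with hq
  have hq0 : 0 ≤ q := Nat.cast_nonneg _
  set L : ℝ := 1 + (∑ i, ‖lam i‖) * q with hL
  have hL0 : 0 ≤ (∑ i, ‖lam i‖) * q := by positivity
  have e00 : E 0 0 * E 0 0 = E 0 0 := by
    rw [hE.mul 0 m.zero_le 0 m.zero_le 0 m.zero_le 0 m.zero_le, if_pos rfl]
  obtain ⟨ι, _, c, hp, hg⟩ := hB (Option (Fin S.card) × Fin n) (Option (Fin S.card) × Fin n)
    (fun r => mat E j m (fun s => seg (X r.1) s m) (V r.2))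
    (fun r' r => if r = r' then emb E j m 0 (X r.1 0) else 0) (1 - (E 0 0 + E 0 0))
    (fun r => hE.mat_unitary (fun p => seg_unitary (hX _) p m) (hV _))
    (fun r' r => by
      split_ifs
      · exact (hE.norm_emb le_rfl m.zero_le _).trans (nX _ _)
      · simp)
    (by rw [star_sub, star_add, star_one, hE.st 0 m.zero_le 0 m.zero_le])
    (by simp only [mul_sub, sub_mul, mul_add, add_mul, e00, mul_one, one_mul]; abel)
    (fun r' r => by
      split_ifs
      · have e1 : E 0 0 * emb E j m 0 (X r.1 0) = 0 := by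
          rw [← hE.emb_one m.zero_le m.zero_le, hE.emb_mul m.zero_le le_rfl, if_neg (by omega)]
        have e2 : emb E j m 0 (X r.1 0) * E 0 0 = emb E j m 0 (X r.1 0) := by
          rw [← hE.emb_one m.zero_le m.zero_le, hE.emb_mul m.zero_le m.zero_le, if_pos rfl, mul_one]
        simp only [mul_sub, sub_mul, mul_add, add_mul, e1, e2, mul_one, one_mul, zero_mul]
        abel
      · simp)
    (ε / (L * C + 1)) (by positivity)
  set δ := ε / (L * C + 1) with hδ
  have hδ0 : 0 < δ := by positivity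
  obtain ⟨D, hD, sD⟩ := central_norm h hp
  have loc : ∀ k, ∃ G, Fac m (((m + 1) + K * (m + 2)) * D k) G ∧
      ∀ o, ‖Φ (fun t => c k * j (X o t)) - G (X o)‖ ≤ L * δ * D k := fun k => by
    have hz := hm_cen (hp.proj k) (hp.cen k)
    have zz : ∀ x, c k * (c k * x) = c k * x := fun x => by
      rw [← mul_assoc, (hp.proj k).isIdempotentElem.eq]
    have D0 := (hD k).nn
    rcases hg k with hk | hk
    · obtain ⟨g, g1, g2⟩ := isom hm (hD k) (hc.pull hz) (hp.proj k) (hp.cen k) hk hδ0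
      refine ⟨_, FacLt.mono (FacLt.pull g1 (hm_star j)) (mul_le_mul_of_nonneg_right
        (le_add_of_nonneg_right (by positivity)) D0), fun o => ?_⟩
      have := g2.bd' (a := fun t => j (X o t)) (M := fun _ => 1)
        fun t _ => ((hm_star j).le _).trans (nX o t)
      simp only [zz, prod_const_one, mul_one] at this
      refine this.trans ?_
      rw [hL]
      nlinarith [mul_nonneg (mul_nonneg hL0 hδ0.le) D0]
    · obtain ⟨F, F1, F2⟩ := lw hm (hD k) (hc.pull hz)
        (fun r => hE.mat_unitary (fun p => seg_unitary (hX _) p m) (hV _)) (hp.cen k)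
        (fun x => congrArg Φ (funext fun t => by
          by_cases e : t = 0
          · subst e; simp [zz]
          · simp [e])) hk
      obtain ⟨G, G1, G2⟩ := H A B E j hE _ _ _ F (hD k) (hc.pull hz) F1
      refine ⟨G, FacLt.mono G1 (by nlinarith [mul_nonneg (Nat.cast_nonneg (α := ℝ) m) D0]),
        fun o => ?_⟩
      rw [G2 _ (hX o)]
      refine (norm_sum_le _ _).trans ?_
      calc _ ≤ ∑ i, ‖lam i‖ * (q * D k * δ) := sum_le_sum fun i _ => by
            rw [norm_mul]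
            gcongr
            have := F2 (o, i)
            rwa [sum_eq_single (o, i) (fun r _ e => by
              rw [if_neg e, (hD k).tst_zero, F1.fm.tst_zero, sub_zero]) (by simp), if_pos rfl] at this
        _ ≤ _ := by
            rw [← sum_mul, hL]
            nlinarith [mul_nonneg hδ0.le D0]
  choose G G1 G2 using loc
  refine ⟨_, FacLt.mono ((FacLt.pull (central_fac hm h hc hp) (hm_star j)).add
    (FacLt.sum univ fun k _ => G1 k)) ?_, fun x hx => ?_⟩
  · rw [← mul_sum]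
    gcongr
  · have e : X (some (S.equivFin ⟨x, hx⟩)) = x := by simp [X]
    have := norm_sum_le_of_le univ fun k _ => G2 k (some (S.equivFin ⟨x, hx⟩))
    rw [e, sum_sub_distrib, ← mul_sum] at this
    rw [show ∀ a b c : ℂ, a - (a - b + c) = b - c from fun a b c => by ring]
    refine this.trans ?_
    have hL1 : 0 ≤ L := by positivity
    calc _ ≤ δ * (L * C + 1) := by nlinarith [mul_le_mul_of_nonneg_left sD (mul_nonneg hL1 hδ0.le)]
      _ = ε := by rw [hδ]; field_simp

end Pool.Agent.Lib.MP_08bba9_an.Co
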