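import Pool.Agent.Lib.MP_08bba9_an.Co.Defs
import Pool.Agent.Lib.MP_08bba9_an.K.KP

/-! The long word: a cocycle is almost facial on test tuples with the norm property. -/

noncomputable section

namespace Pool.Agent.Lib.MP_08bba9_an.Co

open Finset Function K

variable {B : Type*} [CStarAlgebra B] {R : Type*}

/-- the part of the word after the letter `j` -/
def lwSuf (a : R → B) (u : ℕ → B) (w : ℕ → R) (j : ℕ) : ℕ → B
  | 0 => u j
  | d + 1 => lwSuf a u w j d * a (w (j + 1 + d)) * u (j + 1 + d)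

theorem lw_pre (a : R → B) (u : ℕ → B) (w : ℕ → R) (j d : ℕ) :
    pre a u w (j + 1 + d) = pre a u w j * a (w j) * lwSuf a u w j d := by
  induction d with
  | zero => rfl
  | succ d ih => rw [← add_assoc, pre, ih, lwSuf]; simp only [mul_assoc]

theorem lw_suf_congr (a : R → B) (u : ℕ → B) {w w' : ℕ → R} (j d : ℕ)
    (h : ∀ k, j < k → w k = w' k) : lwSuf a u w j d = lwSuf a u w' j d := by
  induction d with
  | zero => rfl
  | succ d ih => rw [lwSuf, lwSuf, ih, h _ (by omega)]

theorem lw_suf_unitary {a : R → B} {u : ℕ → B} (ha : ∀ r, a r ∈ unitary B)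
    (hu : ∀ i, u i ∈ unitary B) (w : ℕ → R) (j d : ℕ) : lwSuf a u w j d ∈ unitary B := by
  induction d with
  | zero => exact hu _
  | succ d ih => exact mul_mem (mul_mem ih (ha _)) (hu _)

theorem lw_norm {x : B} (h : x ∈ unitary B) : ‖x‖ ≤ 1 := by
  nontriviality B
  exact (CStarRing.norm_of_mem_unitary h).le

/-- the labels of the links -/
def lwQ (m : ℕ) (P F : B) (t : ℕ) : B :=
  if Odd t ∨ (t = 0 ∧ Even m) then star P else F

theorem lwQ_unitary (m : ℕ) {P F : B} (hP : P ∈ unitary B) (hF : F ∈ unitary B) (t : ℕ) :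
    lwQ m P F t ∈ unitary B := by
  unfold lwQ
  split_ifs
  · exact Unitary.star_mem hP
  · exact hF

/-- the labelled tuple -/
def lwLab (m : ℕ) (P F : B) (b : ℕ → B) : ℕ → B :=
  lab id (fun t => star (lwQ m P F t)) (fun t => lwQ m P F (nx m t)) b

theorem lw_lab {m : ℕ} (hm : 1 ≤ m) {P : B} (hP : P ∈ unitary B) (F a y : B) {t : ℕ} (ht : t ≤ m) :
    lwLab m P F (tst m a y) t = tst m (P * a * F) (P * y * star P) t := by
  have q1 : ∀ s, Odd s → lwQ m P F s = star P := fun s hs => if_pos (Or.inl hs)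
  have q2 : ∀ s, Even s → s ≠ 0 → lwQ m P F s = F := fun s hs h0 =>
    if_neg fun h => h.elim (Nat.not_odd_iff_even.2 hs) fun h => h0 h.1
  have q3 : Even m → lwQ m P F 0 = star P := fun h => if_pos (Or.inr ⟨rfl, h⟩)
  have q4 : ¬ Even m → lwQ m P F 0 = F := fun h =>
    if_neg fun h' => h'.elim (by simp) fun h' => h h'.2
  simp only [lwLab, lab, id, tst]
  by_cases h0 : t = 0
  · subst h0
    rw [if_pos rfl, if_pos rfl, nx_lt (by omega), q1 (0 + 1) (by simp)]
    by_cases he : Even m
    · rw [if_pos he, if_pos he, q3 he, star_star]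
    · rw [if_neg he, if_neg he, q4 he]
      simp only [star_mul, mul_assoc]
      rw [← mul_assoc (star P) P, hP.1, one_mul]
  · rw [if_neg h0, if_neg h0]
    by_cases ho : Odd t
    · rw [if_pos ho, if_pos ho, q1 t ho, star_star]
      rcases ht.eq_or_lt with e | e
      · rw [e, nx_self, q4 (Nat.not_even_iff_odd.2 (e ▸ ho))]
      · rw [nx_lt e, q2 _ ho.add_one (by omega)]
    · have he := Nat.not_odd_iff_even.1 ho
      rw [if_neg ho, if_neg ho, q2 t he h0]
      rcases ht.eq_or_lt with e | e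
      · rw [e, nx_self, q3 (e ▸ he)]; simp only [star_mul, mul_assoc]
      · rw [nx_lt e, q1 _ he.add_one]; simp only [star_mul, mul_assoc]

theorem lw_tst (m : ℕ) (W y : B) :
    tst m W y = update (tst m W 0) 0 ((if Even m then 1 else star W) * y) := by
  funext t
  by_cases h : t = 0
  · subst h
    rw [update_self, tst, if_pos rfl]
    split_ifs <;> simp
  · rw [update_of_ne h, tst, tst, if_neg h, if_neg h]

variable {m : ℕ} {C : ℝ} {f : (ℕ → B) → ℂ}

theorem lw_lin (hf : Fm m C f) (W : B) : IsLinearMap ℂ fun y => f (tst m W y) := by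
  constructor
  · intro x y
    rw [lw_tst m W (x + y), lw_tst m W x, lw_tst m W y, mul_add, (hf.lin 0 m.zero_le _).1]
  · intro c x
    rw [lw_tst m W (c • x), lw_tst m W x, mul_smul_comm, (hf.lin 0 m.zero_le _).2]

theorem lw_bd (hf : Fm m C f) {z : B} (hz : ∀ x, z * x = x * z)
    (hfz : ∀ b, f (update b 0 (z * b 0)) = f b) {W : B} (hW : W ∈ unitary B) (y : B) :
    ‖f (tst m W y)‖ ≤ C * ‖z * y‖ := by
  rw [← hfz]
  refine (hf.bd_one m.zero_le fun t _ h0 => ?_).trans (mul_le_mul_of_nonneg_left ?_ hf.nn)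
  · rw [update_of_ne h0, tst, if_neg h0]
    split_ifs
    · exact lw_norm hW
    · exact lw_norm (Unitary.star_mem hW)
  · rw [update_self, tst, if_pos rfl]
    split_ifs
    · rfl
    · rw [← mul_assoc, hz, mul_assoc]
      exact (norm_mul_le _ _).trans
        (mul_le_of_le_one_left (norm_nonneg _) (lw_norm (Unitary.star_mem hW)))

theorem lw_sum [Fintype R] [DecidableEq R] {N : ℕ} (j : Fin N) (i : R) (φ : (Fin N → R) → ℂ) :
    ∑ w : Fin N → R, φ (update w j i) =
      Fintype.card R * ∑ w : Fin N → R, if w j = i then φ w else 0 := by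
  rw [← sum_fiberwise univ (fun w : Fin N → R => w j), ← sum_filter, ← nsmul_eq_mul,
    ← card_univ, ← sum_const]
  refine sum_congr rfl fun r _ => ?_
  refine sum_nbij' (fun w => update w j i) (fun w => update w j r) (fun w _ => by simp)
    (fun w _ => by simp) (fun w hw => ?_) (fun w hw => ?_) fun _ _ => rfl
  · rw [update_idem, ← (mem_filter.1 hw).2, update_eq_self]
  · rw [update_idem, ← (mem_filter.1 hw).2, update_eq_self]

theorem lw_wext {N : ℕ} [DecidableEq R] (r : R) (w : Fin N → R) (j : Fin N) (i : R) {k : ℕ}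
    (hk : k ≠ j) : wext r (update w j i) k = wext r w k := by
  unfold wext
  split_ifs with h
  · exact update_of_ne (fun e => hk (congrArg Fin.val e)) _ _
  · rfl

theorem lw_wext_self {N : ℕ} (r : R) (w : Fin N → R) (j : Fin N) : wext r w j = w j :=
  dif_pos j.2

/-- the long word lemma from the relabelling of links -/
theorem lw_of_link {C' : ℝ} (hf : Fm m C f) (hm : 1 ≤ m)
    (hl : ∀ s r : ℕ → B, (∀ t, ‖s t‖ ≤ 1) → (∀ t, ‖r t‖ ≤ 1) →
      (∀ t ≤ m, r t * s (nx m t) = 1) → Fac m C' fun b => f b - f (lab id s r b))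
    {z : B} (hz : ∀ x, z * x = x * z) (hfz : ∀ b, f (update b 0 (z * b 0)) = f b)
    {I : Type*} [Fintype R] [Nonempty R] {a : R → B} (ha : ∀ r, a r ∈ unitary B) {Y : I → R → B}
    {ε : ℝ} (hKP : KP a Y z ε) :
    ∃ g, Fac m C' g ∧ ∀ i, ‖∑ r, (f (tst m (a r) (Y i r)) - g (tst m (a r) (Y i r)))‖ ≤
      Fintype.card R * C * ε := by
  classical
  obtain ⟨N, hN, u, hu, H⟩ := hKP
  obtain ⟨r₀⟩ := id ‹Nonempty R›
  have : Nonempty (Fin N) := ⟨⟨0, hN⟩⟩
  let P : Fin N → (Fin N → R) → B := fun j w => pre a u (wext r₀ w) j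
  let F : Fin N → (Fin N → R) → B := fun j w => lwSuf a u (wext r₀ w) j (N - (j + 1))
  have hP : ∀ j w, P j w ∈ unitary B := fun j w => pre_unitary ha hu _ _
  have hF : ∀ j w, F j w ∈ unitary B := fun j w => lw_suf_unitary ha hu _ _ _
  have hPF : ∀ j w, P j w * a (w j) * F j w = pre a u (wext r₀ w) N := fun j w => by
    have := lw_pre a u (wext r₀ w) j (N - (j + 1))
    rw [lw_wext_self, show (j : ℕ) + 1 + (N - (j + 1)) = N by have := j.2; omega] at this
    exact this.symm
  have hPu : ∀ j w i, P j (update w j i) = P j w := fun j w i =>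
    pre_congr a _ (fun _ _ => rfl) fun k hk => lw_wext r₀ w j i hk.ne
  have hFu : ∀ j w i, F j (update w j i) = F j w := fun j w i =>
    lw_suf_congr a u _ _ fun k hk => lw_wext r₀ w j i hk.ne'
  have hg := FacLt.avg (ι := Fin N × (Fin N → R))
    (F := fun p b => f b - f (lwLab m (P p.1 p.2) (F p.1 p.2) b)) fun p =>
      hl _ _ (fun t => lw_norm (Unitary.star_mem (lwQ_unitary m (hP _ _) (hF _ _) t)))
        (fun t => lw_norm (lwQ_unitary m (hP _ _) (hF _ _) _))
        fun t _ => (lwQ_unitary m (hP _ _) (hF _ _) _).2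
  refine ⟨_, hg, fun i => ?_⟩
  have hNc : (N : ℂ) ≠ 0 := by exact_mod_cast hN.ne'
  have hRc : (Fintype.card R : ℂ) ≠ 0 := by simp
  have hRr : (0 : ℝ) < Fintype.card R := by simp [Fintype.card_pos]
  have e1 : ∀ j : Fin N, ∑ r, ∑ w : Fin N → R,
      f (lwLab m (P j w) (F j w) (tst m (a r) (Y i r))) =
      Fintype.card R * ∑ w : Fin N → R, f (tst m (pre a u (wext r₀ w) N)
        (P j w * Y i (w j) * star (P j w))) := fun j => by
    have e0 : ∀ r, ∑ w : Fin N → R, f (lwLab m (P j w) (F j w) (tst m (a r) (Y i r))) =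
        Fintype.card R * ∑ w : Fin N → R, if w j = r then f (tst m (pre a u (wext r₀ w) N)
          (P j w * Y i (w j) * star (P j w))) else 0 := fun r => by
      have := lw_sum j r fun w => f (lwLab m (P j w) (F j w) (tst m (a r) (Y i r)))
      simp only [hPu, hFu] at this
      rw [this]
      congr 1
      refine sum_congr rfl fun w _ => ?_
      split_ifs with e
      · rw [← hPF j w, e]
        exact hf.dep _ _ fun t ht => lw_lab hm (hP j w) _ _ _ ht
      · rfl
    simp only [e0]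
    rw [← mul_sum, sum_comm]
    simp only [sum_ite_eq, mem_univ, if_true]
  have e2 : ∀ w : Fin N → R, ∑ j : Fin N, f (tst m (pre a u (wext r₀ w) N)
      (P j w * Y i (w j) * star (P j w))) =
      N * f (tst m (pre a u (wext r₀ w) N) (avgS a (Y i) u N (wext r₀ w))) := fun w => by
    rw [avgS, (lw_lin hf _).2, smul_eq_mul, ← mul_assoc, mul_inv_cancel₀ hNc, one_mul,
      sum_range]
    simp only [lw_wext_self]
    exact (map_sum ((lw_lin hf _).mk' _) _ _).symm
  have e5 : ∀ b, f b - (Fintype.card (Fin N × (Fin N → R)) : ℂ)⁻¹ *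
      ∑ p : Fin N × (Fin N → R), (f b - f (lwLab m (P p.1 p.2) (F p.1 p.2) b)) =
      ((N : ℂ) * (Fintype.card R : ℂ) ^ N)⁻¹ *
        ∑ j : Fin N, ∑ w : Fin N → R, f (lwLab m (P j w) (F j w) b) := fun b => by
    rw [sum_sub_distrib, sum_const, card_univ, nsmul_eq_mul, Fintype.sum_prod_type,
      Fintype.card_prod, Fintype.card_fun, Fintype.card_fin]
    push_cast
    field_simp
    ring
  have e4 : ‖∑ w : Fin N → R, f (tst m (pre a u (wext r₀ w) N)
      (avgS a (Y i) u N (wext r₀ w)))‖ ≤ C * (ε * (Fintype.card R : ℝ) ^ N) := by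
    refine (norm_sum_le _ _).trans ((sum_le_sum fun w _ =>
      lw_bd hf hz hfz (pre_unitary ha hu _ _) _).trans ?_)
    rw [← mul_sum]
    exact mul_le_mul_of_nonneg_left (H r₀ i) hf.nn
  simp only [e5]
  rw [← mul_sum, sum_comm]
  simp only [e1]
  rw [← mul_sum, sum_comm]
  simp only [e2]
  rw [← mul_sum, norm_mul, norm_mul, norm_mul, norm_inv, norm_mul, norm_pow, Complex.norm_natCast,
    Complex.norm_natCast]
  have hNr : (0 : ℝ) < N := by exact_mod_cast hN
  refine (mul_le_mul_of_nonneg_left (mul_le_mul_of_nonneg_left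
    (mul_le_mul_of_nonneg_left e4 hNr.le) hRr.le) (by positivity)).trans (le_of_eq ?_)
  field_simp

end Pool.Agent.Lib.MP_08bba9_an.Co
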