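import Pool.Agent.Lib.MP_08bba9_an.Co.Seq

/-! Pointwise limits of facial forms are facial. -/

noncomputable section

namespace Pool.Agent.Lib.MP_08bba9_an.Co

open Finset Function Filter Topology

section general

variable {A : Type*} [SeminormedAddCommGroup A] [NormedSpace ℂ A] {m k : ℕ} {C D D' : ℝ}
  {f f' : (ℕ → A) → ℂ}

theorem Fm.lim {ι : Type*} {L : Filter ι} [L.NeBot] {F : ι → (ℕ → A) → ℂ}
    (hF : ∀ i, Fm m C (F i)) (h : ∀ a, Tendsto (fun i => F i a) L (𝓝 (f a))) : Fm m C f := by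
  obtain ⟨i₀⟩ := L.nonempty_of_neBot
  refine ⟨(hF i₀).nn, fun a b e => ?_, fun t ht a => ⟨fun x y => ?_, fun c x => ?_⟩, fun a => ?_⟩
  · exact tendsto_nhds_unique (h a) ((h b).congr fun i => ((hF i).dep a b e).symm)
  · exact tendsto_nhds_unique (h _) (((h _).add (h _)).congr fun i =>
      (((hF i).lin t ht a).1 x y).symm)
  · exact tendsto_nhds_unique (h _) (((h _).const_smul c).congr fun i =>
      (((hF i).lin t ht a).2 c x).symm)
  · exact le_of_tendsto (h a).norm (Eventually.of_forall fun i => (hF i).bd a)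

theorem Fm.continuous_update (h : Fm m C f) {t : ℕ} (ht : t ≤ m) (a : ℕ → A) :
    Continuous fun x => f (update a t x) := by
  refine AddMonoidHomClass.continuous_of_bound ((h.lin t ht a).mk' _)
    (C * ∏ i ∈ (range (m + 1)).erase t, ‖a i‖) fun x => ?_
  refine (h.bd (update a t x)).trans (le_of_eq ?_)
  rw [← mul_prod_erase _ _ (mem_range.2 (Nat.lt_succ_of_le ht)), update_self, mul_assoc,
    mul_comm ‖x‖, prod_congr rfl fun i hi => by rw [update_of_ne (ne_of_mem_erase hi)]]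

/-- forms that agree on tuples from a total set are equal -/
theorem Fm.ext_total (h : Fm m D f) (h' : Fm m D' f') {T : Set A} (hT0 : T.Nonempty)
    (hT : Dense (Submodule.span ℂ T : Set A)) (e : ∀ a, (∀ i, a i ∈ T) → f a = f' a) (a : ℕ → A) :
    f a = f' a := by
  have key : ∀ j ≤ m + 1, ∀ a : ℕ → A, (∀ i, j ≤ i → a i ∈ T) → f a = f' a := by
    intro j
    induction j with
    | zero => exact fun _ a ha => e a fun i => ha i i.zero_le
    | succ j ih =>
      intro hj a ha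
      have hj' : j ≤ m := by omega
      have e1 : ∀ x ∈ Submodule.span ℂ T, f (update a j x) = f' (update a j x) := fun x hx =>
        LinearMap.eqOn_span (f := (h.lin j hj' a).mk' _) (g := (h'.lin j hj' a).mk' _)
          (fun y hy => ih (by omega) _ fun i hi => by
            rcases hi.eq_or_lt with rfl | hi
            · rwa [update_self]
            · rw [update_of_ne hi.ne']; exact ha i hi) hx
      have e2 := Continuous.ext_on hT (h.continuous_update hj' a) (h'.continuous_update hj' a) e1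
      simpa using congrFun e2 (a j)
  obtain ⟨c, hc⟩ := hT0
  have e3 : ∀ i ≤ m, a i = (fun i => if i ≤ m then a i else c) i := fun i hi => by simp [hi]
  rw [h.dep _ _ e3, h'.dep _ _ e3]
  exact key _ le_rfl _ fun i hi => by rw [if_neg (by omega)]; exact hc

variable [Mul A]

/-- compactness of the set of facial forms -/
theorem facLt_lim (hf : Fm m D f) {T : Set A} (hT0 : T.Nonempty)
    (hT : Dense (Submodule.span ℂ T : Set A))
    (h : ∀ S : Finset (ℕ → A), (∀ a ∈ S, ∀ i, a i ∈ T) → ∀ ε : ℝ, 0 < ε →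
      ∃ g, FacLt m k C g ∧ ∀ a ∈ S, ‖f a - g a‖ ≤ ε) : FacLt m k C f := by
  classical
  have h1 : ∀ p : Finset {a : ℕ → A // ∀ i, a i ∈ T} × ℕ, ∃ g : ℕ → (ℕ → A) → ℂ,
      (∀ l, Fm m C (g l) ∧ Bal m l (g l)) ∧
        ∀ a ∈ p.1, ‖f a.1 - ∑ l ∈ range k, g l a.1‖ ≤ 1 / ((p.2 : ℝ) + 1) := by
    intro p
    obtain ⟨g, ⟨G, k1, k2⟩, k3⟩ := h (p.1.image Subtype.val) (fun a ha => by
      obtain ⟨b, -, rfl⟩ := mem_image.1 ha
      exact b.2) _ (Nat.one_div_pos_of_nat (n := p.2))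
    exact ⟨G, k1, fun a ha => by rw [← k2]; exact k3 _ (mem_image_of_mem _ ha)⟩
  choose g g1 g2 using h1
  let 𝒰 : Ultrafilter (Finset {a : ℕ → A // ∀ i, a i ∈ T} × ℕ) := Ultrafilter.of atTop
  have hU : (𝒰 : Filter (Finset {a : ℕ → A // ∀ i, a i ∈ T} × ℕ)) ≤ atTop :=
    Ultrafilter.of_le _
  have h2 : ∀ l a, ∃ z, Tendsto (fun p => g p l a) 𝒰 (𝓝 z) := fun l a => by
    obtain ⟨z, -, hz⟩ := (isCompact_closedBall (0 : ℂ)
      (C * ∏ i ∈ range (m + 1), ‖a i‖)).ultrafilter_le_nhds (𝒰.map fun p => g p l a) (by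
        rw [le_principal_iff, Ultrafilter.coe_map, Filter.mem_map]
        exact Eventually.of_forall fun p => mem_closedBall_zero_iff.2 ((g1 p l).1.bd a))
    exact ⟨z, hz⟩
  choose G hG using h2
  have hm : ∀ l, Fm m C (G l) := fun l => Fm.lim (fun p => (g1 p l).1) (hG l)
  refine ⟨G, fun l => ⟨hm l, fun a c => tendsto_nhds_unique (hG l _)
    ((hG l _).congr fun p => ((g1 p l).2 a c).symm)⟩, ?_⟩
  refine hf.ext_total (Fm.sum (range k) fun l _ => hm l) hT0 hT fun a ha => ?_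
  refine tendsto_nhds_unique ?_ (tendsto_finsetSum (range k) fun l _ => hG l a)
  refine Tendsto.mono_left ?_ hU
  rw [tendsto_iff_norm_sub_tendsto_zero]
  have t1 : Tendsto (fun p : Finset {a : ℕ → A // ∀ i, a i ∈ T} × ℕ => 1 / ((p.2 : ℝ) + 1))
      atTop (𝓝 0) := by
    rw [← prod_atTop_atTop_eq]
    exact tendsto_one_div_add_atTop_nhds_zero_nat.comp tendsto_snd
  refine squeeze_zero' (Eventually.of_forall fun _ => norm_nonneg _) ?_ t1
  filter_upwards [eventually_ge_atTop (({⟨a, ha⟩}, 0) : Finset {a : ℕ → A // ∀ i, a i ∈ T} × ℕ)]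
    with p hp
  rw [norm_sub_rev]
  exact g2 p ⟨a, ha⟩ (hp.1 (mem_singleton_self _))

theorem fac_lim (hf : Fm m D f) {T : Set A} (hT0 : T.Nonempty)
    (hT : Dense (Submodule.span ℂ T : Set A))
    (h : ∀ S : Finset (ℕ → A), (∀ a ∈ S, ∀ i, a i ∈ T) → ∀ ε : ℝ, 0 < ε →
      ∃ g, Fac m C g ∧ ∀ a ∈ S, ‖f a - g a‖ ≤ ε) : Fac m C f := facLt_lim hf hT0 hT h

end general

/-- it is enough to approximate on tuples of unitaries -/
theorem fac_lim_unitary {A : Type*} [CStarAlgebra A] {m : ℕ} {C D : ℝ} {f : (ℕ → A) → ℂ}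
    (hf : Fm m D f) (h : ∀ S : Finset (ℕ → A), (∀ a ∈ S, ∀ i, a i ∈ unitary A) → ∀ ε : ℝ, 0 < ε →
      ∃ g, Fac m C g ∧ ∀ a ∈ S, ‖f a - g a‖ ≤ ε) : Fac m C f := by
  refine fac_lim hf (T := (unitary A : Set A)) ⟨1, one_mem _⟩ ?_ h
  rw [CStarAlgebra.span_unitary]
  exact dense_univ

end Pool.Agent.Lib.MP_08bba9_an.Co
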