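import Pool.Agent.Lib.MP_08bba9_an.Co.Seq

/-! The prism: a cocycle changes by a facial form when the links are labelled. -/

noncomputable section

namespace Pool.Agent.Lib.MP_08bba9_an.Co

open Finset Function

variable {B : Type*} [NormedRing B] [NormedAlgebra ℂ B] {m : ℕ} {C : ℝ} {f : (ℕ → B) → ℂ}

theorem Fm.labId (h : Fm m C f) {s r : ℕ → B} (hs : ∀ t ≤ m, ‖s t‖ ≤ 1) (hr : ∀ t ≤ m, ‖r t‖ ≤ 1) :
    Fm m C fun b => f (lab id s r b) :=
  h.comp (L := fun t x => s t * x * r t)
    (fun t => ⟨fun x y => by rw [mul_add, add_mul], fun c x => by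
      rw [mul_smul_comm, smul_mul_assoc]⟩)
    fun t ht x => by
      refine (norm_mul_le _ _).trans ((mul_le_of_le_one_right (norm_nonneg _) (hr t ht)).trans ?_)
      exact (norm_mul_le _ _).trans (mul_le_of_le_one_left (norm_nonneg _) (hs t ht))

omit [NormedAlgebra ℂ B] in
theorem Bal.labId {l : ℕ} (h : Bal m l f) (hm : 1 ≤ m) {s r : ℕ → B} (e : r l * s (nx m l) = 1) :
    Bal m l fun b => f (lab id s r b) := by
  intro b c
  have hn : nx m l ≠ l := nx_ne hm
  let y : ℕ → B := update (update (lab id s r b) l (s l * b l)) (nx m l) (b (nx m l) * r (nx m l))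
  have h1 := h (update y l (s l * b l * c * r l)) (s (nx m l))
  have h2 := h (update (update y l (s l * b l * r l)) (nx m l) (c * y (nx m l))) (s (nx m l))
  have h3 := h y c
  have e1 : lab id s r (update b l (b l * c)) = update (update y l (s l * b l * c * r l)) (nx m l)
      (s (nx m l) * update y l (s l * b l * c * r l) (nx m l)) := by
    funext t
    by_cases t1 : t = nx m l
    · subst t1; simp [lab, y, hn, mul_assoc]
    · by_cases t2 : t = l
      · subst t2; simp [lab, t1, mul_assoc]
      · simp [lab, y, t1, t2]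
  have e2 : lab id s r (update b (nx m l) (c * b (nx m l))) =
      update (update (update y l (s l * b l * r l)) (nx m l) (c * y (nx m l))) (nx m l)
      (s (nx m l) * update (update y l (s l * b l * r l)) (nx m l) (c * y (nx m l)) (nx m l)) := by
    funext t
    by_cases t1 : t = nx m l
    · subst t1; simp [lab, y, mul_assoc]
    · by_cases t2 : t = l
      · subst t2; simp [lab, t1, mul_assoc]
      · simp [lab, y, t1, t2]
  dsimp only
  rw [e1, e2, ← h1, ← h2]
  refine Eq.trans (congrArg f ?_) (h3.trans (congrArg f ?_))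
  · funext t
    by_cases t2 : t = l
    · subst t2; simp [y, hn.symm, mul_assoc, e]
    · simp [t2]
  · funext t
    by_cases t2 : t = l
    · subst t2; simp [y, hn.symm, mul_assoc, e]
    · by_cases t1 : t = nx m l
      · subst t1; simp [hn]
      · simp [t1, t2]

theorem Fac.labId (h : Fac m C f) (hm : 1 ≤ m) {s r : ℕ → B} (hs : ∀ t ≤ m, ‖s t‖ ≤ 1)
    (hr : ∀ t ≤ m, ‖r t‖ ≤ 1) (e : ∀ t ≤ m, r t * s (nx m t) = 1) :
    Fac m C fun b => f (lab id s r b) := by
  obtain ⟨g, h1, h2⟩ := h
  refine ⟨fun l => if l ≤ m then fun b => g l (lab id s r b) else fun _ => 0, fun l => ?_,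
    fun b => (h2 _).trans (sum_congr rfl fun l hl => ?_)⟩
  · dsimp only
    split_ifs with hl
    · exact ⟨(h1 l).1.labId hs hr, (h1 l).2.labId hm (e l hl)⟩
    · exact ⟨Fm.zero (h1 0).1.nn, fun _ _ => rfl⟩
  · simp [Nat.lt_succ_iff.1 (mem_range.1 hl)]

/-- all the faces -/
def fc (m i : ℕ) (a : ℕ → B) : ℕ → B := if i ≤ m then ct i a else wr (m + 1) a

omit [NormedAlgebra ℂ B] in
theorem cb_fc (a : ℕ → B) : cb m f a = ∑ i ∈ range (m + 2), (-1) ^ i * f (fc m i a) := by
  rw [sum_range_succ _ (m + 1), cb, fc, if_neg (by omega)]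
  congr 1
  exact sum_congr rfl fun i hi => by rw [fc, if_pos (Nat.lt_succ_iff.1 (mem_range.1 hi))]

theorem Fm.fc (h : Fm m C f) {i : ℕ} (hi : i ≤ m + 1) :
    Fm (m + 1) C (fun a => f (fc m i a)) ∧ Bal (m + 1) i fun a => f (fc m i a) := by
  unfold Co.fc
  split_ifs with e
  · exact ⟨h.ct e, bal_ct e f⟩
  · obtain rfl : i = m + 1 := by omega
    exact ⟨h.wr, h.bal_wr⟩

theorem link_one (hf : Fm m C f) (hc : ∀ b, cb m f b = 0) (hm : 1 ≤ m) {l : ℕ} (hl : l ≤ m)
    {p q : B} (hp : ‖p‖ ≤ 1) (hq : ‖q‖ ≤ 1) (h1 : ‖(1 : B)‖ ≤ 1) (e : p * q = 1) :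
    Fac m ((m + 2) * C) fun y => f y - f (lab id (update 1 (nx m l) q) (update 1 l p) y) := by
  let z : (ℕ → B) → ℕ → B := fun y => ins (l + 1) q (lab id 1 (update 1 l p) y)
  have hz : ∀ y k, z y k = if k < l then y k else if k = l then y l * p else
      if k = l + 1 then q else y (k - 1) := fun y k => by
    simp only [z, ins, lab, update_apply, id, Pi.one_apply, one_mul]
    split_ifs <;> first | omega | (subst_vars; simp)
  have hF : ∀ i ≤ m + 1, Fm m C fun y => f (fc m i (z y)) := fun i hi =>
    (((hf.fc hi).1.ins (i := l + 1) (by omega) q).labId (s := 1) (r := update 1 l p)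
      (fun _ _ => h1) fun t _ => by rw [update_apply]; split_ifs <;> assumption).mono
      (mul_le_of_le_one_right hf.nn hq)
  have hB : ∀ i ≤ m + 1, i ≠ l → i ≠ l + 1 → Fac m C fun y => f (fc m i (z y)) := by
    intro i hi i1 i2
    have hb := (hf.fc hi).2
    have hu : ∀ (y : ℕ → B) (j : ℕ) (x : B), j ≠ l →
        z (update y j x) = update (z y) (if j < l then j else j + 1) x := fun y j x hj => by
      funext k
      simp only [hz, update_apply]
      split_ifs <;> first | rfl | omega
    rcases lt_or_gt_of_ne i1 with i3 | i3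
    · refine FacLt.of_bal (l := i) (hF i hi) (fun y c => ?_) (by omega)
      have := hb (z y) c
      rw [nx_lt (by omega)] at this ⊢
      dsimp only at this ⊢
      rw [hu _ _ _ i1, if_pos i3, show y i = z y i by rw [hz, if_pos i3], this]
      refine congrArg (fun a => f (fc m i a)) (funext fun k => ?_)
      simp only [hz, update_apply]
      split_ifs <;> first | rfl | omega | (subst_vars; simp [mul_assoc])
    · refine FacLt.of_bal (l := i - 1) (hF i hi) (fun y c => ?_) (by omega)
      have := hb (z y) c
      dsimp only at this ⊢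
      rw [hu _ _ _ (by omega), if_neg (by omega), show i - 1 + 1 = i by omega,
        show y (i - 1) = z y i by rw [hz, if_neg (by omega), if_neg i1, if_neg i2], this]
      refine congrArg (fun a => f (fc m i a)) ?_
      by_cases i4 : i = m + 1
      · subst i4
        rw [nx_self, Nat.add_sub_cancel, nx_self]
        funext k
        simp only [hz, update_apply]
        split_ifs <;> first | rfl | omega | (subst_vars; simp [mul_assoc])
      · rw [nx_lt (by omega), nx_lt (by omega), show i - 1 + 1 = i by omega, hu _ _ _ i1,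
          if_neg (by omega), hz, if_neg (by omega), if_neg (by omega), if_neg (by omega)]
        rfl
  have e1 : ∀ y, f (fc m l (z y)) = f y := fun y => by
    rw [fc, if_pos hl]
    refine congrArg f (funext fun k => ?_)
    simp only [ct, hz]
    split_ifs <;> first | rfl | omega | (subst_vars; simp [mul_assoc, e])
  have e2 : ∀ y, f (fc m (l + 1) (z y)) =
      f (lab id (update 1 (nx m l) q) (update 1 l p) y) := fun y => by
    refine hf.dep _ _ fun k hk => ?_
    simp only [fc, ct, wr, hz, lab, update_apply, nx, id, Pi.one_apply, ite_apply]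
    split_ifs <;> first | rfl | omega | (subst_vars; simp [mul_assoc, e])
  let S := ((range (m + 2)).erase l).erase (l + 1)
  have hS := (FacLt.sum S (D := fun _ => C) fun i hi => by
    simp only [S, mem_erase, mem_range] at hi
    exact (hB i (by omega) hi.2.1 hi.1).sign i).sign (l + 1)
  refine (hS.mono ?_).congr fun y => ?_
  · rw [sum_const, nsmul_eq_mul]
    refine mul_le_mul_of_nonneg_right ?_ hf.nn
    exact_mod_cast (card_erase_le.trans card_erase_le).trans (card_range _).le
  · have := hc (z y)
    rw [cb_fc, ← add_sum_erase _ _ (show l ∈ range (m + 2) by simp; omega),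
      ← add_sum_erase _ _ (show l + 1 ∈ (range (m + 2)).erase l by simp; omega), e1, e2] at this
    have e3 : ((-1 : ℂ) ^ l) * (-1) ^ l = 1 := by rw [← mul_pow]; simp
    rw [pow_succ] at this ⊢
    generalize f (lab id (update 1 (nx m l) q) (update 1 l p) y) = w at this ⊢
    linear_combination (-1) ^ l * this - (f y - w) * e3

theorem link (hf : Fm m C f) (hc : ∀ b, cb m f b = 0) (hm : 1 ≤ m) (h1 : ‖(1 : B)‖ ≤ 1)
    {s r : ℕ → B} (hs : ∀ t ≤ m, ‖s t‖ ≤ 1) (hr : ∀ t ≤ m, ‖r t‖ ≤ 1)
    (e : ∀ t ≤ m, r t * s (nx m t) = 1) :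
    Fac m ((m + 1) * ((m + 2) * C)) fun b => f b - f (lab id s r b) := by
  let S : ℕ → ℕ → B := fun k t => if (if t = 0 then m else t - 1) < k then s t else 1
  let R : ℕ → ℕ → B := fun k t => if t < k then r t else 1
  have key : ∀ k ≤ m + 1, Fac m (k * ((m + 2) * C)) fun b => f b - f (lab id (S k) (R k) b) := by
    intro k hk
    induction k with
    | zero =>
      refine (FacLt.zero (by simp)).congr fun b => sub_eq_zero.2 (congrArg f (funext fun t => ?_))
      simp [lab, S, R]
    | succ k ih =>
      have h2 := (link_one hf hc hm (l := k) (by omega) (hr k (by omega))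
        (hs _ (nx_le (by omega))) h1 (e k (by omega))).labId hm (s := S k) (r := R k)
        (fun t ht => by simp only [S]; split_ifs <;> first | exact hs t ht | exact h1)
        (fun t ht => by simp only [R]; split_ifs <;> first | exact hr t ht | exact h1)
        fun t ht => by
          have := e t ht
          simp only [S, R, nx] at this ⊢
          split_ifs at this ⊢ <;> first | exact this | omega | exact one_mul 1 | contradiction
      refine (((ih (by omega)).add h2).mono (le_of_eq (by push_cast; ring))).congr fun b => ?_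
      rw [sub_add_sub_cancel]
      refine congrArg _ (hf.dep _ _ fun t ht => ?_)
      simp only [lab, S, R, update_apply, nx, id, Pi.one_apply]
      split_ifs <;> first | rfl | omega | (subst_vars; simp [mul_assoc, e])
  refine ((key _ le_rfl).mono (le_of_eq (by push_cast; ring))).congr fun b => ?_
  refine congrArg _ (hf.dep _ _ fun t ht => ?_)
  simp only [lab, S, R]
  split_ifs <;> first | rfl | omega

end Pool.Agent.Lib.MP_08bba9_an.Co
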