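import Pool.Agent.Lib.MP_08bba9_an.Co.Defs

/-! Sums of values of a bounded form on orthogonal families. -/

noncomputable section

namespace Pool.Agent.Lib.MP_08bba9_an.Co

open Finset Function

namespace Orth

theorem sign_sum {ι : Type*} [Fintype ι] [DecidableEq ι] {i j : ι} (h : i ≠ j) :
    ∑ σ : ι → ℤˣ, ((σ i : ℤ) : ℂ) * ((σ j : ℤ) : ℂ) = 0 := by
  have e := Equiv.sum_comp (Equiv.mulLeft (Pi.mulSingle i (-1 : ℤˣ) : ι → ℤˣ))
    fun σ : ι → ℤˣ => ((σ i : ℤ) : ℂ) * ((σ j : ℤ) : ℂ)
  simp only [Equiv.coe_mulLeft, Pi.mul_apply, Pi.mulSingle_eq_same, Pi.mulSingle_eq_of_ne h.symm,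
    one_mul, neg_mul, Units.val_neg, Int.cast_neg, sum_neg_distrib] at e
  linear_combination -e / 2

theorem sign_sq (u : ℤˣ) : ((u : ℤ) : ℂ) * ((u : ℤ) : ℂ) = 1 := by
  rcases Int.units_eq_one_or u with rfl | rfl <;> simp

theorem sign_norm (u : ℤˣ) : ‖((u : ℤ) : ℂ)‖ = 1 := by
  rcases Int.units_eq_one_or u with rfl | rfl <;> simp

theorem diag_le {ι : Type*} [Fintype ι] (F : ι → ι → ℂ) {K : ℝ}
    (h : ∀ σ : ι → ℂ, (∀ i, ‖σ i‖ = 1) → ‖∑ i, ∑ j, σ i * σ j * F i j‖ ≤ K) :
    ‖∑ i, F i i‖ ≤ K := by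
  classical
  have e : ∑ σ : ι → ℤˣ, ∑ i, ∑ j, ((σ i : ℤ) : ℂ) * ((σ j : ℤ) : ℂ) * F i j =
      (Fintype.card (ι → ℤˣ) : ℂ) * ∑ i, F i i := by
    rw [sum_comm, mul_sum]
    refine sum_congr rfl fun i _ => ?_
    rw [sum_comm, sum_eq_single i (fun j _ hj => by rw [← sum_mul, sign_sum hj.symm, zero_mul])
      (by simp)]
    simp [sign_sq]
  have b := (norm_sum_le _ _).trans (sum_le_card_nsmul univ _ K fun (σ : ι → ℤˣ) _ =>
    h (fun i => ((σ i : ℤ) : ℂ)) fun i => sign_norm _)
  rw [e, norm_mul, Complex.norm_natCast, card_univ, nsmul_eq_mul] at b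
  exact le_of_mul_le_mul_left b (by exact_mod_cast Fintype.card_pos)

end Orth

variable {A : Type*} [NormedRing A] [NormedAlgebra ℂ A] {m : ℕ} {C : ℝ} {f : (ℕ → A) → ℂ}

theorem Fm.orth (h : Fm m C f) {ι : Type*} [Fintype ι] (y : ℕ → ι → A) (M : ℕ → ℝ)
    (hM : ∀ t ≤ m, ∀ ε : ι → ℂ, (∀ i, ‖ε i‖ ≤ 1) → ‖∑ i, ε i • y t i‖ ≤ M t) :
    ∑ i, ‖f fun t => y t i‖ ≤ C * ∏ t ∈ range (m + 1), M t := by
  have key : ∀ k ≤ m, ∀ ε : ι → ℂ, (∀ i, ‖ε i‖ ≤ 1) → ∀ b : ℕ → A,
      (∀ t ≤ m, k < t → ‖b t‖ ≤ M t) →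
      ‖∑ i, ε i * f fun t => if t ≤ k then y t i else b t‖ ≤ C * ∏ t ∈ range (m + 1), M t := by
    intro k
    induction k with
    | zero =>
      intro _ ε hε b hb
      have e : ∀ i, (fun t => if t ≤ 0 then y t i else b t) = update b 0 (y 0 i) := fun i =>
        funext fun t => by
          rcases Nat.eq_zero_or_pos t with rfl | ht
          · simp
          · rw [if_neg (by omega), update_of_ne (by omega)]
      simp only [e, ← h.map_smul m.zero_le, ← h.map_sum m.zero_le]
      refine h.bd' fun t ht => ?_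
      rcases Nat.eq_zero_or_pos t with rfl | h0
      · rw [update_self]; exact hM 0 ht ε hε
      · rw [update_of_ne (by omega)]; exact hb t ht h0
    | succ k ih =>
      intro hk ε hε b hb
      have e : ∀ i x, (fun t => if t ≤ k then y t i else update b (k + 1) x t) =
          update (fun t => if t ≤ k then y t i else b t) (k + 1) x := fun i x => funext fun t => by
        simp only [update_apply]
        split_ifs <;> first | rfl | omega
      have e' : ∀ i, (fun t => if t ≤ k + 1 then y t i else b t) =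
          update (fun t => if t ≤ k then y t i else b t) (k + 1) (y (k + 1) i) :=
        fun i => funext fun t => by
          simp only [update_apply]
          split_ifs with h1 h2 <;> first | rfl | omega | rw [h2]
      simp only [e']
      refine Orth.diag_le (fun i j => ε i *
        f (update (fun t => if t ≤ k then y t i else b t) (k + 1) (y (k + 1) j))) fun σ hσ => ?_
      have := ih (by omega) (fun i => σ i * ε i)
        (fun i => by rw [norm_mul, hσ, one_mul]; exact hε i)
        (update b (k + 1) (∑ j, σ j • y (k + 1) j)) fun t ht hkt => by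
          rcases eq_or_ne t (k + 1) with rfl | h1
          · rw [update_self]; exact hM _ ht σ fun i => (hσ i).le
          · rw [update_of_ne h1]; exact hb t ht (by omega)
      simp only [e, h.map_sum hk, h.map_smul hk, mul_sum] at this
      refine le_of_eq_of_le (congrArg _ ?_) this
      exact sum_congr rfl fun i _ => sum_congr rfl fun j _ => by ring
  choose ε h1 h2 using fun i => Complex.exists_norm_eq_mul_self (f fun t => y t i)
  have := key m le_rfl ε (fun i => (h1 i).le) (fun _ => 0) fun t a b => by omega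
  have e : ∀ i, (f fun t => if t ≤ m then y t i else 0) = f fun t => y t i := fun i =>
    h.dep _ _ fun t ht => if_pos ht
  simp only [e, ← h2] at this
  rw [← Complex.ofReal_sum, Complex.norm_real] at this
  exact (le_abs_self _).trans this

end Pool.Agent.Lib.MP_08bba9_an.Co
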