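import Mathlib

/-! Bounded multilinear forms as functions on sequences, faces, balanced and facial forms. -/

noncomputable section

namespace Pool.Agent.Lib.MP_08bba9_an.Co

open Finset Function

section defs

variable {A B : Type*}

/-- multiply the entries `l` and `l + 1` -/
def ct [Mul A] (l : ℕ) (a : ℕ → A) : ℕ → A := fun k =>
  if k < l then a k else if k = l then a l * a (l + 1) else a (k + 1)

/-- multiply the entry `m` into the entry `0` from the left -/
def wr [Mul A] (m : ℕ) (a : ℕ → A) : ℕ → A := fun k => if k = 0 then a m * a 0 else a k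

/-- insert `c` at the place `i` -/
def ins (i : ℕ) (c : A) (a : ℕ → A) : ℕ → A := fun k =>
  if k < i then a k else if k = i then c else a (k - 1)

/-- the slot after `l` among `0, …, m`, cyclically -/
def nx (m l : ℕ) : ℕ := if l = m then 0 else l + 1

/-- the Hochschild coboundary of a form in the entries `0, …, m` -/
def cb [Mul A] (m : ℕ) (f : (ℕ → A) → ℂ) (a : ℕ → A) : ℂ :=
  ∑ l ∈ range (m + 1), (-1) ^ l * f (ct l a) + (-1) ^ (m + 1) * f (wr (m + 1) a)

/-- balanced at the link between the slots `l` and `nx m l` -/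
def Bal [Mul A] (m l : ℕ) (f : (ℕ → A) → ℂ) : Prop :=
  ∀ a c, f (update a l (a l * c)) = f (update a (nx m l) (c * a (nx m l)))

/-- left labels `s`, right labels `r` -/
def lab [Mul B] (j : A → B) (s r : ℕ → B) (a : ℕ → A) : ℕ → B := fun t => s t * j (a t) * r t

/-- bounded multilinear forms in the entries `0, …, m` -/
structure Fm [SeminormedAddCommGroup A] [Module ℂ A] (m : ℕ) (C : ℝ) (f : (ℕ → A) → ℂ) :
    Prop where
  nn : 0 ≤ C
  dep : ∀ a b, (∀ i ≤ m, a i = b i) → f a = f b
  lin : ∀ i ≤ m, ∀ a, IsLinearMap ℂ fun x => f (update a i x)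
  bd : ∀ a, ‖f a‖ ≤ C * ∏ i ∈ range (m + 1), ‖a i‖

/-- sums of forms balanced at the links below `k` -/
def FacLt [SeminormedAddCommGroup A] [Module ℂ A] [Mul A] (m k : ℕ) (C : ℝ) (f : (ℕ → A) → ℂ) :
    Prop :=
  ∃ g : ℕ → (ℕ → A) → ℂ, (∀ l, Fm m C (g l) ∧ Bal m l (g l)) ∧ ∀ a, f a = ∑ l ∈ range k, g l a

/-- facial forms -/
def Fac [SeminormedAddCommGroup A] [Module ℂ A] [Mul A] (m : ℕ) (C : ℝ) (f : (ℕ → A) → ℂ) : Prop :=
  FacLt m (m + 1) C f

theorem nx_le {m l : ℕ} (h : l ≤ m) : nx m l ≤ m := by unfold nx; split_ifs <;> omega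

theorem nx_ne {m l : ℕ} (hm : 1 ≤ m) : nx m l ≠ l := by unfold nx; split_ifs <;> omega

theorem nx_lt {m l : ℕ} (h : l < m) : nx m l = l + 1 := if_neg h.ne

theorem nx_self (m : ℕ) : nx m m = 0 := if_pos rfl

end defs

section basic

variable {A B : Type*} [SeminormedAddCommGroup A] [Module ℂ A] [SeminormedAddCommGroup B]
  [Module ℂ B] {m k : ℕ} {C C' : ℝ} {f f' : (ℕ → A) → ℂ}

namespace Fm

theorem mono (h : Fm m C f) (hC : C ≤ C') : Fm m C' f :=
  ⟨h.nn.trans hC, h.dep, h.lin, fun a => (h.bd a).trans (by gcongr)⟩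

theorem zero (hC : 0 ≤ C) : Fm m C (fun _ : ℕ → A => 0) :=
  ⟨hC, fun _ _ _ => rfl, fun _ _ _ => ⟨by simp, by simp⟩, fun a => by simp; positivity⟩

theorem add (h : Fm m C f) (h' : Fm m C' f') : Fm m (C + C') fun a => f a + f' a :=
  ⟨add_nonneg h.nn h'.nn, fun a b e => by rw [h.dep a b e, h'.dep a b e],
    fun i hi a => ⟨fun x y => by rw [(h.lin i hi a).1, (h'.lin i hi a).1]; ring,
      fun c x => by rw [(h.lin i hi a).2, (h'.lin i hi a).2, smul_add]⟩,
    fun a => (norm_add_le _ _).trans (by rw [add_mul]; exact add_le_add (h.bd a) (h'.bd a))⟩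

theorem smul (h : Fm m C f) (c : ℂ) : Fm m (‖c‖ * C) fun a => c * f a :=
  ⟨mul_nonneg (norm_nonneg _) h.nn, fun a b e => by rw [h.dep a b e],
    fun i hi a => ⟨fun x y => by rw [(h.lin i hi a).1]; ring,
      fun d x => by rw [(h.lin i hi a).2, smul_eq_mul, smul_eq_mul]; ring⟩,
    fun a => by rw [norm_mul, mul_assoc]; gcongr; exact h.bd a⟩

theorem sign (h : Fm m C f) (l : ℕ) : Fm m C fun a => (-1) ^ l * f a := by
  simpa using h.smul ((-1) ^ l)

theorem neg (h : Fm m C f) : Fm m C fun a => -f a := by simpa using h.smul (-1)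

theorem sub (h : Fm m C f) (h' : Fm m C' f') : Fm m (C + C') fun a => f a - f' a := by
  simpa [sub_eq_add_neg] using h.add h'.neg

theorem sum {ι : Type*} (s : Finset ι) {D : ι → ℝ} {F : ι → (ℕ → A) → ℂ}
    (h : ∀ i ∈ s, Fm m (D i) (F i)) : Fm m (∑ i ∈ s, D i) fun a => ∑ i ∈ s, F i a := by
  classical
  induction s using Finset.induction_on with
  | empty => simpa using zero le_rfl
  | insert i s hi ih =>
    simp only [sum_insert hi]
    exact (h i (mem_insert_self _ _)).add (ih fun j hj => h j (mem_insert_of_mem hj))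

theorem map_zero (h : Fm m C f) {i : ℕ} (hi : i ≤ m) {a : ℕ → A} (e : a i = 0) : f a = 0 := by
  have := (h.lin i hi a).map_zero
  rwa [← e, update_eq_self] at this

theorem map_sum (h : Fm m C f) {i : ℕ} (hi : i ≤ m) (a : ℕ → A) {ι : Type*} (s : Finset ι)
    (x : ι → A) : f (update a i (∑ j ∈ s, x j)) = ∑ j ∈ s, f (update a i (x j)) :=
  _root_.map_sum ((h.lin i hi a).mk' _) x s

theorem map_smul (h : Fm m C f) {i : ℕ} (hi : i ≤ m) (a : ℕ → A) (c : ℂ) (x : A) :
    f (update a i (c • x)) = c * f (update a i x) := (h.lin i hi a).2 c x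

/-- bound by a product of bounds of the entries -/
theorem bd' (h : Fm m C f) {a : ℕ → A} {M : ℕ → ℝ} (e : ∀ i ≤ m, ‖a i‖ ≤ M i) :
    ‖f a‖ ≤ C * ∏ i ∈ range (m + 1), M i :=
  (h.bd a).trans (mul_le_mul_of_nonneg_left (prod_le_prod (fun _ _ => norm_nonneg _)
    fun i hi => e i (by simpa [Nat.lt_succ_iff] using hi)) h.nn)

/-- bound for entries in the unit ball except the entry `i` -/
theorem bd_one (h : Fm m C f) {i : ℕ} (hi : i ≤ m) {a : ℕ → A}
    (e : ∀ t ≤ m, t ≠ i → ‖a t‖ ≤ 1) : ‖f a‖ ≤ C * ‖a i‖ := by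
  refine (h.bd' (M := fun t => if t = i then ‖a i‖ else 1) fun t ht => ?_).trans ?_
  · split_ifs with e'
    · rw [e']
    · exact e t ht e'
  · rw [prod_ite_eq' , if_pos (by simpa [Nat.lt_succ_iff] using hi)]

/-- composition with contractive linear maps, entry by entry -/
theorem comp {g : (ℕ → B) → ℂ} (h : Fm m C g) {L : ℕ → A → B} (hL : ∀ t, IsLinearMap ℂ (L t))
    (hn : ∀ t ≤ m, ∀ x, ‖L t x‖ ≤ ‖x‖) : Fm m C fun a => g fun t => L t (a t) := by
  refine ⟨h.nn, fun a b e => h.dep _ _ fun i hi => by rw [e i hi], fun i hi a => ?_,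
    fun a => h.bd' fun i hi => hn i hi _⟩
  have e : ∀ x, (fun t => L t (update a i x t)) = update (fun t => L t (a t)) i (L i x) :=
    fun x => funext fun t => by
      by_cases e : t = i
      · subst e; simp
      · simp [e]
  simp only [e]
  exact ⟨fun x y => by rw [(hL i).1, (h.lin i hi _).1],
    fun c x => by rw [(hL i).2, (h.lin i hi _).2]⟩

end Fm

variable [Mul A]

omit [SeminormedAddCommGroup A] [Module ℂ A] in
theorem Bal.add {l : ℕ} (h : Bal m l f) (h' : Bal m l f') : Bal m l fun a => f a + f' a :=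
  fun a c => by dsimp only; rw [h a c, h' a c]

omit [SeminormedAddCommGroup A] [Module ℂ A] in
theorem Bal.smul {l : ℕ} (h : Bal m l f) (d : ℂ) : Bal m l fun a => d * f a :=
  fun a c => by dsimp only; rw [h a c]

namespace FacLt

theorem congr (h : FacLt m k C f) (e : ∀ a, f' a = f a) : FacLt m k C f' := by
  rwa [funext e]

theorem mono (h : FacLt m k C f) (hC : C ≤ C') : FacLt m k C' f := by
  obtain ⟨g, h1, h2⟩ := h
  exact ⟨g, fun l => ⟨(h1 l).1.mono hC, (h1 l).2⟩, h2⟩

theorem nn (h : FacLt m k C f) : 0 ≤ C := h.choose_spec.1 0 |>.1.nn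

theorem zero (hC : 0 ≤ C) : FacLt m k C (fun _ : ℕ → A => 0) :=
  ⟨fun _ _ => 0, fun _ => ⟨Fm.zero hC, fun _ _ => rfl⟩, by simp⟩

theorem of_bal {l : ℕ} (h : Fm m C f) (hb : Bal m l f) (hl : l < k) : FacLt m k C f := by
  refine ⟨fun i => if i = l then f else fun _ => 0, fun i => ?_, fun a => ?_⟩
  · dsimp only
    split_ifs with e
    · exact ⟨h, e ▸ hb⟩
    · exact ⟨Fm.zero h.nn, fun _ _ => rfl⟩
  · rw [sum_eq_single l (fun i _ e => by simp [e]) (fun e => absurd (mem_range.2 hl) e)]
    simp

theorem add (h : FacLt m k C f) (h' : FacLt m k C' f') :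
    FacLt m k (C + C') fun a => f a + f' a := by
  obtain ⟨g, h1, h2⟩ := h
  obtain ⟨g', k1, k2⟩ := h'
  exact ⟨fun l a => g l a + g' l a, fun l => ⟨(h1 l).1.add (k1 l).1, (h1 l).2.add (k1 l).2⟩,
    fun a => by dsimp only; rw [h2, k2, sum_add_distrib]⟩

theorem smul (h : FacLt m k C f) (c : ℂ) : FacLt m k (‖c‖ * C) fun a => c * f a := by
  obtain ⟨g, h1, h2⟩ := h
  exact ⟨fun l a => c * g l a, fun l => ⟨(h1 l).1.smul c, (h1 l).2.smul c⟩,
    fun a => by dsimp only; rw [h2, mul_sum]⟩

theorem sign (h : FacLt m k C f) (l : ℕ) : FacLt m k C fun a => (-1) ^ l * f a := by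
  simpa using h.smul ((-1) ^ l)

theorem neg (h : FacLt m k C f) : FacLt m k C fun a => -f a := by simpa using h.smul (-1)

theorem sub (h : FacLt m k C f) (h' : FacLt m k C' f') :
    FacLt m k (C + C') fun a => f a - f' a := by
  simpa [sub_eq_add_neg] using h.add h'.neg

theorem sum {ι : Type*} (s : Finset ι) {D : ι → ℝ} {F : ι → (ℕ → A) → ℂ}
    (h : ∀ i ∈ s, FacLt m k (D i) (F i)) :
    FacLt m k (∑ i ∈ s, D i) fun a => ∑ i ∈ s, F i a := by
  classical
  induction s using Finset.induction_on with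
  | empty => simpa using zero le_rfl
  | insert i s hi ih =>
    simp only [sum_insert hi]
    exact (h i (mem_insert_self _ _)).add (ih fun j hj => h j (mem_insert_of_mem hj))

/-- averages -/
theorem avg {ι : Type*} [Fintype ι] [Nonempty ι] {F : ι → (ℕ → A) → ℂ}
    (h : ∀ i, FacLt m k C (F i)) :
    FacLt m k C fun a => (Fintype.card ι : ℂ)⁻¹ * ∑ i, F i a := by
  have := (sum univ fun i _ => h i).smul (Fintype.card ι : ℂ)⁻¹
  have e : (Fintype.card ι : ℝ) ≠ 0 := by simp
  simpa [← mul_assoc, inv_mul_cancel₀ e] using this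

theorem fm (h : FacLt m k C f) : Fm m (k * C) f := by
  obtain ⟨g, h1, h2⟩ := h
  simpa [← h2] using Fm.sum (range k) fun l _ => (h1 l).1

end FacLt

end basic

section faces

variable {A : Type*} [NonUnitalNormedRing A] [NormedSpace ℂ A] [IsScalarTower ℂ A A]
  [SMulCommClass ℂ A A] {m l : ℕ} {C : ℝ} {f : (ℕ → A) → ℂ}

theorem prod_ct (l d : ℕ) (a : ℕ → A) :
    ∏ i ∈ range (l + d + 1), ‖ct l a i‖ ≤ ∏ i ∈ range (l + d + 2), ‖a i‖ := by
  induction d with
  | zero =>
    rw [add_zero, prod_range_succ, prod_range_succ, prod_range_succ, mul_assoc,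
      prod_congr rfl (fun i hi => by rw [ct, if_pos (mem_range.1 hi)])]
    gcongr
    simpa [ct] using norm_mul_le _ _
  | succ d ih =>
    rw [← add_assoc, prod_range_succ, prod_range_succ _ (l + d + 2)]
    gcongr
    rw [ct, if_neg (by omega), if_neg (by omega)]

theorem Fm.ct (h : Fm m C f) (hl : l ≤ m) : Fm (m + 1) C fun a => f (ct l a) := by
  refine ⟨h.nn, fun a b e => h.dep _ _ fun i hi => ?_, fun i hi a => ?_, fun a => ?_⟩
  · unfold Co.ct
    split_ifs
    · exact e _ (by omega)
    · rw [e _ (by omega), e _ (by omega)]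
    · exact e _ (by omega)
  · rcases lt_trichotomy i l with e | e | e
    · have : ∀ x, Co.ct l (update a i x) = update (Co.ct l a) i x := fun x => funext fun k => by
        simp only [Co.ct, update_apply]; split_ifs <;> first | rfl | omega
      simp only [this]
      exact h.lin i (by omega) _
    · have : ∀ x, Co.ct l (update a i x) = update (Co.ct l a) l (x * a (l + 1)) :=
        fun x => funext fun k => by
          simp only [Co.ct, update_apply]; split_ifs <;> first | rfl | omega
      simp only [this]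
      exact ⟨fun x y => by rw [add_mul, (h.lin l hl _).1],
        fun c x => by rw [smul_mul_assoc, (h.lin l hl _).2]⟩
    · by_cases e' : i = l + 1
      · have : ∀ x, Co.ct l (update a i x) = update (Co.ct l a) l (a l * x) :=
          fun x => funext fun k => by
            simp only [Co.ct, update_apply]; split_ifs <;> first | rfl | omega
        simp only [this]
        exact ⟨fun x y => by rw [mul_add, (h.lin l hl _).1],
          fun c x => by rw [mul_smul_comm, (h.lin l hl _).2]⟩
      · have : ∀ x, Co.ct l (update a i x) = update (Co.ct l a) (i - 1) x :=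
          fun x => funext fun k => by
            simp only [Co.ct, update_apply]; split_ifs <;> first | rfl | omega
        simp only [this]
        exact h.lin _ (by omega) _
  · obtain ⟨d, rfl⟩ := Nat.exists_eq_add_of_le hl
    exact (h.bd _).trans (mul_le_mul_of_nonneg_left (prod_ct l d a) h.nn)

theorem Fm.wr (h : Fm m C f) : Fm (m + 1) C fun a => f (wr (m + 1) a) := by
  refine ⟨h.nn, fun a b e => h.dep _ _ fun i hi => ?_, fun i hi a => ?_, fun a => ?_⟩
  · unfold Co.wr
    split_ifs
    · rw [e _ (by omega), e _ (by omega)]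
    · exact e _ (by omega)
  · by_cases e : i = 0
    · have : ∀ x, Co.wr (m + 1) (update a i x) = update (Co.wr (m + 1) a) 0 (a (m + 1) * x) :=
        fun x => funext fun k => by
          simp only [Co.wr, update_apply]; split_ifs <;> first | rfl | omega
      simp only [this]
      exact ⟨fun x y => by rw [mul_add, (h.lin 0 m.zero_le _).1],
        fun c x => by rw [mul_smul_comm, (h.lin 0 m.zero_le _).2]⟩
    · by_cases e' : i = m + 1
      · have : ∀ x, f (Co.wr (m + 1) (update a i x)) = f (update (Co.wr (m + 1) a) 0 (x * a 0)) :=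
          fun x => h.dep _ _ fun k hk => by
            simp only [Co.wr, update_apply]; split_ifs <;> first | rfl | omega
        simp only [this]
        exact ⟨fun x y => by rw [add_mul, (h.lin 0 m.zero_le _).1],
          fun c x => by rw [smul_mul_assoc, (h.lin 0 m.zero_le _).2]⟩
      · have : ∀ x, Co.wr (m + 1) (update a i x) = update (Co.wr (m + 1) a) i x :=
          fun x => funext fun k => by
            simp only [Co.wr, update_apply]; split_ifs <;> first | rfl | omega
        simp only [this]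
        exact h.lin _ (by omega) _
  · refine (h.bd _).trans (mul_le_mul_of_nonneg_left ?_ h.nn)
    rw [prod_range_succ _ (m + 1), prod_range_succ', prod_range_succ' _ m, mul_assoc]
    gcongr with i
    · simp [Co.wr]
    · simpa [Co.wr, mul_comm] using norm_mul_le (a (m + 1)) (a 0)

theorem Fm.cb (h : Fm m C f) : Fm (m + 1) ((m + 2) * C) (cb m f) := by
  have := (Fm.sum (range (m + 1)) fun l hl =>
    (h.ct (Nat.lt_succ_iff.1 (mem_range.1 hl))).sign l).add (h.wr.sign (m + 1))
  refine this.mono (le_of_eq ?_)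
  simp; ring

omit [NormedSpace ℂ A] [IsScalarTower ℂ A A] [SMulCommClass ℂ A A] in
theorem bal_ct (hl : l ≤ m) (f : (ℕ → A) → ℂ) : Bal (m + 1) l fun a => f (ct l a) := by
  intro a c
  rw [nx_lt (by omega)]
  refine congrArg f (funext fun k => ?_)
  simp only [Co.ct, update_apply]
  split_ifs <;> first | rfl | omega | exact mul_assoc _ _ _

theorem Fm.bal_wr (h : Fm m C f) : Bal (m + 1) (m + 1) fun a => f (Co.wr (m + 1) a) := by
  intro a c
  rw [nx_self]
  refine h.dep _ _ fun k hk => ?_
  by_cases e : k = 0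
  · simp [Co.wr, e, mul_assoc]
  · have : k ≠ m + 1 := by omega
    simp [Co.wr, e, this]

end faces

section insertion

variable {A : Type*} [SeminormedAddCommGroup A] [Module ℂ A] {m i : ℕ} {C : ℝ} {f : (ℕ → A) → ℂ}

omit [Module ℂ A] in
theorem prod_ins (i d : ℕ) (c : A) (a : ℕ → A) :
    ∏ k ∈ range (i + d + 1), ‖ins i c a k‖ = ‖c‖ * ∏ k ∈ range (i + d), ‖a k‖ := by
  induction d with
  | zero =>
    rw [add_zero, prod_range_succ, mul_comm,
      prod_congr rfl (fun k hk => by rw [ins, if_pos (mem_range.1 hk)])]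
    simp [ins]
  | succ d ih =>
    rw [← add_assoc, prod_range_succ, ih, prod_range_succ _ (i + d), mul_assoc, ins,
      if_neg (by omega), if_neg (by omega)]
    rfl

theorem Fm.ins (h : Fm (m + 1) C f) (hi : i ≤ m + 1) (c : A) :
    Fm m (C * ‖c‖) fun a => f (ins i c a) := by
  refine ⟨mul_nonneg h.nn (norm_nonneg _), fun a b e => h.dep _ _ fun k hk => ?_,
    fun k hk a => ?_, fun a => ?_⟩
  · unfold Co.ins
    split_ifs
    · exact e _ (by omega)
    · rfl
    · exact e _ (by omega)
  · by_cases e : k < i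
    · have : ∀ x, Co.ins i c (update a k x) = update (Co.ins i c a) k x :=
        fun x => funext fun t => by
          simp only [Co.ins, update_apply]; split_ifs <;> first | rfl | omega
      simp only [this]
      exact h.lin _ (by omega) _
    · have : ∀ x, Co.ins i c (update a k x) = update (Co.ins i c a) (k + 1) x :=
        fun x => funext fun t => by
          simp only [Co.ins, update_apply]; split_ifs <;> first | rfl | omega
      simp only [this]
      exact h.lin _ (by omega) _
  · obtain ⟨d, e⟩ := Nat.exists_eq_add_of_le hi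
    have := h.bd (Co.ins i c a)
    rwa [e, prod_ins, ← e, ← mul_assoc] at this

end insertion

end Pool.Agent.Lib.MP_08bba9_an.Co
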