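import Pool.Agent.Lib.MP_08bba9_an.Co.Core
import Pool.Agent.Lib.MP_08bba9_an.Co.Amp
import Pool.Agent.Lib.MP_08bba9_an.W.WVn
import Pool.Agent.Lib.MP_08bba9_an.W.Ext

/-! Vanishing of the Hochschild cohomology from the extension of cocycles. -/

noncomputable section

namespace Pool.Agent.Lib.MP_08bba9_an.Co

open Finset Function

universe u

/-- cocycles extend to an algebra with enough projections -/
def ExtWA (D : Type u) [CStarAlgebra D] : Prop :=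
  ∃ (M : Type u) (_ : CStarAlgebra M) (π : D →⋆ₐ[ℂ] M), W.WA M ∧
    ∀ n (Φ : Multi D ℂ n), cob Φ = 0 →
      ∃ Ψ : Multi M ℂ n, cob Ψ = 0 ∧ ∀ a, Ψ (fun i => π (a i)) = Φ a

theorem goodPart {M : Type*} [CStarAlgebra M] (h : W.WA M) : GoodPart M :=
  fun _ _ _ _ _ a Y _ ha hY h1 h2 h3 _ hε =>
    let ⟨_, c, hc⟩ := h.dich a Y ⟨h1, h2⟩ ha hY h3 hε
    ⟨_, inferInstance, c, hc⟩

theorem coc_iff {A : Type*} [NormedRing A] [NormedAlgebra ℂ A] {m : ℕ} (φ : Multi A ℂ m) :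
    Coc m (fun a => φ fun i => a i) ↔ cob φ = 0 := by
  refine ⟨fun h => ?_, fun h a => by rw [cb_multi, h]; rfl⟩
  ext a
  have := h (ex a)
  rwa [cb_multi, show (fun i : Fin (m + 2) => ex a i) = a from funext fun i => dif_pos i.2] at this

theorem hh_of_ext (hX : ∀ (D : Type u) [CStarAlgebra D], ExtWA D) (A : Type u) [CStarAlgebra A]
    (n : ℕ) (φ : Multi A ℂ (n + 1)) (hφ : cob φ = 0) : ∃ χ : Multi A ℂ n, cob χ = φ := by
  refine hh_multi (fun C f hf hc => ?_) φ hφ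
  obtain ⟨B, _, E, j, hE, H⟩ := amp A (n + 1)
  obtain ⟨D, Φ, h1, h2, h3⟩ := H _ C f hf hc
  obtain ⟨M, _, π, hW, hπ⟩ := hX B
  obtain ⟨Φ', -, e⟩ := h1.ex_multi
  obtain ⟨Ψ, k1, k2⟩ := hπ _ Φ' ((coc_iff Φ').1 (funext e ▸ h2))
  have hE' : MU (n + 1) (fun p q => π (E p q)) ((π : B →⋆ₙₐ[ℂ] M).comp j) :=
    ⟨fun p hp q hq r hr s hs => by
        rw [← map_mul, hE.mul p hp q hq r hr s hs]; split_ifs <;> simp,
      fun p hp q hq => by rw [← map_star, hE.st p hp q hq],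
      by rw [← map_sum, hE.sum, map_one], by simp [hE.one]⟩
  obtain ⟨K, hK⟩ := facial (goodPart hW) hE' (by omega) (fm_of_multi Ψ) ((coc_iff Ψ).2 k1)
  refine dk (C := K) hc (FacLt.congr hK fun a => ?_)
  rw [← h3, e, ← k2]
  rfl

theorem extWA (D : Type u) [CStarAlgebra D] : ExtWA D := by
  obtain ⟨H, _, _, _, M, hM, π, h⟩ := W.exists_ext D
  haveI := hM.isClosed
  exact ⟨M, inferInstance, π, hM.wa, fun n Φ hΦ =>
    let ⟨Ψ, _, h2, h3⟩ := h n Φ
    ⟨Ψ, h3 hΦ, h2⟩⟩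

end Pool.Agent.Lib.MP_08bba9_an.Co

namespace Pool.Agent.Lib.MP_08bba9_an

/-- Every bounded Hochschild cocycle of positive degree with values in the dual module of a unital
C*-algebra is a coboundary. -/
theorem hh_all (A : Type*) [CStarAlgebra A] (n : ℕ) (φ : Multi A ℂ (n + 1)) (hφ : cob φ = 0) :
    ∃ χ : Multi A ℂ n, cob χ = φ :=
  Co.hh_of_ext (fun D _ => Co.extWA D) A n φ hφ

end Pool.Agent.Lib.MP_08bba9_an
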